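import Pool.Agent.K7.H46.LO.Main

set_option autoImplicit false

/-!
# The certificate for the word [0, 1, 0, 2, 1, 0, 2, 1, 2]
-/

namespace Pool.Agent.K7.H46.LO

def e6_0 : Cert :=
  (.step 1 8 69 (.step 2 8 2 (.step 0 2 10 (.step 1 9 34 (.step 5 11 0 (.step 0 13 8 (.step 1 13 81 (.step 0 9 15 (.step 0 1 15 (.step 5 14 1 (.step 1 15 110 (.step 0 6 19 (.step 7 15 0 (.step 0 18 21 (.step 0 12 21 (.step 9 16 1 (.step 0 24 23 (.step 8 17 7 (.step 0 21 26 (.step 0 27 6 (.step 0 22 26 (.step 0 29 6 (.step 0 22 26 (.step 0 25 26 (.step 0 32 20 (.step 0 25 26 (.step 4 30 8 (.step 4 33 8 (.step 1 35 81 (.step 1 36 129 (.step 6 37 8 (.step 0 28 39 (.step 6 38 8 (.step 0 41 34 (.step 1 42 111 (.step 1 43 128 (.step 2 44 6 (.step 0 31 45 (.step 0 46 5 (.step 5 47 3 (.step 1 48 69 (.step 0 49 37 (.step 1 49 34 (.step 0 51 40 (.step 9 50 1 (.step 0 53 52 (.contra 54)))))))))))))))))))))))))))))))))))))))))))))))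

def e6_1 : Cert :=
  (.step 1 27 1 (.step 0 1 28 (.step 1 28 44 (.step 0 24 30 (.step 0 25 30 (.step 0 16 30 (.step 8 29 7 (.step 0 31 34 (.step 0 35 6 (.step 0 32 34 (.step 0 37 6 (.step 0 32 34 (.step 0 33 34 (.step 5 36 6 (.step 5 40 6 (.step 1 41 75 (.step 1 42 129 (.step 7 43 6 (.step 0 45 24 (.step 7 44 6 (.step 0 39 47 (.step 1 48 105 (.step 1 49 128 (.step 3 50 3 (.step 0 17 51 (.step 0 52 38 (.step 4 53 8 (.step 1 54 81 (.step 0 43 55 (.step 1 55 44 (.step 0 46 57 (.step 8 56 7 (.step 0 59 58 (.contra 60))))))))))))))))))))))))))))))))))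

def e6_2 : Cert :=
  (.step 1 28 1 (.step 0 29 12 (.step 1 29 96 (.step 0 31 17 (.step 1 29 110 (.step 8 30 1 (.step 0 19 34 (.step 0 35 31 (.step 0 20 34 (.step 0 37 31 (.step 0 20 34 (.step 0 26 34 (.step 0 26 34 (.step 0 41 32 (.step 4 38 3 (.step 4 42 3 (.step 1 43 69 (.step 1 44 129 (.step 6 45 3 (.step 0 36 47 (.step 6 46 3 (.step 0 49 40 (.step 1 50 97 (.step 1 51 128 (.step 2 52 8 (.step 0 39 53 (.step 0 54 33 (.step 5 55 6 (.step 1 56 75 (.step 0 57 45 (.step 1 57 38 (.step 0 59 48 (.step 9 58 4 (.step 0 61 60 (.contra 62)))))))))))))))))))))))))))))))))))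

def e6_3 : Cert :=
  (.step 1 28 1 (.step 0 1 29 (.step 1 27 1 (.step 0 31 12 (.step 1 29 44 (.step 0 24 33 (.step 8 30 7 (.step 0 34 35 (.step 0 36 6 (.step 1 31 96 (.step 8 32 1 (.step 0 19 39 (.step 0 40 38 (.step 0 20 39 (.step 0 42 38 (.step 5 37 6 (.step 4 43 3 (.step 1 44 75 (.step 1 45 69 (.step 0 46 47 (.step 1 46 38 (.step 0 49 41 (.step 6 47 3 (.step 0 50 51 (.step 9 48 4 (.step 0 53 52 (.contra 54)))))))))))))))))))))))))))

def e6_4 : Cert :=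
  (.split [0,81,0] [0] e6_2 e6_3)

def e6_5 : Cert :=
  (.step 0 9 0 (.step 0 4 9 (.step 1 9 69 (.step 0 1 12 (.step 5 10 4 (.step 5 11 4 (.step 0 15 7 (.step 1 12 96 (.step 1 12 104 (.step 7 12 2 (.step 0 14 19 (.step 0 3 19 (.step 9 13 4 (.step 0 18 22 (.step 0 23 7 (.step 0 22 7 (.step 0 22 21 (.split [0] [0,81,0] e6_1 e6_4))))))))))))))))))

def e6_6 : Cert :=
  (.step 2 9 2 (.step 0 2 10 (.step 1 8 69 (.step 0 1 12 (.step 5 11 0 (.step 0 14 9 (.step 0 14 0 (.step 1 12 104 (.step 9 13 4 (.step 0 17 18 (.step 0 19 7 (.step 1 14 81 (.step 0 1 21 (.step 5 15 1 (.step 4 16 7 (.step 0 20 24 (.step 7 21 0 (.step 0 23 26 (.step 8 22 7 (.step 0 27 28 (.step 0 29 6 (.step 5 25 6 (.step 4 30 8 (.step 1 31 75 (.step 1 32 81 (.step 0 33 34 (.step 7 33 6 (.step 0 36 20 (.step 1 34 44 (.step 0 37 38 (.step 8 35 7 (.step 0 40 39 (.contra 41)))))))))))))))))))))))))))))))))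

def e6_7 : Cert :=
  (.split [68] [0] e6_5 e6_6)

def e6_8 : Cert :=
  (.step 1 0 75 (.step 2 0 5 (.step 1 1 38 (.step 1 1 68 (.step 1 1 104 (.step 1 1 110 (.step 6 1 5 (.split [0] [68] e6_0 e6_7))))))))

def e6_9 : Cert :=
  (.step 1 9 69 (.step 3 9 2 (.step 0 11 3 (.step 1 10 34 (.step 4 12 0 (.step 0 9 14 (.step 1 14 81 (.step 0 16 10 (.step 0 16 2 (.step 4 15 1 (.step 1 16 110 (.step 0 20 7 (.step 6 16 0 (.step 0 22 19 (.step 0 22 13 (.step 8 17 1 (.step 0 24 25 (.step 9 18 7 (.step 0 7 27 (.step 0 28 22 (.step 0 7 27 (.step 0 30 23 (.step 0 21 27 (.step 0 32 26 (.step 0 27 23 (.step 0 27 26 (.step 5 31 8 (.step 5 33 8 (.step 1 36 81 (.step 1 37 129 (.step 7 38 8 (.step 0 40 29 (.step 7 39 8 (.step 0 35 42 (.step 1 43 111 (.step 1 44 128 (.step 3 45 6 (.step 0 6 46 (.step 0 47 34 (.step 4 48 3 (.step 1 49 69 (.step 0 38 50 (.step 1 50 34 (.step 0 41 52 (.step 8 51 1 (.step 0 54 53 (.contra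 55)))))))))))))))))))))))))))))))))))))))))))))))

def e6_10 : Cert :=
  (.step 1 28 1 (.step 0 13 29 (.step 1 29 96 (.step 0 18 31 (.step 1 29 110 (.step 9 30 1 (.step 0 31 34 (.step 0 35 20 (.step 0 31 34 (.step 0 37 21 (.step 0 34 21 (.step 0 34 27 (.step 0 32 34 (.step 0 41 27 (.step 5 38 3 (.step 5 42 3 (.step 1 43 69 (.step 1 44 129 (.step 7 45 3 (.step 0 47 36 (.step 7 46 3 (.step 0 40 49 (.step 1 50 97 (.step 1 51 128 (.step 3 52 8 (.step 0 33 53 (.step 0 54 39 (.step 4 55 6 (.step 1 56 75 (.step 0 45 57 (.step 1 57 38 (.step 0 48 59 (.step 8 58 4 (.step 0 61 60 (.contra 62)))))))))))))))))))))))))))))))))))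

def e6_11 : Cert :=
  (.step 1 29 1 (.step 0 30 2 (.step 1 30 44 (.step 0 32 25 (.step 0 32 26 (.step 0 32 16 (.step 9 31 7 (.step 0 7 36 (.step 0 37 33 (.step 0 7 36 (.step 0 39 34 (.step 0 36 34 (.step 0 36 35 (.step 4 38 6 (.step 4 42 6 (.step 1 43 75 (.step 1 44 129 (.step 6 45 6 (.step 0 25 47 (.step 6 46 6 (.step 0 49 41 (.step 1 50 105 (.step 1 51 128 (.step 2 52 3 (.step 0 40 53 (.step 0 54 18 (.step 5 55 8 (.step 1 56 81 (.step 0 57 45 (.step 1 57 44 (.step 0 59 48 (.step 9 58 7 (.step 0 61 60 (.contra 62))))))))))))))))))))))))))))))))))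

def e6_12 : Cert :=
  (.step 1 29 1 (.step 0 13 30 (.step 1 28 1 (.step 0 32 2 (.step 1 30 96 (.step 9 31 1 (.step 0 34 35 (.step 0 36 20 (.step 0 34 35 (.step 0 38 21 (.step 1 32 44 (.step 0 40 25 (.step 9 33 7 (.step 0 7 42 (.step 0 43 41 (.step 5 39 3 (.step 4 44 6 (.step 1 45 69 (.step 1 46 75 (.step 0 47 48 (.step 7 47 3 (.step 0 50 37 (.step 1 48 38 (.step 0 51 52 (.step 8 49 4 (.step 0 54 53 (.contra 55)))))))))))))))))))))))))))

def e6_13 : Cert :=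
  (.split [0,81,0] [0] e6_11 e6_12)

def e6_14 : Cert :=
  (.step 0 10 5 (.step 0 1 10 (.step 1 10 69 (.step 0 13 2 (.step 4 11 4 (.step 0 8 15 (.step 4 12 4 (.step 1 13 96 (.step 1 13 104 (.step 6 13 2 (.step 0 20 17 (.step 0 20 4 (.step 8 14 4 (.step 0 8 23 (.step 0 24 19 (.step 0 8 23 (.step 0 22 23 (.split [0] [0,81,0] e6_10 e6_13))))))))))))))))))

def e6_15 : Cert :=
  (.step 1 9 69 (.step 0 11 2 (.step 1 10 69 (.step 3 10 2 (.step 0 14 3 (.step 1 11 96 (.step 1 11 104 (.step 8 12 4 (.step 0 8 18 (.step 0 19 17 (.step 1 13 34 (.step 1 13 80 (.step 4 15 0 (.step 0 23 22 (.step 0 1 23 (.step 1 23 81 (.step 0 26 2 (.step 4 24 1 (.step 0 21 28 (.step 0 29 16 (.step 5 25 7 (.step 0 31 20 (.step 6 26 0 (.step 0 33 30 (.step 9 27 7 (.step 0 7 35 (.step 0 36 34 (.step 4 32 6 (.step 5 37 8 (.step 1 38 75 (.step 1 39 81 (.step 0 41 40 (.step 6 40 6 (.step 0 20 43 (.step 1 41 44 (.step 0 45 44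 (.step 9 42 7 (.step 0 47 46 (.contra 48)))))))))))))))))))))))))))))))))))))))

def e6_16 : Cert :=
  (.split [0] [68] e6_14 e6_15)

def e6_17 : Cert :=
  (.step 1 1 75 (.step 3 1 5 (.step 1 2 38 (.step 1 2 68 (.step 1 2 104 (.step 1 2 110 (.step 7 2 5 (.split [68] [0] e6_9 e6_16))))))))

def e6_18 : Cert :=
  (.step 0 14 1 (.step 1 14 69 (.step 3 14 2 (.step 0 17 5 (.step 5 15 4 (.step 7 16 2 (.step 0 19 20 (.step 0 7 20 (.step 4 18 0 (.step 0 23 11 (.step 1 23 81 (.step 0 25 16 (.step 0 25 4 (.step 5 24 7 (.step 0 13 28 (.step 0 29 22 (.step 1 25 96 (.step 6 25 0 (.step 8 26 1 (.step 0 21 33 (.step 0 34 31 (.step 0 30 33 (.step 0 36 31 (.step 9 27 7 (.step 0 13 38 (.step 0 39 32 (.step 4 35 3 (.step 5 37 8 (.step 1 41 69 (.step 1 42 81 (.step 0 44 43 (.step 1 43 34 (.step 0 40 46 (.step 7 44 8 (.step 0 48 47 (.step 8 45 1 (.step 0 50 49 (.contra 51))))))))))))))))))))))))))))))))))))))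

def e6_19 : Cert :=
  (.step 7 68 3 (.step 0 75 48 (.step 6 69 8 (.step 0 62 77 (.step 0 57 77 (.step 9 70 1 (.step 0 78 80 (.step 6 71 8 (.step 0 82 55 (.step 0 82 56 (.step 0 82 57 (.step 0 82 74 (.step 1 73 97 (.step 1 79 97 (.step 1 81 35 (.step 1 85 111 (.step 5 86 8 (.step 1 87 110 (.step 0 62 92 (.step 0 93 84 (.step 0 92 83 (.step 1 87 128 (.step 0 96 1 (.step 0 96 91 (.step 1 88 80 (.step 0 0 99 (.step 1 89 68 (.step 0 101 96 (.step 1 89 104 (.step 0 94 103 (.step 0 104 75 (.step 0 103 76 (.step 1 90 80 (.step 0 91 107 (.step 0 98 107 (.zero [(108,30),(105,37),(14,102),(101,64),(22,106),(1,0),(100,97),(38,95),(65,109)]))))))))))))))))))))))))))))))))))))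

def e6_20 : Cert :=
  (.step 0 14 12 (.step 1 14 69 (.step 0 16 4 (.step 2 14 2 (.step 0 3 18 (.step 4 15 4 (.step 0 10 20 (.step 0 21 8 (.step 1 16 80 (.step 6 16 2 (.step 0 24 5 (.step 0 24 22 (.step 0 24 10 (.step 8 17 4 (.step 0 27 28 (.step 5 19 0 (.step 0 30 14 (.step 0 30 1 (.step 0 23 30 (.step 1 30 81 (.step 0 16 34 (.step 0 2 34 (.step 5 31 1 (.step 4 32 7 (.step 0 25 38 (.step 5 33 1 (.step 0 40 29 (.step 1 34 96 (.step 1 34 110 (.step 0 39 43 (.step 7 34 0 (.step 9 35 1 (.step 0 42 46 (.step 0 47 24 (.step 0 42 46 (.step 0 49 26 (.step 0 42 46 (.step 0 51 39 (.step 0 42 46 (.step 0 53 29 (.step 0 46 25 (.step 0 46 26 (.step 0 46 39 (.step 0 46 44 (.step 0 46 29 (.step 8 36 7 (.step 0 45 60 (.step 0 61 9 (.step 5 41 3 (.step 5 50 3 (.step 4 52 8 (.step 4 58 8 (.step 1 63 129 (.step 1 64 69 (.step 1 65 81 (.step 0 68 69 (.step 1 66 129 (.step 7 67 3 (.step 0 54 72 (.step 0 59 72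 e6_19))))))))))))))))))))))))))))))))))))))))))))))))))))))))))))

def e6_21 : Cert :=
  (.step 1 1 75 (.step 2 1 5 (.step 1 0 75 (.step 3 0 5 (.step 1 2 44 (.step 0 6 3 (.step 1 2 104 (.step 1 2 110 (.step 1 4 38 (.step 1 4 80 (.step 1 4 68 (.step 1 4 110 (.split [68] [0] e6_18 e6_20)))))))))))))

def e6_22 : Cert :=
  (.split [74] [0] e6_17 e6_21)

def e6_23 : Cert :=
  (.split [0] [74] e6_8 e6_22)

/-- The word has a certificate. -/
theorem e6_check : check (boxes (Chain.nat (k := 3) [0, 1, 0, 2, 1, 0, 2, 1, 2])) e6_23 .lf 0 = true := by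
  decide +kernel

end Pool.Agent.K7.H46.LO
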