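import Pool.Agent.K7.H46.LO.Main

set_option autoImplicit false

/-!
# The certificate for the word [0, 1, 0, 1, 2, 1, 0, 2, 1, 2]
-/

namespace Pool.Agent.K7.H46.LO

def e7_0 : Cert :=
  (.step 1 24 77 (.step 1 25 0 (.step 2 26 6 (.step 0 27 21 (.step 0 6 27 (.step 5 28 2 (.step 0 22 30 (.step 0 31 18 (.step 5 29 2 (.step 0 33 26 (.step 1 32 69 (.step 1 33 69 (.step 0 3 36 (.step 8 35 1 (.step 0 11 38 (.step 7 36 2 (.step 0 40 39 (.step 8 37 1 (.step 0 40 42 (.step 1 41 97 (.step 1 41 107 (.step 2 41 3 (.step 0 46 34 (.step 1 43 97 (.step 1 45 72 (.step 5 47 5 (.step 0 50 43 (.step 1 48 128 (.step 1 50 107 (.step 0 53 45 (.step 0 44 53 (.step 7 53 5 (.step 0 26 56 (.step 0 56 49 (.step 8 54 4 (.step 0 58 59 (.step 8 55 4 (.step 0 57 61 (.step 0 62 52 (.step 2 60 7 (.step 0 9 64 (.step 0 65 51 (.step 2 63 9 (.step 0 67 66 (.contra 68)))))))))))))))))))))))))))))))))))))))))))))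

def e7_1 : Cert :=
  (.step 2 121 4 (.step 0 116 133 (.step 2 126 4 (.step 0 101 135 (.step 5 129 9 (.step 5 132 9 (.step 0 127 138 (.step 5 134 9 (.step 2 136 3 (.step 1 137 83 (.step 1 139 83 (.step 1 140 83 (.step 1 141 69 (.step 1 142 128 (.step 1 143 38 (.step 1 143 72 (.step 0 148 1 (.step 7 144 9 (.step 0 150 105 (.step 0 150 111 (.step 0 150 112 (.step 8 145 3 (.step 0 147 154 (.step 0 154 12 (.step 3 146 9 (.step 0 157 8 (.step 1 150 113 (.step 1 151 47 (.step 3 152 1 (.step 0 149 161 (.step 1 153 47 (.step 1 158 113 (.step 0 163 164 (.step 1 159 76 (.step 0 166 123 (.step 1 161 69 (.step 0 4 168 (.step 4 162 3 (.step 1 163 34 (.step 7 165 8 (.step 0 172 167 (.step 1 168 96 (.step 0 156 174 (.step 6 169 2 (.step 0 176 170 (.step 0 176 155 (.step 1 170 39 (.step 0 160 179 (.step 1 175 39 (.step 2 178 1 (.step 9 180 6 (.step 1 181 76 (.step 0 173 184 (.step 0 185 183 (.step 1 182 83 (.step 3 186 0 (.step 0 177 188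 (.step 0 189 171 (.step 1 187 34 (.step 0 191 190 (.contra 192)))))))))))))))))))))))))))))))))))))))))))))))))))))))))))))

def e7_2 : Cert :=
  (.step 0 44 72 (.step 0 44 72 (.step 0 74 68 (.step 0 49 72 (.step 0 50 72 (.step 0 77 13 (.step 2 72 5 (.step 1 73 107 (.step 0 80 58 (.step 4 75 7 (.step 0 60 82 (.step 4 76 7 (.step 4 78 7 (.step 1 79 73 (.step 1 80 128 (.step 8 81 7 (.step 0 61 88 (.step 0 60 88 (.step 0 90 87 (.step 0 60 88 (.step 1 83 129 (.step 1 84 129 (.step 1 85 129 (.step 1 86 38 (.step 1 86 112 (.step 0 97 47 (.step 8 86 5 (.step 0 44 99 (.step 0 96 99 (.step 1 89 129 (.step 1 91 129 (.step 1 92 129 (.step 1 93 112 (.step 1 94 76 (.step 1 95 76 (.step 1 100 107 (.step 1 102 72 (.step 1 103 112 (.step 0 110 52 (.step 0 110 51 (.step 1 104 72 (.step 1 104 76 (.step 2 106 7 (.step 2 107 7 (.step 1 108 72 (.step 0 109 117 (.step 0 117 89 (.step 0 113 117 (.step 0 120 1 (.step 1 108 76 (.step 0 114 122 (.step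 1 108 96 (.step 1 108 128 (.step 0 89 125 (.step 0 92 125 (.step 2 118 4 (.step 0 115 128 (.step 2 119 4 (.step 0 98 130 (.step 0 131 124 e7_1))))))))))))))))))))))))))))))))))))))))))))))))))))))))))))

def e7_3 : Cert :=
  (.step 1 91 73 (.step 3 91 4 (.step 1 92 82 (.step 0 78 94 (.step 1 92 76 (.step 1 92 106 (.step 1 92 128 (.step 0 98 78 (.step 3 95 9 (.step 0 100 93 (.step 1 98 73 (.step 3 98 4 (.step 3 99 9 (.step 0 104 103 (.step 4 101 7 (.step 0 96 106 (.step 7 102 4 (.step 1 103 39 (.step 4 105 7 (.step 1 106 77 (.step 1 107 73 (.step 4 107 5 (.step 0 113 97 (.step 1 109 72 (.step 0 115 86 (.step 1 110 73 (.step 6 111 7 (.step 0 114 118 (.step 0 119 90 (.step 8 112 5 (.step 1 117 106 (.step 0 121 122 (.step 0 123 108 (.step 4 120 2 (.step 0 116 125 (.step 1 124 39 (.step 10 126 3 (.step 0 128 127 (.contra 129)))))))))))))))))))))))))))))))))))))))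

def e7_4 : Cert :=
  (.step 2 106 1 (.step 1 107 69 (.step 0 108 55 (.step 1 108 96 (.step 8 108 1 (.step 0 111 110 (.step 1 111 97 (.step 0 113 109 (.step 1 112 113 (.step 0 55 115 (.step 1 113 82 (.step 9 114 9 (.step 0 95 118 (.step 0 119 117 (.step 0 64 118 (.step 0 121 117 (.step 0 71 118 (.step 0 123 117 (.step 1 115 76 (.step 0 80 125 (.step 9 116 9 (.step 1 120 73 (.step 4 120 3 (.step 1 122 69 (.step 0 130 96 (.step 1 122 73 (.step 8 128 3 (.step 1 129 39 (.step 1 130 96 (.step 8 131 3 (.step 0 104 136 (.step 0 137 135 (.step 1 132 128 (.step 0 105 139 (.step 1 133 39 (.step 6 134 3 (.step 0 124 142 (.step 2 138 5 (.step 0 144 103 (.step 1 141 128 (.step 0 140 146 (.step 2 145 7 (.step 1 148 113 (.step 1 149 128 (.step 0 150 127 (.step 8 149 7 (.step 0 126 152 (.step 0 153 147 (.step 0 152 151 (.step 1 155 77 (.step 1 156 112 (.step 0 157 46 (.step 1 158 39 (.step 1 159 72 (.step 0 143 160 (.step 0 161 154 (.step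 1 159 128 (.step 0 163 162 (.contra 164)))))))))))))))))))))))))))))))))))))))))))))))))))))))))))

def e7_5 : Cert :=
  (.step 3 107 1 (.step 1 108 69 (.step 1 109 82 (.step 1 109 96 (.step 9 109 1 (.step 0 111 112 (.step 0 113 88 (.step 1 110 69 (.step 0 4 115 (.step 0 116 83 (.step 1 115 96 (.step 0 12 118 (.step 0 119 114 (.step 8 117 3 (.step 0 121 120 (.contra 122))))))))))))))))

def e7_6 : Cert :=
  (.step 2 107 1 (.step 3 106 1 (.step 1 108 69 (.step 1 109 69 (.step 1 110 34 (.step 0 106 112 (.step 0 113 88 (.step 1 111 82 (.step 1 111 96 (.step 0 116 114 (.step 1 115 69 (.step 0 4 118 (.step 0 119 83 (.step 1 118 96 (.step 0 12 121 (.step 0 122 117 (.step 8 120 3 (.step 0 124 123 (.contra 125)))))))))))))))))))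

def e7_7 : Cert :=
  (.split [96,83,68] [34,83,68] e7_5 e7_6)

def e7_8 : Cert :=
  (.step 1 92 73 (.step 1 93 128 (.step 0 94 64 (.step 1 94 73 (.step 2 94 4 (.step 6 96 4 (.step 1 97 107 (.step 1 98 107 (.step 1 99 128 (.step 8 99 4 (.step 0 102 101 (.step 1 100 38 (.step 1 100 128 (.split [34,83,68] [96,83,68] e7_4 e7_7))))))))))))))

def e7_9 : Cert :=
  (.step 1 92 73 (.step 3 92 4 (.step 1 91 73 (.step 2 91 4 (.step 1 93 82 (.step 0 78 97 (.step 1 93 96 (.step 0 99 94 (.step 1 93 106 (.step 0 101 96 (.step 1 93 112 (.step 1 93 128 (.step 1 95 96 (.step 0 102 105 (.step 1 95 106 (.step 0 100 107 (.step 0 94 107 (.step 3 98 9 (.step 0 103 110 (.step 0 111 109 (.step 1 104 77 (.step 1 106 39 (.step 1 108 39 (.step 4 112 7 (.step 0 116 104 (.step 1 113 112 (.step 0 118 90 (.step 1 115 72 (.step 0 120 86 (.step 1 116 77 (.step 4 117 5 (.step 6 122 7 (.step 0 123 124 (.step 0 125 119 (.step 1 123 39 (.step 0 127 114 (.step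 4 126 2 (.step 0 121 129 (.step 6 128 3 (.step 0 131 130 (.contra 132)))))))))))))))))))))))))))))))))))))))))

def e7_10 : Cert :=
  (.split [72,129,72] [72] e7_8 e7_9)

def e7_11 : Cert :=
  (.step 0 43 73 (.step 3 73 5 (.step 0 42 75 (.step 0 42 75 (.step 0 77 1 (.step 0 65 75 (.step 0 79 63 (.step 1 74 39 (.step 1 75 73 (.step 0 33 82 (.step 1 76 77 (.step 1 81 72 (.step 0 85 75 (.step 1 82 38 (.step 0 45 87 (.step 1 84 112 (.step 0 89 52 (.split [72] [72,129,72] e7_3 e7_10))))))))))))))))))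

def e7_12 : Cert :=
  (.step 0 44 73 (.step 0 45 73 (.step 0 75 69 (.step 0 49 73 (.step 2 73 5 (.step 1 74 107 (.step 0 79 58 (.step 4 76 7 (.step 0 63 81 (.step 4 77 7 (.step 3 72 5 (.step 0 84 83 (.step 1 79 128 (.step 0 86 70 (.step 8 80 7 (.step 0 60 88 (.step 0 89 87 (.step 1 84 73 (.step 2 85 4 (.step 0 74 92 (.step 0 73 92 (.step 1 91 38 (.step 0 44 95 (.step 1 91 68 (.step 1 93 97 (.step 0 17 98 (.step 0 99 59 (.step 2 94 3 (.step 0 78 101 (.step 0 102 97 (.step 9 100 9 (.step 0 82 104 (.step 0 90 104 (.step 1 103 69 (.step 1 106 83 (.step 8 107 3 (.step 0 96 109 (.step 1 108 34 (.step 1 110 97 (.step 3 111 1 (.step 0 105 113 (.step 0 114 23 (.step 1 112 68 (.step 0 116 115 (.contra 117)))))))))))))))))))))))))))))))))))))))))))))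

def e7_13 : Cert :=
  (.split [106,77,0] [38,77,0] e7_11 e7_12)

def e7_14 : Cert :=
  (.step 1 25 77 (.step 1 26 0 (.step 0 27 1 (.step 0 19 27 (.step 0 29 20 (.step 1 27 83 (.step 0 31 3 (.step 1 27 77 (.step 0 33 5 (.step 0 3 33 (.step 5 28 8 (.step 5 30 8 (.step 1 31 46 (.step 0 38 10 (.step 9 32 8 (.step 0 40 39 (.step 1 33 72 (.step 1 33 106 (.step 7 33 6 (.step 0 6 44 (.step 9 34 8 (.step 0 14 46 (.step 0 14 46 (.step 0 48 44 (.step 0 46 44 (.step 9 35 8 (.step 0 51 10 (.step 1 36 113 (.step 1 37 113 (.step 1 41 113 (.step 1 44 39 (.step 1 46 113 (.step 0 5 57 (.step 1 52 113 (.step 7 53 8 (.step 0 1 60 (.step 7 54 8 (.step 0 20 62 (.step 1 55 128 (.step 1 56 72 (.step 1 56 128 (.step 1 57 106 (.step 0 13 67 (.step 1 59 106 (.step 1 59 128 (.step 0 66 70 (.split [38,77,0] [106,77,0] e7_2 e7_13)))))))))))))))))))))))))))))))))))))))))))))))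

def e7_15 : Cert :=
  (.step 0 85 53 (.step 9 78 9 (.step 0 79 87 (.step 0 88 86 (.step 1 80 72 (.step 0 64 90 (.step 5 84 5 (.step 1 92 107 (.step 0 93 81 (.step 7 93 5 (.step 0 89 95 (.step 0 96 91 (.step 8 94 4 (.step 0 98 97 (.contra 99)))))))))))))))

def e7_16 : Cert :=
  (.step 1 25 77 (.step 2 25 6 (.step 1 24 77 (.step 3 24 6 (.step 1 26 46 (.step 0 30 27 (.step 0 6 30 (.step 0 32 27 (.step 1 26 38 (.step 0 34 29 (.step 1 26 68 (.step 1 28 0 (.step 0 37 1 (.step 1 28 46 (.step 0 35 39 (.step 1 28 34 (.step 0 41 33 (.step 1 31 39 (.step 1 37 83 (.step 0 44 3 (.step 1 37 69 (.step 0 46 4 (.step 1 40 39 (.step 1 40 107 (.step 5 42 2 (.step 0 36 50 (.step 0 51 38 (.step 0 36 50 (.step 1 43 68 (.step 0 54 50 (.step 1 44 46 (.step 0 56 10 (.step 9 45 8 (.step 0 58 57 (.step 1 46 34 (.step 0 60 11 (.step 1 48 72 (.step 1 48 96 (.step 1 49 72 (.step 1 50 69 (.step 0 26 65 (.step 0 66 47 (.step 4 52 1 (.step 1 59 113 (.step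 7 65 2 (.step 0 31 70 (.step 0 71 61 (.step 8 67 1 (.step 0 72 73 (.step 0 72 73 (.step 0 75 63 (.step 1 68 97 (.step 0 77 69 (.step 1 69 128 (.step 1 74 107 (.step 0 49 80 (.step 2 76 3 (.step 0 62 82 (.step 0 83 55 (.step 6 77 1 e7_15))))))))))))))))))))))))))))))))))))))))))))))))))))))))))))

def e7_17 : Cert :=
  (.split [76,1,76] [76] e7_14 e7_16)

def e7_18 : Cert :=
  (.step 1 0 0 (.step 6 0 0 (.step 1 1 83 (.step 1 1 69 (.step 1 1 77 (.step 2 1 0 (.step 1 2 35 (.step 1 3 96 (.step 1 3 112 (.step 6 3 0 (.step 1 4 34 (.step 1 4 96 (.step 1 5 106 (.step 1 5 112 (.step 1 6 47 (.step 1 6 35 (.step 1 6 97 (.step 1 7 0 (.step 1 15 76 (.step 8 15 0 (.step 1 16 38 (.step 1 16 68 (.step 1 17 68 (.split [76] [76,1,76] e7_0 e7_17))))))))))))))))))))))))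

def e7_19 : Cert :=
  (.step 1 18 77 (.step 1 19 0 (.step 3 20 6 (.step 0 21 6 (.step 4 22 2 (.step 0 20 23 (.step 1 23 69 (.step 0 25 3 (.step 6 25 2 (.step 9 26 1 (.step 0 8 28 (.step 0 29 27 (.step 0 28 27 (.step 1 30 97 (.step 3 30 3 (.step 0 24 33 (.step 1 31 97 (.step 1 32 128 (.step 4 34 5 (.step 0 31 37 (.step 1 35 128 (.step 1 37 107 (.step 0 40 32 (.step 6 40 5 (.step 0 42 20 (.step 9 41 4 (.step 0 36 44 (.step 0 45 42 (.step 0 39 44 (.step 0 47 43 (.step 3 46 7 (.step 0 38 49 (.step 0 50 9 (.step 3 48 9 (.step 0 52 51 (.contra 53))))))))))))))))))))))))))))))))))))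

def e7_20 : Cert :=
  (.step 4 121 9 (.step 3 123 3 (.step 1 124 83 (.step 1 125 83 (.step 1 126 69 (.step 1 127 128 (.step 1 128 38 (.step 0 109 131 (.step 1 128 72 (.step 0 113 133 (.step 6 128 9 (.step 0 96 135 (.step 0 100 135 (.step 0 101 135 (.step 9 129 3 (.step 0 139 132 (.step 0 11 139 (.step 2 130 9 (.step 0 8 142 (.step 1 135 113 (.step 1 136 47 (.step 2 137 1 (.step 0 146 134 (.step 1 138 47 (.step 1 143 113 (.step 0 149 148 (.step 1 144 76 (.step 0 115 151 (.step 1 146 69 (.step 0 153 4 (.step 5 147 3 (.step 1 148 34 (.step 6 150 8 (.step 0 152 157 (.step 1 153 96 (.step 0 159 141 (.step 7 154 2 (.step 0 155 161 (.step 0 140 161 (.step 1 155 39 (.step 0 164 145 (.step 1 160 39 (.step 3 163 1 (.step 8 165 6 (.step 1 166 76 (.step 0 168 169 (.step 0 170 158 (.step 1 167 83 (.step 2 171 0 (.step 0 156 173 (.step 0 174 162 (.step 1 172 34 (.step 0 176 175 (.contra 177))))))))))))))))))))))))))))))))))))))))))))))))))))))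

def e7_21 : Cert :=
  (.step 0 64 38 (.step 0 64 44 (.step 0 61 64 (.step 0 67 38 (.step 0 12 64 (.step 0 69 46 (.step 3 64 5 (.step 1 65 107 (.step 0 52 72 (.step 5 66 7 (.step 5 68 7 (.step 0 75 54 (.step 5 70 7 (.step 1 71 73 (.step 1 72 128 (.step 9 73 7 (.step 0 79 80 (.step 0 81 54 (.step 0 80 55 (.step 0 80 54 (.step 1 74 129 (.step 1 76 129 (.step 1 77 129 (.step 1 78 38 (.step 9 78 5 (.step 0 89 38 (.step 0 89 88 (.step 1 82 129 (.step 1 83 129 (.step 1 84 129 (.step 1 85 76 (.step 1 86 112 (.step 1 87 76 (.step 1 90 107 (.step 1 92 112 (.step 0 43 99 (.step 0 41 99 (.step 1 93 72 (.step 1 94 38 (.step 1 94 72 (.step 1 94 76 (.step 3 95 7 (.step 3 97 7 (.step 1 98 38 (.step 0 108 103 (.step 1 98 72 (.step 0 110 102 (.step 0 2 110 (.step 0 112 104 (.step 1 98 76 (.step 0 114 105 (.step 1 98 128 (.step 0 116 83 (.step 3 111 4 (.step 0 118 106 (.step 3 113 4 (.step 0 120 107 (.step 3 117 4 (.step 0 122 91 (.step 4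 119 9 e7_20))))))))))))))))))))))))))))))))))))))))))))))))))))))))))))

def e7_22 : Cert :=
  (.step 1 83 73 (.step 2 83 4 (.step 1 84 82 (.step 0 86 70 (.step 1 84 76 (.step 1 84 106 (.step 1 84 128 (.step 0 70 90 (.step 2 87 9 (.step 0 85 92 (.step 1 90 73 (.step 2 90 4 (.step 2 91 9 (.step 0 95 96 (.step 5 93 7 (.step 0 98 88 (.step 6 94 4 (.step 1 95 39 (.step 5 97 7 (.step 1 98 77 (.step 1 99 73 (.step 5 99 5 (.step 0 89 105 (.step 1 101 72 (.step 0 78 107 (.step 1 102 73 (.step 7 103 7 (.step 0 82 110 (.step 0 111 106 (.step 9 104 5 (.step 1 109 106 (.step 0 100 114 (.step 0 115 113 (.step 5 112 2 (.step 0 117 108 (.step 1 116 39 (.step 11 118 3 (.step 0 120 119 (.contra 121)))))))))))))))))))))))))))))))))))))))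

def e7_23 : Cert :=
  (.step 2 97 1 (.step 1 98 69 (.step 1 99 82 (.step 1 99 96 (.step 8 99 1 (.step 0 80 102 (.step 0 103 101 (.step 1 100 69 (.step 0 75 105 (.step 0 106 4 (.step 1 105 96 (.step 0 104 108 (.step 0 109 11 (.step 9 107 3 (.step 0 111 110 (.contra 112))))))))))))))))

def e7_24 : Cert :=
  (.step 0 158 157 (.contra 159))

def e7_25 : Cert :=
  (.step 3 98 1 (.step 1 99 69 (.step 0 50 100 (.step 1 100 96 (.step 9 100 1 (.step 0 102 103 (.step 1 103 97 (.step 0 100 105 (.step 0 106 49 (.step 0 101 105 (.step 1 104 113 (.step 0 109 50 (.step 1 105 82 (.step 0 111 58 (.step 8 107 9 (.step 0 112 113 (.step 0 114 86 (.step 0 112 113 (.step 8 108 9 (.step 0 111 117 (.step 0 118 63 (.step 1 109 76 (.step 0 120 72 (.step 8 110 9 (.step 1 115 73 (.step 5 115 3 (.step 1 116 69 (.step 0 87 125 (.step 1 116 73 (.step 9 123 3 (.step 1 124 39 (.step 1 125 96 (.step 9 126 3 (.step 0 130 131 (.step 0 132 95 (.step 1 127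 128 (.step 0 134 96 (.step 1 128 39 (.step 7 129 3 (.step 0 137 119 (.step 3 133 5 (.step 0 94 139 (.step 1 136 128 (.step 0 141 135 (.step 3 140 7 (.step 1 143 113 (.step 1 144 128 (.step 0 122 145 (.step 9 144 7 (.step 0 146 147 (.step 0 142 147 (.step 0 149 121 (.step 1 148 77 (.step 1 151 112 (.step 0 45 152 (.step 1 153 39 (.step 1 154 72 (.step 0 150 155 (.step 0 156 138 (.step 1 154 128 e7_24))))))))))))))))))))))))))))))))))))))))))))))))))))))))))))

def e7_26 : Cert :=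
  (.step 2 98 1 (.step 1 99 69 (.step 1 100 82 (.step 1 100 96 (.step 8 100 1 (.step 0 80 103 (.step 0 104 102 (.step 1 101 69 (.step 0 75 106 (.step 0 107 4 (.step 1 106 96 (.step 0 105 109 (.step 0 110 11 (.step 9 108 3 (.step 0 112 111 (.contra 113))))))))))))))))

def e7_27 : Cert :=
  (.split [96,83,68] [34,83,68] e7_25 e7_26)

def e7_28 : Cert :=
  (.step 1 84 73 (.step 1 85 128 (.step 1 86 73 (.step 3 86 4 (.step 7 87 4 (.step 1 88 107 (.step 1 89 107 (.step 1 90 128 (.step 9 90 4 (.step 0 92 93 (.step 1 91 38 (.step 1 91 128 (.split [34,83,68] [96,83,68] e7_23 e7_27)))))))))))))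

def e7_29 : Cert :=
  (.step 1 83 73 (.step 3 83 4 (.step 1 84 73 (.step 2 84 4 (.step 1 85 96 (.step 0 89 86 (.step 1 85 106 (.step 0 91 88 (.step 1 87 82 (.step 0 93 70 (.step 1 87 96 (.step 0 92 95 (.step 1 87 106 (.step 0 90 97 (.step 1 87 112 (.step 1 87 128 (.step 2 94 9 (.step 0 92 101 (.step 0 102 99 (.step 1 96 39 (.step 1 98 39 (.step 1 100 77 (.step 5 103 7 (.step 0 100 107 (.step 1 104 72 (.step 0 78 109 (.step 1 106 112 (.step 0 82 111 (.step 1 107 77 (.step 5 108 5 (.step 7 113 7 (.step 0 112 115 (.step 0 116 114 (.step 1 114 39 (.step 0 105 118 (.step 5 117 2 (.step 0 120 110 (.step 7 119 3 (.step 0 122 121 (.contra 123))))))))))))))))))))))))))))))))))))))))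

def e7_30 : Cert :=
  (.split [72] [72,129,72] e7_28 e7_29)

def e7_31 : Cert :=
  (.step 0 65 37 (.step 2 65 5 (.step 0 67 36 (.step 0 2 67 (.step 0 69 36 (.step 0 57 67 (.step 0 71 59 (.step 1 66 39 (.step 1 67 73 (.step 0 74 27 (.step 1 68 77 (.step 1 73 72 (.step 0 67 77 (.step 1 74 38 (.step 0 79 39 (.step 1 76 112 (.step 0 43 81 (.split [72,129,72] [72] e7_22 e7_30))))))))))))))))))

def e7_32 : Cert :=
  (.step 0 65 38 (.step 0 65 44 (.step 2 64 5 (.step 3 65 5 (.step 1 66 107 (.step 0 52 70 (.step 5 67 7 (.step 0 72 68 (.step 0 62 72 (.step 1 68 73 (.step 1 70 128 (.step 0 62 76 (.step 9 71 7 (.step 0 77 78 (.step 0 79 54 (.step 3 73 4 (.step 0 81 66 (.step 0 81 65 (.step 1 75 38 (.step 0 84 38 (.step 1 75 68 (.step 1 82 97 (.step 0 53 87 (.step 0 88 14 (.step 3 83 3 (.step 0 86 90 (.step 0 91 69 (.step 8 89 9 (.step 0 93 74 (.step 0 93 80 (.step 1 92 69 (.step 1 95 83 (.step 9 96 3 (.step 0 98 85 (.step 1 97 34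 (.step 1 99 97 (.step 2 100 1 (.step 0 17 102 (.step 0 103 94 (.step 1 101 68 (.step 0 105 104 (.contra 106))))))))))))))))))))))))))))))))))))))))))

def e7_33 : Cert :=
  (.split [38,77,0] [106,77,0] e7_31 e7_32)

def e7_34 : Cert :=
  (.step 1 19 77 (.step 1 20 0 (.step 0 2 21 (.step 0 16 21 (.step 0 23 15 (.step 1 21 83 (.step 0 3 25 (.step 1 21 77 (.step 0 27 3 (.step 0 5 27 (.step 4 22 8 (.step 4 24 8 (.step 1 25 46 (.step 0 10 32 (.step 8 26 8 (.step 0 33 34 (.step 1 27 72 (.step 1 27 106 (.step 6 27 6 (.step 0 38 6 (.step 0 38 7 (.step 8 28 8 (.step 0 7 41 (.step 0 10 41 (.step 0 40 41 (.step 8 29 8 (.step 0 38 45 (.step 1 30 113 (.step 1 31 113 (.step 1 35 97 (.step 1 35 113 (.step 1 38 39 (.step 1 42 113 (.step 1 43 113 (.step 6 47 8 (.step 0 54 2 (.step 6 48 8 (.step 0 56 16 (.step 1 49 82 (.step 1 51 72 (.step 1 51 128 (.step 1 52 106 (.step 1 53 128 (.step 0 62 60 (.split [106,77,0] [38,77,0] e7_21 e7_33)))))))))))))))))))))))))))))))))))))))))))))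

def e7_35 : Cert :=
  (.step 0 78 79 (.step 4 73 5 (.step 0 54 81 (.step 0 82 50 (.step 1 83 107 (.step 0 84 42 (.step 0 84 70 (.step 6 85 5 (.step 0 87 80 (.step 9 86 4 (.step 0 89 88 (.contra 90))))))))))))

def e7_36 : Cert :=
  (.step 1 18 77 (.step 2 18 6 (.step 1 19 77 (.step 3 19 6 (.step 1 20 0 (.step 1 20 46 (.step 0 25 21 (.step 1 20 38 (.step 0 27 23 (.step 1 22 0 (.step 0 19 29 (.step 1 22 46 (.step 0 28 31 (.step 0 28 31 (.step 0 33 6 (.step 1 22 38 (.step 0 26 35 (.step 1 24 83 (.step 0 3 37 (.step 1 24 77 (.step 1 26 39 (.step 1 29 77 (.step 1 32 39 (.step 4 34 2 (.step 0 2 43 (.step 0 30 43 (.step 1 37 46 (.step 0 10 46 (.step 8 38 8 (.step 0 47 48 (.step 1 39 106 (.step 1 40 76 (.step 0 51 45 (.step 1 41 38 (.step 0 36 53 (.step 1 41 72 (.step 1 43 69 (.step 0 56 3 (.step 5 44 1 (.step 1 49 97 (.step 6 56 2 (.step 0 60 32 (.step 9 57 1 (.step 0 8 62 (.step 0 63 61 (.step 0 8 62 (.step 0 65 60 (.step 1 58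 97 (.step 0 67 59 (.step 1 59 82 (.step 1 64 97 (.step 3 66 3 (.step 0 43 71 (.step 0 72 55 (.step 7 67 1 (.step 0 52 74 (.step 0 75 69 (.step 8 68 9 (.step 0 76 77 (.step 1 70 128 e7_35))))))))))))))))))))))))))))))))))))))))))))))))))))))))))))

def e7_37 : Cert :=
  (.split [76] [76,1,76] e7_34 e7_36)

def e7_38 : Cert :=
  (.step 1 1 0 (.step 1 2 83 (.step 1 2 69 (.step 1 2 77 (.step 3 2 0 (.step 1 3 46 (.step 1 3 96 (.step 1 3 112 (.step 7 3 0 (.step 1 4 96 (.step 1 5 106 (.step 1 6 47 (.step 1 6 97 (.step 1 13 76 (.step 9 13 0 (.step 1 14 68 (.split [76,1,76] [76] e7_19 e7_37)))))))))))))))))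

def e7_39 : Cert :=
  (.step 0 31 38 (.step 0 39 15 (.step 0 31 38 (.step 0 41 16 (.step 3 38 6 (.step 0 30 43 (.step 0 44 18 (.step 1 40 77 (.step 5 42 8 (.step 4 45 2 (.step 0 40 48 (.step 7 46 6 (.step 0 47 50 (.step 1 48 69 (.step 0 52 13 (.step 1 48 73 (.step 6 52 2 (.step 9 53 1 (.step 0 32 56 (.step 0 57 55 (.step 1 54 106 (.step 1 58 97 (.step 3 58 3 (.step 0 49 61 (.step 1 60 128 (.step 1 61 73 (.step 0 54 64 (.step 0 65 46 (.step 4 62 5 (.step 1 64 106 (.step 0 59 68 (.step 8 66 5 (.step 0 51 70 (.step 0 71 69 (.step 1 67 107 (.step 0 73 60 (.step 4 72 7 (.step 0 75 63 (.step 6 73 5 (.step 0 77 76 (.step 9 74 4 (.step 0 79 78 (.contra 80)))))))))))))))))))))))))))))))))))))))))))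

def e7_40 : Cert :=
  (.step 0 98 62 (.step 0 96 97 (.step 0 100 63 (.step 0 96 97 (.step 0 102 64 (.step 1 91 107 (.step 0 104 82 (.step 4 92 4 (.step 1 94 107 (.step 0 72 107 (.step 1 99 107 (.step 5 103 7 (.step 7 104 5 (.step 0 40 111 (.step 0 112 87 (.step 0 43 111 (.step 0 114 87 (.step 0 111 87 (.step 8 105 4 (.step 0 113 117 (.step 0 118 33 (.step 0 115 117 (.step 0 116 117 (.step 9 108 7 (.step 0 122 74 (.step 0 122 73 (.step 1 109 128 (.step 0 121 125 (.step 0 126 123 (.step 0 125 124 (.step 2 119 9 (.step 0 80 129 (.step 0 130 22 (.step 0 32 129 (.step 0 132 22 (.step 2 121 7 (.step 0 131 134 (.step 0 135 101 (.step 0 131 134 (.step 0 133 134 (.step 0 138 101 (.step 0 133 134 (.step 0 140 91 (.step 0 134 99 (.step 4 136 2 (.step 2 137 5 (.step 0 110 144 (.zero [(2,6),(71,139),(143,56),(78,141),(106,145),(137,91),(40,127),(121,110),(53,142),(120,128)]))))))))))))))))))))))))))))))))))))))))))))))))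

def e7_41 : Cert :=
  (.step 0 26 38 (.step 0 39 21 (.step 0 26 38 (.step 0 27 38 (.step 0 42 21 (.step 0 28 38 (.step 0 44 21 (.step 2 38 6 (.step 0 29 46 (.step 0 47 35 (.step 1 40 77 (.step 0 49 13 (.step 4 41 8 (.step 0 29 51 (.step 0 52 22 (.step 5 48 2 (.step 0 37 54 (.step 0 55 25 (.step 0 37 54 (.step 0 57 24 (.step 0 37 54 (.step 0 59 45 (.step 1 49 72 (.step 6 49 6 (.step 0 62 8 (.step 0 62 53 (.step 8 50 8 (.step 0 29 65 (.step 1 53 113 (.step 1 56 69 (.step 0 68 11 (.step 1 56 73 (.step 4 58 1 (.step 1 66 113 (.step 6 67 8 (.step 0 73 6 (.step 7 68 2 (.step 0 75 23 (.step 8 69 1 (.step 0 76 77 (.step 0 76 77 (.step 0 79 32 (.step 1 70 106 (.step 1 78 107 (.step 2 78 3 (.step 0 83 60 (.step 0 61 83 (.step 0 85 56 (.step 1 82 72 (.step 1 83 73 (.step 0 49 88 (.step 0 89 70 (.step 5 84 5 (.step 0 91 78 (.step 5 86 5 (.step 0 93 62 (.step 1 88 106 (.step 0 95 81 (.step 9 90 5 (.step 0 96 97 e7_40))))))))))))))))))))))))))))))))))))))))))))))))))))))))))))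

def e7_42 : Cert :=
  (.step 1 1 0 (.step 1 1 38 (.step 1 1 68 (.step 6 1 0 (.step 1 0 0 (.step 1 0 34 (.step 0 5 7 (.step 7 0 0 (.step 1 2 83 (.step 1 2 69 (.step 1 5 35 (.step 1 6 83 (.step 1 9 35 (.step 1 10 0 (.step 0 15 2 (.step 1 10 46 (.step 0 17 8 (.step 1 10 38 (.step 0 19 3 (.step 1 10 76 (.step 1 10 112 (.step 1 11 34 (.step 1 12 0 (.step 0 24 6 (.step 1 13 0 (.step 0 6 26 (.step 0 25 26 (.step 1 13 46 (.step 1 13 38 (.step 1 13 76 (.step 1 13 96 (.step 1 13 128 (.step 1 14 38 (.step 0 20 34 (.step 1 14 68 (.step 0 4 36 (.split [76,83,0] [0,83,0] e7_39 e7_41)))))))))))))))))))))))))))))))))))))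

def e7_43 : Cert :=
  (.split [1,82] [] e7_38 e7_42)

def e7_44 : Cert :=
  (.split [] [1,82] e7_18 e7_43)

/-- The word has a certificate. -/
theorem e7_check : check (boxes (Chain.nat (k := 3) [0, 1, 0, 1, 2, 1, 0, 2, 1, 2])) e7_44 .lf 0 = true := by
  decide +kernel

end Pool.Agent.K7.H46.LO
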