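import Pool.Agent.K7.H46.LO.Main

set_option autoImplicit false

/-!
# The certificate for the word [0, 1, 0, 1, 2, 1, 0, 2, 1, 2, 1]
-/

namespace Pool.Agent.K7.H46.LO

def e8_0 : Cert :=
  (.step 9 209 2 (.step 0 206 213 (.step 0 214 133 (.step 1 212 77 (.step 3 215 6 (.step 0 110 217 (.step 1 216 46 (.step 0 219 218 (.contra 220)))))))))

def e8_1 : Cert :=
  (.step 3 150 2 (.step 1 152 39 (.step 1 154 0 (.step 1 154 34 (.step 0 156 147 (.step 1 154 76 (.step 3 155 6 (.step 0 104 159 (.step 3 158 6 (.step 0 153 161 (.step 1 160 47 (.step 0 11 163 (.step 4 162 0 (.step 1 163 112 (.step 1 163 128 (.step 0 130 167 (.step 9 163 8 (.step 0 166 169 (.step 1 165 65 (.step 1 169 113 (.step 0 164 172 (.step 1 170 47 (.step 1 170 117 (.step 0 62 175 (.step 1 171 0 (.step 6 171 0 (.step 0 27 178 (.step 0 179 157 (.step 1 172 128 (.step 0 168 181 (.step 0 167 181 (.step 9 173 9 (.step 0 182 184 (.step 0 185 19 (.step 0 183 184 (.step 0 187 19 (.step 0 183 184 (.step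 7 174 8 (.step 2 177 0 (.step 0 28 191 (.step 0 192 24 (.step 1 180 117 (.step 0 176 194 (.step 1 186 69 (.step 1 188 69 (.step 0 136 197 (.step 1 193 35 (.step 1 194 46 (.step 8 195 10 (.step 0 200 201 (.step 0 202 64 (.step 8 196 1 (.step 6 199 1 (.step 0 188 205 (.step 1 203 47 (.step 1 204 35 (.step 0 198 208 (.step 1 207 82 (.step 0 189 210 (.step 0 211 190 e8_0))))))))))))))))))))))))))))))))))))))))))))))))))))))))))))

def e8_2 : Cert :=
  (.step 1 81 73 (.step 1 84 73 (.step 4 87 4 (.step 1 90 73 (.step 0 80 96 (.step 6 93 4 (.step 0 2 98 (.step 0 99 63 (.step 0 2 98 (.step 0 98 63 (.step 9 94 5 (.step 0 100 103 (.step 0 102 103 (.step 0 103 70 (.step 0 103 66 (.step 1 95 73 (.step 9 97 5 (.step 0 101 109 (.step 0 98 109 (.step 1 105 39 (.step 6 108 4 (.step 0 76 113 (.step 0 114 103 (.step 0 77 113 (.step 0 116 103 (.step 0 113 106 (.step 0 75 113 (.step 0 119 107 (.step 1 111 39 (.step 3 117 3 (.step 0 122 84 (.step 0 122 91 (.step 3 118 3 (.step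 0 72 125 (.step 0 126 95 (.step 3 120 3 (.step 0 39 128 (.step 0 129 92 (.step 0 40 128 (.step 0 131 92 (.step 1 121 0 (.step 1 123 69 (.step 1 124 69 (.step 0 112 135 (.step 1 127 69 (.step 1 132 69 (.step 0 51 138 (.step 1 134 38 (.step 0 115 140 (.step 1 135 34 (.step 8 137 1 (.step 0 143 141 (.step 0 143 115 (.step 8 139 1 (.step 0 142 146 (.step 5 144 2 (.step 1 148 1 (.step 1 149 68 (.step 7 149 2 (.step 0 151 145 e8_1))))))))))))))))))))))))))))))))))))))))))))))))))))))))))))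

def e8_3 : Cert :=
  (.step 0 7 32 (.step 1 32 113 (.step 0 0 34 (.step 1 33 117 (.step 5 33 9 (.step 1 34 68 (.step 0 3 38 (.step 0 25 38 (.step 1 34 116 (.step 0 5 41 (.step 0 26 41 (.step 1 34 106 (.step 0 6 44 (.step 7 34 8 (.step 0 4 46 (.step 9 35 9 (.step 0 48 47 (.step 9 36 9 (.step 1 37 65 (.step 1 37 73 (.step 1 37 77 (.step 1 37 83 (.step 1 37 129 (.step 1 47 77 (.step 0 53 56 (.step 1 48 129 (.step 3 49 7 (.step 0 45 59 (.step 0 59 42 (.step 1 50 83 (.step 1 52 106 (.step 7 54 9 (.step 1 55 82 (.step 1 56 38 (.step 1 56 72 (.step 1 56 116 (.step 1 58 38 (.step 0 66 69 (.step 1 58 68 (.step 0 40 71 (.step 1 58 76 (.step 0 47 73 (.step 1 58 116 (.step 0 43 75 (.step 0 68 75 (.step 1 59 107 (.step 0 35 78 (.step 0 57 78 (.step 4 60 4 (.step 4 61 4 (.step 0 67 82 (.step 0 83 48 (.step 3 65 9 (.step 3 74 7 (.step 0 86 85 (.step 1 78 72 (.step 0 67 88 (.step 8 79 4 (.step 0 89 90 (.step 0 88 90 e8_2))))))))))))))))))))))))))))))))))))))))))))))))))))))))))))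

def e8_4 : Cert :=
  (.step 3 44 6 (.step 1 45 47 (.step 1 46 76 (.step 0 36 47 (.step 0 48 44 (.step 0 38 47 (.step 0 50 44 (.step 0 38 47 (.step 9 46 6 (.step 0 52 53 (.step 3 54 0 (.step 1 55 35 (.step 0 56 46 (.step 1 56 64 (.step 0 58 51 (.step 8 57 2 (.step 0 49 60 (.step 0 59 60 (.step 11 61 1 (.step 5 62 1 (.step 1 63 116 (.step 0 65 64 (.contra 66)))))))))))))))))))))))

def e8_5 : Cert :=
  (.step 2 169 8 (.step 1 172 117 (.step 2 174 3 (.step 0 29 177 (.step 0 178 160 (.step 0 177 160 (.step 1 175 73 (.step 0 105 181 (.step 1 175 77 (.step 0 119 183 (.step 1 176 72 (.step 0 185 180 (.step 1 181 106 (.step 0 121 187 (.step 9 182 5 (.step 0 188 189 (.step 1 183 0 (.step 0 179 191 (.step 0 186 191 (.step 8 183 8 (.step 0 194 89 (.step 6 184 6 (.step 0 196 195 (.step 1 190 117 (.step 1 192 73 (.step 0 184 199 (.step 1 193 73 (.step 1 198 106 (.step 0 197 202 (.step 9 200 5 (.step 0 204 203 (.step 1 201 106 (.step 0 206 205 (.contra 207))))))))))))))))))))))))))))))))))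

def e8_6 : Cert :=
  (.step 0 112 113 (.step 1 107 73 (.step 1 108 39 (.step 1 114 39 (.step 0 51 118 (.step 4 115 6 (.step 6 116 4 (.step 7 117 5 (.step 0 49 122 (.step 0 123 101 (.step 0 50 122 (.step 0 125 101 (.step 0 48 122 (.step 0 127 102 (.step 0 45 122 (.step 0 129 100 (.step 1 118 0 (.step 1 120 1 (.step 1 124 1 (.step 1 126 1 (.step 2 126 0 (.step 0 28 135 (.step 0 136 24 (.step 0 135 24 (.step 0 135 31 (.step 2 128 0 (.step 1 132 76 (.step 1 133 38 (.step 1 134 38 (.step 1 134 64 (.step 1 137 35 (.step 1 138 35 (.step 2 139 1 (.step 1 140 35 (.step 0 47 148 (.step 2 141 6 (.step 2 144 0 (.step 0 151 150 (.step 6 145 1 (.step 1 146 68 (.step 1 147 69 (.step 9 149 2 (.step 0 153 156 (.step 0 157 130 (.step 0 154 156 (.step 0 159 131 (.step 5 152 2 (.step 8 155 1 (.step 1 158 65 (.step 0 65 163 (.step 1 161 69 (.step 1 163 46 (.step 8 164 10 (.step 0 166 167 (.step 0 168 76 (.step 7 165 2 (.step 0 142 170 (.step 0 171 162 (.step 0 143 170 (.step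 0 173 162 e8_5))))))))))))))))))))))))))))))))))))))))))))))))))))))))))))

def e8_7 : Cert :=
  (.step 3 54 9 (.step 1 55 113 (.step 1 56 82 (.step 0 57 8 (.step 1 56 116 (.step 9 56 9 (.step 0 60 57 (.step 0 60 58 (.step 1 59 113 (.step 1 60 83 (.step 0 64 56 (.step 1 61 73 (.step 1 61 129 (.step 1 63 82 (.step 0 68 42 (.step 0 61 68 (.step 0 70 42 (.step 1 63 116 (.step 1 63 106 (.step 9 63 9 (.step 0 74 69 (.step 1 64 116 (.step 1 66 106 (.step 1 67 82 (.step 1 69 77 (.step 1 74 129 (.step 0 79 80 (.step 3 75 7 (.step 0 73 82 (.step 0 82 72 (.step 3 78 9 (.step 1 79 72 (.step 1 80 76 (.step 0 69 87 (.step 7 81 7 (.step 1 82 107 (.step 0 63 90 (.step 4 83 4 (.step 4 84 4 (.step 0 86 93 (.step 0 94 74 (.step 3 88 7 (.step 0 96 85 (.step 1 90 76 (.step 0 71 98 (.step 8 91 4 (.step 0 100 61 (.step 0 100 62 (.step 0 100 99 (.step 1 92 73 (.step 0 104 66 (.step 1 95 73 (.step 4 97 4 (.step 5 103 5 (.step 6 104 4 (.step 0 109 77 (.step 0 43 109 (.step 0 111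 77 (.step 9 106 5 (.step 0 110 113 e8_6))))))))))))))))))))))))))))))))))))))))))))))))))))))))))))

def e8_8 : Cert :=
  (.step 1 106 77 (.step 2 106 7 (.step 0 100 108 (.step 1 107 72 (.step 1 107 116 (.step 5 109 4 (.step 0 13 112 (.step 0 113 110 (.step 1 112 73 (.step 0 115 107 (.step 7 115 4 (.step 0 117 91 (.step 0 117 111 (.step 8 116 5 (.step 0 120 118 (.step 0 120 119 (.step 2 122 3 (.step 0 114 123 (.step 0 124 96 (.step 0 114 123 (.step 1 125 69 (.step 5 125 1 (.step 1 126 69 (.step 9 127 1 (.step 0 121 130 (.step 1 128 35 (.step 0 9 132 (.step 1 129 38 (.step 0 134 131 (.step 1 130 35 (.step 9 133 0 (.step 0 137 17 (.step 4 135 2 (.step 0 139 138 (.step 1 136 0 (.step 0 141 140 (.contra 142)))))))))))))))))))))))))))))))))))))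

def e8_9 : Cert :=
  (.step 0 122 72 (.step 1 122 69 (.step 1 122 77 (.step 0 125 78 (.step 2 122 0 (.step 0 127 2 (.step 2 123 6 (.step 0 127 129 (.step 1 124 34 (.step 6 126 6 (.step 0 132 111 (.step 2 128 1 (.step 5 130 2 (.step 1 134 69 (.step 1 135 69 (.step 1 135 73 (.step 8 136 1 (.step 0 131 139 (.step 7 137 2 (.step 0 141 140 (.step 1 138 106 (.step 2 142 3 (.step 1 144 73 (.step 0 126 145 (.step 0 146 138 (.step 1 145 106 (.step 0 133 148 (.step 0 149 143 (.step 9 147 5 (.step 0 151 150 (.contra 152)))))))))))))))))))))))))))))))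

def e8_10 : Cert :=
  (.step 1 137 82 (.step 9 137 10 (.step 0 87 139 (.step 1 140 47 (.step 1 141 82 (.step 0 75 142 (.step 0 143 138 (.step 1 144 73 (.step 2 144 7 (.step 0 62 146 (.step 1 145 106 (.step 5 147 4 (.step 0 66 149 (.step 1 149 73 (.step 0 145 151 (.step 7 151 4 (.step 0 148 153 (.step 8 152 5 (.step 0 155 154 (.step 1 156 35 (.step 2 156 3 (.step 0 150 158 (.step 1 157 68 (.step 5 159 1 (.step 1 161 35 (.step 0 157 162 (.step 7 162 1 (.step 0 160 164 (.step 0 165 123 (.step 8 163 2 (.step 0 167 166 (.contra 168))))))))))))))))))))))))))))))))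

def e8_11 : Cert :=
  (.step 0 171 124 (.step 1 171 34 (.step 0 173 128 (.step 6 171 2 (.step 9 172 1 (.step 0 127 176 (.step 0 177 173 (.step 0 127 176 (.step 0 179 175 (.step 0 176 173 (.step 0 176 174 (.step 1 178 117 (.step 1 180 39 (.step 1 181 117 (.step 3 182 10 (.step 0 186 157 (.step 0 136 186 (.step 0 188 158 (.step 1 183 128 (.step 0 141 190 (.step 7 183 1 (.step 7 184 3 (.step 0 53 193 (.step 0 194 192 (.step 1 185 82 (.step 0 136 196 (.step 1 186 83 (.step 0 163 198 (.step 4 187 8 (.step 0 128 200 (.step 4 189 8 (.step 1 198 46 (.step 0 128 203 (.step 0 204 169 (.step 0 128 203 (.step 8 199 8 (.step 0 206 207 (.step 1 201 113 (.step 0 209 185 (.step 1 202 113 (.step 1 205 117 (.step 1 208 113 (.step 8 210 9 (.step 0 197 214 (.step 6 211 8 (.step 0 216 215 (.step 1 212 64 (.step 0 195 218 (.step 0 219 191 (.step 1 213 72 (.step 0 221 220 (.step 2 217 7 (.step 1 223 107 (.step 0 224 210 (.step 1 224 72 (.step 0 226 222 (.step 9 225 4 (.step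 0 228 227 (.contra 229)))))))))))))))))))))))))))))))))))))))))))))))))))))))))))

def e8_12 : Cert :=
  (.step 1 279 46 (.step 0 278 280 (.step 0 281 98 (.step 0 280 98 (.step 1 279 116 (.step 9 279 10 (.step 0 284 285 (.step 0 286 283 (.step 1 282 107 (.step 1 287 117 (.step 1 289 64 (.step 0 290 141 (.step 0 290 230 (.step 2 291 7 (.step 1 293 107 (.step 0 288 294 (.step 0 288 294 (.step 0 296 217 (.step 6 295 5 (.step 0 298 292 (.step 9 297 4 (.step 0 300 299 (.contra 301)))))))))))))))))))))))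

def e8_13 : Cert :=
  (.step 0 208 300 (.step 2 300 5 (.step 1 301 107 (.step 1 302 77 (.step 0 303 304 (.step 1 303 72 (.step 1 304 72 (.step 0 307 294 (.step 1 304 106 (.step 1 304 128 (.step 8 304 5 (.step 0 311 309 (.step 9 305 4 (.step 0 313 306 (.step 0 310 313 (.step 0 315 233 (.step 1 307 65 (.step 5 308 1 (.step 0 287 318 (.step 1 311 107 (.step 1 312 113 (.step 3 314 7 (.step 1 317 116 (.step 0 287 323 (.step 0 324 269 (.step 5 319 0 (.step 1 320 128 (.step 0 327 316 (.step 1 322 113 (.step 0 321 329 (.step 0 330 155 (.step 0 321 329 (.step 0 332 217 (.step 1 326 1 (.step 3 328 7 (.step 6 331 8 (.step 8 333 9 (.step 7 334 0 (.step 0 170 338 (.step 0 339 325 (.step 1 335 113 (.step 1 340 35 (.step 1 341 128 (.step 0 337 343 (.step 9 341 7 (.step 0 344 345 (.step 0 346 336 (.step 1 342 82 (.step 0 348 347 (.contra 349))))))))))))))))))))))))))))))))))))))))))))))))))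

def e8_14 : Cert :=
  (.step 0 83 364 (.step 0 365 358 (.step 2 364 3 (.step 0 86 367 (.step 0 368 357 (.step 0 86 367 (.step 0 370 361 (.step 1 366 117 (.step 2 369 2 (.step 0 312 373 (.step 1 372 0 (.step 0 322 375 (.step 0 376 371 (.step 1 372 34 (.step 0 269 378 (.step 5 374 0 (.step 5 377 1 (.step 0 363 381 (.step 0 382 329 (.step 1 380 65 (.step 7 384 0 (.step 0 383 385 (.step 0 379 385 (.step 0 387 317 (.step 1 386 47 (.step 0 94 389 (.step 1 388 117 (.step 0 391 390 (.contra 392)))))))))))))))))))))))))))))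

def e8_15 : Cert :=
  (.step 1 374 0 (.step 0 276 375 (.step 1 374 34 (.step 0 268 377 (.step 1 374 68 (.step 1 376 65 (.step 2 379 2 (.step 0 367 381 (.step 0 312 381 (.step 1 380 116 (.step 0 352 384 (.step 0 385 269 (.step 1 382 35 (.step 5 383 0 (.step 1 386 35 (.step 0 389 292 (.step 1 387 0 (.step 1 388 65 (.step 9 390 0 (.step 0 103 393 (.step 0 394 391 (.step 7 392 0 (.step 0 378 396 (.step 0 397 317 (.step 1 395 65 (.step 1 398 117 (.step 0 400 399 (.contra 401))))))))))))))))))))))))))))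

def e8_16 : Cert :=
  (.step 1 408 0 (.step 0 403 409 (.step 0 410 355 (.step 5 411 1 (.step 0 283 412 (.step 0 413 392 (.step 0 283 412 (.step 0 415 281 (.step 11 414 0 (.step 5 416 0 (.step 1 417 0 (.step 0 419 418 (.contra 420)))))))))))))

def e8_17 : Cert :=
  (.step 1 409 68 (.step 0 407 410 (.step 0 411 401 (.step 0 404 410 (.step 0 413 401 (.step 1 412 73 (.step 1 414 73 (.step 1 415 112 (.step 0 417 249 (.step 1 416 76 (.step 0 397 419 (.step 0 420 247 (.step 1 418 107 (.step 1 421 83 (.step 8 422 4 (.step 0 228 424 (.step 0 425 395 (.step 1 423 0 (.step 0 427 426 (.contra 428))))))))))))))))))))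

def e8_18 : Cert :=
  (.step 1 409 0 (.step 0 403 410 (.step 0 411 355 (.step 5 412 1 (.step 0 283 413 (.step 0 414 392 (.step 0 283 413 (.step 0 416 281 (.step 11 415 0 (.step 5 417 0 (.step 1 418 0 (.step 0 420 419 (.contra 421)))))))))))))

def e8_19 : Cert :=
  (.split [117,112] [35,112] e8_17 e8_18)

def e8_20 : Cert :=
  (.step 1 375 82 (.step 0 342 376 (.step 0 377 243 (.step 0 344 376 (.step 0 379 243 (.step 1 375 116 (.step 0 359 381 (.step 0 382 220 (.step 1 383 47 (.step 0 292 384 (.step 1 383 35 (.step 0 386 291 (.step 1 383 39 (.step 0 388 57 (.step 1 384 34 (.step 0 102 390 (.step 0 391 170 (.step 6 385 10 (.step 0 378 393 (.step 0 394 274 (.step 0 260 393 (.step 0 396 373 (.step 0 380 393 (.step 0 398 373 (.step 1 386 68 (.step 0 400 190 (.step 9 387 0 (.step 0 103 402 (.step 7 389 3 (.step 1 399 77 (.step 1 405 72 (.step 0 406 404 (.split [35,112] [117,112] e8_16 e8_19)))))))))))))))))))))))))))))))))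

def e8_21 : Cert :=
  (.step 0 374 266 (.step 1 374 116 (.step 0 359 377 (.step 0 378 220 (.step 7 376 0 (.step 0 380 317 (.step 1 375 0 (.step 0 276 382 (.step 1 375 34 (.step 0 268 384 (.step 0 385 381 (.step 1 379 47 (.step 0 94 387 (.step 1 383 65 (.step 0 388 389 (.step 1 386 117 (.step 0 391 390 (.contra 392))))))))))))))))))

def e8_22 : Cert :=
  (.split [1,72] [69,72] e8_20 e8_21)

def e8_23 : Cert :=
  (.step 0 87 365 (.step 0 366 356 (.step 0 87 365 (.step 0 368 350 (.step 1 369 39 (.step 0 370 94 (.step 8 371 6 (.step 0 297 372 (.split [69,72] [1,72] e8_15 e8_22)))))))))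

def e8_24 : Cert :=
  (.step 0 83 365 (.step 0 366 358 (.step 0 87 364 (.step 0 368 356 (.step 0 87 364 (.step 0 370 360 (.step 2 365 3 (.step 0 86 372 (.step 0 373 357 (.step 0 327 372 (.step 0 375 361 (.step 1 367 117 (.step 2 374 2 (.step 0 369 378 (.step 0 312 378 (.step 2 376 2 (.step 0 371 381 (.step 1 377 34 (.step 0 269 383 (.step 1 379 35 (.step 5 380 0 (.step 1 382 35 (.step 0 387 345 (.step 1 385 0 (.step 1 386 65 (.step 9 388 0 (.step 0 103 391 (.step 0 392 389 (.step 7 390 0 (.step 0 384 394 (.step 0 395 317 (.step 1 393 65 (.step 1 396 117 (.step 0 398 397 (.contra 399)))))))))))))))))))))))))))))))))))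

def e8_25 : Cert :=
  (.split [116,83,128] [38,83,128] e8_23 e8_24)

def e8_26 : Cert :=
  (.step 0 332 113 (.step 1 332 76 (.step 1 332 112 (.step 9 332 7 (.step 0 336 334 (.step 6 333 8 (.step 0 336 338 (.step 0 339 323 (.step 0 336 338 (.step 0 341 330 (.step 0 336 338 (.step 0 338 330 (.step 1 335 47 (.step 1 337 83 (.step 1 340 83 (.step 1 342 83 (.step 1 343 83 (.step 1 346 38 (.step 1 347 116 (.step 0 87 351 (.step 1 348 0 (.step 0 80 353 (.step 0 354 299 (.step 1 348 38 (.step 1 348 68 (.step 1 348 116 (.step 0 87 358 (.step 1 349 38 (.step 1 349 68 (.step 1 349 116 (.step 0 87 362 (.split [38,83,128] [116,83,128] e8_14 e8_25))))))))))))))))))))))))))))))))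

def e8_27 : Cert :=
  (.split [113,106] [] e8_26 (.step 1 332 76 (.step 0 304 333 (.step 1 332 112 (.step 0 62 335 (.step 8 332 7 (.step 0 334 337 (.step 5 336 4 (.step 0 339 338 (.contra 340))))))))))

def e8_28 : Cert :=
  (.step 3 301 5 (.step 1 302 77 (.step 1 303 72 (.step 0 304 252 (.step 1 303 106 (.step 9 303 5 (.step 0 306 307 (.step 1 304 65 (.step 1 304 77 (.step 0 310 237 (.step 2 305 6 (.step 1 308 47 (.step 1 308 39 (.step 0 314 113 (.step 1 309 46 (.step 0 316 283 (.step 9 310 5 (.step 6 311 6 (.step 0 318 319 (.step 1 313 64 (.step 0 321 275 (.step 1 313 82 (.step 7 314 5 (.step 0 324 86 (.step 8 315 6 (.step 0 326 325 (.step 1 320 47 (.step 1 328 34 (.step 1 328 82 (.split [] [113,106] (.step 1 331 76 (.step 0 304 332 (.step 1 331 112 (.step 0 62 334 (.step 8 331 7 (.step 0 333 336 (.step 5 335 4 (.step 0 338 337 (.contra 339))))))))) e8_27))))))))))))))))))))))))))))))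

def e8_29 : Cert :=
  (.step 0 208 301 (.step 2 301 5 (.step 1 302 107 (.step 3 300 5 (.step 1 303 77 (.step 0 304 306 (.step 1 304 72 (.step 1 305 77 (.step 1 306 38 (.step 0 300 310 (.step 1 306 72 (.step 0 312 294 (.step 1 306 106 (.step 8 306 5 (.step 0 315 314 (.step 9 307 4 (.step 0 317 308 (.step 1 309 106 (.step 0 319 311 (.step 1 312 65 (.step 5 313 1 (.step 0 287 322 (.step 1 316 117 (.step 1 318 77 (.step 3 318 7 (.step 1 321 116 (.step 0 287 327 (.step 0 328 269 (.step 5 323 0 (.step 1 324 34 (.step 0 329 331 (.step 7 325 7 (.step 0 148 333 (.step 0 334 320 (.step 1 326 117 (.step 1 330 1 (.step 1 335 47 (.step 1 336 34 (.step 0 332 339 (.step 7 337 0 (.step 0 170 341 (.step 0 342 340 (.step 1 338 34 (.step 0 344 343 (.contra 345)))))))))))))))))))))))))))))))))))))))))))))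

def e8_30 : Cert :=
  (.split [106,73,76] [38,73,76] e8_28 e8_29)

def e8_31 : Cert :=
  (.step 1 280 34 (.step 1 280 116 (.step 8 280 10 (.step 0 278 283 (.step 0 284 282 (.step 0 278 283 (.step 0 283 282 (.step 1 285 117 (.step 1 286 117 (.step 0 240 289 (.step 0 290 94 (.step 0 289 94 (.step 1 288 68 (.step 0 231 293 (.step 1 289 0 (.step 0 275 295 (.step 0 296 101 (.step 1 289 68 (.step 0 231 298 (.split [38,73,76] [106,73,76] e8_13 e8_30))))))))))))))))))))

def e8_32 : Cert :=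
  (.step 1 280 46 (.step 0 278 281 (.step 0 282 98 (.step 0 281 98 (.step 1 280 116 (.step 9 280 10 (.step 0 285 286 (.step 0 287 284 (.step 1 283 107 (.step 1 288 117 (.step 1 290 64 (.step 0 291 141 (.step 0 291 230 (.step 2 292 7 (.step 1 294 107 (.step 0 289 295 (.step 0 289 295 (.step 0 297 217 (.step 6 296 5 (.step 0 299 293 (.step 9 298 4 (.step 0 301 300 (.contra 302)))))))))))))))))))))))

def e8_33 : Cert :=
  (.split [83,76] [65,76] e8_31 e8_32)

def e8_34 : Cert :=
  (.step 0 188 253 (.step 0 254 241 (.step 0 188 253 (.step 1 238 34 (.step 0 221 257 (.step 1 238 82 (.step 0 259 243 (.step 3 251 1 (.step 0 189 261 (.step 0 262 191 (.step 3 258 1 (.step 3 263 0 (.step 1 264 65 (.step 1 265 47 (.step 9 266 1 (.step 0 268 242 (.step 1 267 0 (.step 0 270 160 (.step 9 267 0 (.step 0 272 271 (.step 0 272 188 (.step 0 272 255 (.step 0 272 256 (.step 1 273 65 (.step 1 277 46 (.split [65,76] [83,76] e8_12 e8_33))))))))))))))))))))))))))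

def e8_35 : Cert :=
  (.step 3 193 5 (.step 1 194 73 (.step 9 195 5 (.step 0 196 185 (.step 1 197 107 (.step 0 198 114 (.step 0 198 12 (.step 1 198 38 (.step 0 201 116 (.step 0 201 20 (.step 1 198 72 (.step 0 204 117 (.step 9 199 3 (.step 0 206 202 (.step 0 206 183 (.step 0 206 203 (.step 1 205 69 (.step 1 206 39 (.step 0 51 211 (.step 0 212 177 (.step 0 10 211 (.step 0 214 198 (.step 0 211 200 (.step 1 207 117 (.step 1 207 107 (.step 3 209 5 (.step 9 210 3 (.step 0 220 175 (.step 9 213 5 (.step 0 222 167 (.step 7 215 5 (.step 0 159 224 (.step 0 225 117 (.step 7 216 5 (.step 0 48 227 (.step 1 217 128 (.step 0 141 229 (.step 7 217 3 (.step 1 218 76 (.step 0 219 232 (.step 1 220 117 (.step 1 223 107 (.step 0 235 173 (.step 1 226 1 (.step 1 226 69 (.step 0 181 238 (.step 0 239 234 (.step 1 234 0 (.step 1 234 34 (.step 1 234 82 (.step 1 235 38 (.step 0 244 176 (.step 1 235 76 (.step 0 246 119 (.step 1 235 112 (.step 0 248 121 (.step 9 236 3 (.step 0 250 245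 (.step 1 237 76 (.step 1 238 0 e8_34))))))))))))))))))))))))))))))))))))))))))))))))))))))))))))

def e8_36 : Cert :=
  (.split [106,77,68] [38,77,68] e8_35 (.step 2 193 5 (.step 1 194 73 (.step 0 195 179 (.step 1 195 38 (.step 0 197 186 (.step 9 196 3 (.step 0 199 198 (.contra 200)))))))))

def e8_37 : Cert :=
  (.step 0 114 172 (.step 1 172 68 (.step 7 172 2 (.step 0 116 175 (.step 1 174 73 (.step 1 174 77 (.step 0 178 162 (.step 3 174 2 (.step 1 175 35 (.step 1 177 38 (.step 0 182 166 (.step 1 178 38 (.step 0 184 167 (.step 0 184 52 (.step 1 180 35 (.step 1 181 0 (.step 1 181 64 (.step 1 181 68 (.step 1 187 0 (.split [38,77,68] [106,77,68] (.step 2 192 5 (.step 1 193 73 (.step 0 194 179 (.step 1 194 38 (.step 0 196 186 (.step 9 195 3 (.step 0 198 197 (.contra 199)))))))) e8_36))))))))))))))))))))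

def e8_38 : Cert :=
  (.step 0 172 124 (.step 1 171 34 (.step 1 171 68 (.step 1 172 34 (.step 0 176 128 (.step 6 172 2 (.step 0 174 178 (.step 9 173 1 (.step 0 127 180 (.step 0 181 176 (.step 0 180 177 (.step 1 179 39 (.step 1 182 47 (.step 1 182 39 (.step 0 186 184 (.step 3 183 10 (.step 0 136 188 (.step 1 185 82 (.step 0 119 190 (.step 0 191 189 (.step 7 187 3 (.step 0 53 193 (.step 0 194 175 (.step 1 192 77 (.step 5 195 5 (.step 0 197 167 (.step 1 196 106 (.step 0 199 198 (.contra 200)))))))))))))))))))))))))))))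

def e8_39 : Cert :=
  (.split [] [69,0] e8_37 e8_38)

def e8_40 : Cert :=
  (.step 3 150 2 (.step 0 151 133 (.step 1 151 39 (.step 0 153 130 (.step 1 152 47 (.step 4 152 6 (.step 0 156 126 (.step 0 156 132 (.step 8 154 6 (.step 8 155 6 (.step 1 156 73 (.step 1 156 77 (.step 0 162 124 (.step 1 156 83 (.step 1 160 1 (.step 1 161 38 (.step 6 162 6 (.step 1 164 46 (.step 0 168 98 (.step 1 165 34 (.split [69,0] [] e8_11 e8_39)))))))))))))))))))))

def e8_41 : Cert :=
  (.split [68,35,46] [0,35,46] e8_40 (.step 0 135 150 (.step 0 151 134 (.step 0 135 150 (.step 0 153 18 (.step 5 152 1 (.step 11 154 1 (.step 1 155 35 (.step 0 157 156 (.contra 158))))))))))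

def e8_42 : Cert :=
  (.step 1 138 46 (.step 1 138 64 (.step 0 84 140 (.step 8 138 10 (.step 0 139 142 (.step 0 143 99 (.step 2 144 8 (.step 1 145 77 (.step 8 146 8 (.step 0 81 147 (.split [0,35,46] [68,35,46] (.step 0 135 149 (.step 0 150 134 (.step 0 135 149 (.step 0 152 18 (.step 5 151 1 (.step 11 153 1 (.step 1 154 35 (.step 0 156 155 (.contra 157))))))))) e8_41)))))))))))

def e8_43 : Cert :=
  (.step 1 138 82 (.step 9 138 10 (.step 0 87 140 (.step 1 141 47 (.step 1 142 82 (.step 0 75 143 (.step 0 144 139 (.step 1 145 73 (.step 2 145 7 (.step 0 62 147 (.step 1 146 106 (.step 5 148 4 (.step 0 66 150 (.step 1 150 73 (.step 0 146 152 (.step 7 152 4 (.step 0 149 154 (.step 8 153 5 (.step 0 156 155 (.step 1 157 35 (.step 2 157 3 (.step 0 151 159 (.step 1 158 68 (.step 5 160 1 (.step 1 162 35 (.step 0 158 163 (.step 7 163 1 (.step 0 161 165 (.step 0 166 123 (.step 8 164 2 (.step 0 168 167 (.contra 169))))))))))))))))))))))))))))))))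

def e8_44 : Cert :=
  (.split [83,128] [65,128] e8_42 e8_43)

def e8_45 : Cert :=
  (.step 1 123 65 (.step 3 123 0 (.step 1 124 76 (.step 1 124 116 (.step 7 124 0 (.step 1 125 47 (.step 1 125 35 (.step 1 128 47 (.step 1 129 76 (.step 1 130 38 (.step 1 130 68 (.step 9 130 0 (.step 1 131 82 (.split [65,128] [83,128] e8_10 e8_44))))))))))))))

def e8_46 : Cert :=
  (.step 1 123 69 (.step 1 123 77 (.step 0 125 78 (.step 2 123 0 (.step 0 127 2 (.step 1 122 69 (.step 1 122 73 (.step 1 124 34 (.step 6 126 6 (.step 0 132 111 (.step 2 128 1 (.step 1 130 106 (.step 1 134 69 (.step 0 136 129 (.step 1 134 73 (.step 0 138 130 (.step 8 136 1 (.step 0 131 140 (.step 7 137 2 (.step 0 142 141 (.step 1 138 106 (.step 0 144 135 (.step 2 143 3 (.step 1 146 73 (.step 0 126 147 (.step 0 148 139 (.step 1 147 106 (.step 0 133 150 (.step 0 151 145 (.step 9 149 5 (.step 0 153 152 (.contra 154))))))))))))))))))))))))))))))))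

def e8_47 : Cert :=
  (.split [64] [0] e8_45 e8_46)

def e8_48 : Cert :=
  (.step 1 107 77 (.step 7 108 7 (.step 0 97 109 (.step 0 110 92 (.step 0 97 109 (.step 1 111 47 (.step 1 111 107 (.step 1 112 107 (.step 1 114 38 (.step 1 114 72 (.step 1 115 76 (.step 0 118 105 (.step 1 115 112 (.step 0 120 93 (.split [0] [64] e8_9 e8_47)))))))))))))))

def e8_49 : Cert :=
  (.step 1 106 77 (.step 3 106 7 (.step 0 109 93 (.step 1 107 77 (.step 2 107 7 (.step 0 100 112 (.step 1 108 106 (.step 0 114 110 (.step 1 111 72 (.step 1 111 116 (.step 5 113 4 (.step 0 13 118 (.step 0 119 116 (.step 0 118 116 (.step 1 118 73 (.step 0 122 111 (.step 4 121 5 (.step 0 124 115 (.step 7 122 4 (.step 0 126 117 (.step 8 123 5 (.step 0 128 127 (.step 2 129 3 (.step 0 120 130 (.step 0 131 96 (.step 0 120 130 (.step 1 132 69 (.step 5 132 1 (.step 1 133 69 (.step 9 134 1 (.step 0 125 137 (.step 1 135 35 (.step 0 9 139 (.step 1 136 38 (.step 0 141 138 (.step 1 137 35 (.step 9 140 0 (.step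 0 144 17 (.step 4 142 2 (.step 0 146 145 (.step 1 143 0 (.step 0 148 147 (.contra 149)))))))))))))))))))))))))))))))))))))))))))

def e8_50 : Cert :=
  (.split [82] [76,129,82] e8_48 e8_49)

def e8_51 : Cert :=
  (.step 2 55 9 (.step 1 56 113 (.step 1 57 38 (.step 1 57 72 (.step 1 57 82 (.step 0 13 60 (.step 1 57 116 (.step 0 2 62 (.step 1 57 128 (.step 8 57 9 (.step 0 61 65 (.step 0 60 65 (.step 1 62 47 (.step 0 0 68 (.step 1 62 113 (.step 2 63 8 (.step 0 13 71 (.step 1 65 83 (.step 1 67 129 (.step 6 69 8 (.step 8 70 9 (.step 1 71 77 (.step 0 22 77 (.step 1 71 83 (.step 1 73 0 (.step 1 73 46 (.step 1 73 38 (.step 0 58 82 (.step 1 73 64 (.step 1 73 72 (.step 0 59 85 (.step 1 73 116 (.step 1 73 128 (.step 0 64 88 (.step 1 74 82 (.step 1 74 116 (.step 1 74 106 (.step 6 74 9 (.step 1 75 83 (.step 1 76 129 (.step 1 77 68 (.step 8 77 8 (.step 8 79 8 (.step 2 89 9 (.step 2 90 9 (.step 1 94 0 (.step 1 94 34 (.step 1 94 64 (.step 1 95 76 (.step 0 104 40 (.split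 [76,129,82] [82] e8_8 e8_50)))))))))))))))))))))))))))))))))))))))))))))))))))

def e8_52 : Cert :=
  (.step 0 115 89 (.step 9 107 5 (.step 0 114 117 (.step 0 116 117 (.step 1 108 39 (.step 0 98 120 (.step 1 110 39 (.step 3 118 3 (.step 7 120 5 (.step 0 109 124 (.step 8 121 6 (.step 0 126 125 (.step 7 122 5 (.step 0 50 128 (.step 0 129 103 (.step 1 123 69 (.step 1 127 69 (.step 2 130 0 (.step 0 28 133 (.step 0 134 119 (.step 0 112 133 (.step 0 136 119 (.step 9 131 3 (.step 1 132 116 (.step 0 139 138 (.step 1 135 35 (.step 1 137 35 (.step 9 141 2 (.step 0 143 127 (.step 1 142 64 (.step 0 144 145 (.step 1 143 69 (.step 4 146 1 (.step 0 140 148 (.step 1 147 116 (.step 0 150 149 (.contra 151)))))))))))))))))))))))))))))))))))))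

def e8_53 : Cert :=
  (.step 2 54 9 (.step 3 55 9 (.step 1 56 113 (.step 1 57 113 (.step 1 58 82 (.step 0 60 54 (.step 1 58 116 (.step 0 2 62 (.step 1 58 128 (.step 0 64 55 (.step 1 59 82 (.step 0 65 66 (.step 1 59 116 (.step 1 59 106 (.step 1 61 129 (.step 2 63 8 (.step 0 67 71 (.step 1 67 65 (.step 1 67 73 (.step 1 67 129 (.step 1 68 107 (.step 1 70 106 (.step 0 77 69 (.step 1 71 73 (.step 0 74 79 (.step 1 71 77 (.step 0 81 75 (.step 3 72 7 (.step 0 83 68 (.step 1 73 34 (.step 1 74 106 (.step 1 76 76 (.step 1 79 106 (.step 0 86 88 (.step 8 81 8 (.step 7 82 7 (.step 0 90 91 (.step 0 92 78 (.step 1 83 107 (.step 0 94 76 (.step 4 84 4 (.step 0 96 72 (.step 1 93 39 (.step 1 94 76 (.step 0 72 99 (.step 0 100 87 (.step 8 95 4 (.step 0 102 67 (.step 0 102 101 (.step 1 96 65 (.step 1 96 73 (.step 0 106 80 (.step 5 97 5 (.step 1 98 76 (.step 5 104 5 (.step 1 105 34 (.step 0 111 85 (.step 6 106 4 (.step 0 113 89 (.step 0 24 113 e8_52))))))))))))))))))))))))))))))))))))))))))))))))))))))))))))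

def e8_54 : Cert :=
  (.split [82,117,112] [128,117,112] e8_51 e8_53)

def e8_55 : Cert :=
  (.step 2 45 6 (.step 1 46 47 (.step 8 47 6 (.step 0 1 48 (.step 0 23 48 (.step 1 49 77 (.step 1 51 38 (.step 1 51 72 (.split [128,117,112] [82,117,112] e8_7 e8_54)))))))))

def e8_56 : Cert :=
  (.step 2 44 6 (.step 3 45 6 (.step 1 46 47 (.step 1 47 47 (.step 1 48 0 (.step 0 45 50 (.step 1 49 76 (.step 0 36 52 (.step 0 53 45 (.step 0 38 52 (.step 0 55 51 (.step 0 38 52 (.step 0 57 45 (.step 3 56 0 (.step 1 59 35 (.step 0 60 49 (.step 1 60 64 (.step 0 62 58 (.step 8 61 2 (.step 0 54 64 (.step 0 63 64 (.step 11 65 1 (.step 5 66 1 (.step 1 67 116 (.step 0 69 68 (.contra 70))))))))))))))))))))))))))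

def e8_57 : Cert :=
  (.split [0,39,116] [76,39,116] e8_55 e8_56)

def e8_58 : Cert :=
  (.step 1 33 113 (.step 2 33 8 (.step 0 14 35 (.step 0 4 35 (.step 0 15 35 (.step 1 34 46 (.step 6 34 8 (.step 1 37 77 (.step 2 39 8 (.step 1 41 46 (.split [76,39,116] [0,39,116] e8_4 e8_57)))))))))))

def e8_59 : Cert :=
  (.step 0 93 67 (.step 0 62 93 (.step 0 95 67 (.step 5 89 5 (.step 9 90 5 (.step 0 94 98 (.step 0 98 76 (.step 0 96 98 (.step 4 92 4 (.step 1 97 39 (.step 1 99 39 (.step 0 104 44 (.step 4 101 6 (.step 1 102 73 (.step 7 103 5 (.step 0 108 85 (.step 8 105 6 (.step 0 23 110 (.step 0 111 109 (.step 1 106 1 (.step 6 107 4 (.step 0 82 114 (.step 0 115 98 (.step 0 114 100 (.step 1 112 1 (.step 1 113 38 (.step 0 116 119 (.step 1 113 76 (.step 3 117 3 (.step 0 78 122 (.step 0 123 102 (.step 1 118 64 (.step 2 121 6 (.step 1 124 69 (.step 2 125 0 (.step 0 128 126 (.step 8 127 1 (.step 0 130 120 (.step 5 129 2 (.step 11 131 2 (.step 1 132 69 (.step 0 134 133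 (.contra 135)))))))))))))))))))))))))))))))))))))))))))

def e8_60 : Cert :=
  (.step 0 7 33 (.step 0 33 5 (.step 2 32 8 (.step 0 4 36 (.step 1 33 113 (.step 0 0 38 (.step 5 34 9 (.step 0 40 37 (.step 5 35 9 (.step 0 42 36 (.step 1 37 77 (.step 1 38 38 (.step 1 38 68 (.step 0 25 46 (.step 1 38 76 (.step 0 37 48 (.step 1 38 116 (.step 0 26 50 (.step 1 38 128 (.step 9 39 9 (.step 0 52 53 (.step 1 40 73 (.step 1 40 129 (.step 3 43 7 (.step 0 6 57 (.step 0 58 33 (.step 0 57 33 (.step 0 57 35 (.step 1 44 46 (.step 1 44 38 (.step 0 63 45 (.step 1 44 72 (.step 1 53 129 (.step 1 55 106 (.step 1 56 82 (.step 1 59 107 (.step 4 59 4 (.step 1 60 107 (.step 4 61 4 (.step 0 65 72 (.step 0 73 54 (.step 1 66 38 (.step 0 64 75 (.step 1 66 68 (.step 0 47 77 (.step 1 66 76 (.step 0 49 79 (.step 1 66 116 (.step 0 51 81 (.step 3 68 9 (.step 8 69 4 (.step 0 84 40 (.step 0 84 41 (.step 1 70 73 (.step 1 71 76 (.step 0 86 88 (.step 1 74 73 (.step 3 80 7 (.step 0 91 83 (.step 6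 87 4 e8_59))))))))))))))))))))))))))))))))))))))))))))))))))))))))))))

def e8_61 : Cert :=
  (.split [116] [112,47,116] e8_58 e8_60)

def e8_62 : Cert :=
  (.step 1 0 0 (.step 1 0 46 (.step 1 0 68 (.step 1 0 82 (.step 1 0 116 (.step 1 0 106 (.step 1 0 112 (.step 6 0 10 (.step 1 2 35 (.step 1 2 39 (.step 1 2 117 (.step 1 2 107 (.step 2 2 10 (.step 0 13 4 (.step 2 5 10 (.step 1 8 65 (.step 1 9 0 (.step 1 9 68 (.step 6 11 10 (.step 1 12 38 (.step 1 13 65 (.step 1 13 77 (.step 1 16 0 (.step 1 16 46 (.step 1 16 68 (.step 1 16 116 (.step 1 21 46 (.step 1 21 34 (.step 1 21 72 (.step 1 21 116 (.step 0 24 30 (.split [112,47,116] [116] e8_3 e8_61))))))))))))))))))))))))))))))))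

def e8_63 : Cert :=
  (.step 0 67 213 (.step 0 214 212 (.step 9 208 1 (.step 7 211 1 (.step 0 217 200 (.step 1 215 47 (.step 1 216 35 (.step 0 220 210 (.step 1 219 82 (.step 0 202 222 (.step 0 223 201 (.step 8 221 2 (.step 0 225 218 (.step 1 224 77 (.step 2 226 6 (.step 0 141 228 (.step 0 229 3 (.step 1 227 46 (.step 0 231 230 (.contra 232))))))))))))))))))))

def e8_64 : Cert :=
  (.step 9 147 1 (.step 0 154 150 (.step 4 152 2 (.step 1 156 1 (.step 1 157 68 (.step 6 157 2 (.step 0 153 159 (.step 2 158 2 (.step 1 160 39 (.step 1 162 0 (.step 1 162 34 (.step 0 155 164 (.step 1 162 76 (.step 2 163 6 (.step 0 167 110 (.step 2 166 6 (.step 0 169 161 (.step 1 168 47 (.step 0 171 12 (.step 5 170 0 (.step 1 171 112 (.step 1 171 128 (.step 0 175 138 (.step 0 175 129 (.step 8 171 8 (.step 0 178 174 (.step 1 173 65 (.step 1 178 113 (.step 0 181 172 (.step 1 179 47 (.step 1 179 117 (.step 0 184 65 (.step 1 180 0 (.step 7 180 0 (.step 0 165 187 (.step 0 188 28 (.step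 1 181 128 (.step 0 190 176 (.step 0 190 175 (.step 0 190 177 (.step 8 182 9 (.step 0 20 194 (.step 0 195 191 (.step 0 20 194 (.step 0 197 192 (.step 0 20 194 (.step 0 199 193 (.step 0 194 192 (.step 6 183 8 (.step 3 186 0 (.step 0 25 203 (.step 0 204 29 (.step 1 189 117 (.step 0 206 185 (.step 1 196 69 (.step 1 198 69 (.step 0 209 144 (.step 1 205 35 (.step 1 206 46 (.step 9 207 10 e8_63))))))))))))))))))))))))))))))))))))))))))))))))))))))))))))

def e8_65 : Cert :=
  (.step 0 93 50 (.step 9 82 4 (.step 0 95 92 (.step 0 95 91 (.step 0 94 95 (.step 1 84 73 (.step 1 87 73 (.step 5 90 4 (.step 1 95 73 (.step 0 102 83 (.step 4 98 5 (.step 7 99 4 (.step 0 66 105 (.step 0 106 3 (.step 0 66 105 (.step 8 100 5 (.step 0 109 107 (.step 0 109 108 (.step 0 73 109 (.step 0 69 109 (.step 1 101 73 (.step 8 103 5 (.step 0 115 105 (.step 1 104 39 (.step 1 111 39 (.step 7 114 4 (.step 0 109 119 (.step 0 120 79 (.step 0 109 119 (.step 0 122 80 (.step 0 112 119 (.step 0 113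 119 (.step 0 125 78 (.step 1 116 39 (.step 6 117 5 (.step 0 95 128 (.step 2 123 3 (.step 0 87 130 (.step 0 96 130 (.step 2 124 3 (.step 0 101 133 (.step 0 134 75 (.step 2 126 3 (.step 0 97 136 (.step 0 137 41 (.step 0 97 136 (.step 0 139 42 (.step 1 127 46 (.step 1 131 69 (.step 1 132 69 (.step 0 143 118 (.step 1 135 69 (.step 1 140 69 (.step 0 146 54 (.step 1 142 38 (.step 0 148 121 (.step 1 143 34 (.step 9 145 1 (.step 0 149 151 (.step 0 121 151 e8_64))))))))))))))))))))))))))))))))))))))))))))))))))))))))))))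

def e8_66 : Cert :=
  (.step 0 33 8 (.step 1 33 113 (.step 0 35 1 (.step 1 34 117 (.step 4 34 9 (.step 0 5 38 (.step 1 35 68 (.step 0 40 4 (.step 0 40 26 (.step 1 35 116 (.step 0 43 6 (.step 0 43 27 (.step 1 35 106 (.step 0 46 7 (.step 6 35 8 (.step 0 48 5 (.step 0 48 39 (.step 8 36 9 (.step 0 49 51 (.step 8 37 9 (.step 1 38 65 (.step 1 38 73 (.step 1 38 77 (.step 1 38 83 (.step 1 38 129 (.step 1 49 77 (.step 0 59 56 (.step 1 51 129 (.step 2 52 7 (.step 0 62 47 (.step 0 44 62 (.step 1 53 83 (.step 1 55 106 (.step 6 57 9 (.step 1 58 82 (.step 1 59 38 (.step 1 59 72 (.step 1 59 116 (.step 1 61 38 (.step 0 72 69 (.step 1 61 68 (.step 0 74 42 (.step 1 61 76 (.step 0 76 49 (.step 1 61 116 (.step 0 78 45 (.step 0 78 71 (.step 1 62 107 (.step 0 81 36 (.step 0 81 60 (.step 5 63 4 (.step 5 64 4 (.step 0 51 85 (.step 0 86 70 (.step 2 68 9 (.step 2 77 7 (.step 0 88 89 (.step 1 81 72 (.step 0 91 70 (.step 1 81 76 e8_65))))))))))))))))))))))))))))))))))))))))))))))))))))))))))))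

def e8_67 : Cert :=
  (.step 2 45 6 (.step 1 46 47 (.step 1 47 76 (.step 0 45 48 (.step 0 49 37 (.step 0 45 48 (.step 0 51 39 (.step 0 48 39 (.step 8 47 6 (.step 0 54 53 (.step 2 55 0 (.step 1 56 35 (.step 0 47 57 (.step 1 57 64 (.step 0 52 59 (.step 9 58 2 (.step 0 61 50 (.step 0 61 60 (.step 10 62 1 (.step 4 63 1 (.step 1 64 116 (.step 0 66 65 (.contra 67)))))))))))))))))))))))

def e8_68 : Cert :=
  (.step 3 170 8 (.step 1 173 117 (.step 3 175 3 (.step 0 161 178 (.step 0 179 30 (.step 0 161 178 (.step 1 176 73 (.step 0 182 106 (.step 1 176 77 (.step 0 184 120 (.step 1 177 72 (.step 0 181 186 (.step 1 182 106 (.step 0 188 122 (.step 8 183 5 (.step 0 190 189 (.step 1 184 0 (.step 0 192 180 (.step 0 192 187 (.step 9 184 8 (.step 0 90 195 (.step 7 185 6 (.step 0 196 197 (.step 1 191 117 (.step 1 193 73 (.step 0 200 185 (.step 1 194 73 (.step 1 199 106 (.step 0 203 198 (.step 8 201 5 (.step 0 204 205 (.step 1 202 106 (.step 0 207 206 (.contra 208))))))))))))))))))))))))))))))))))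

def e8_69 : Cert :=
  (.step 0 114 113 (.step 1 108 73 (.step 1 109 39 (.step 1 115 39 (.step 0 119 52 (.step 5 116 6 (.step 7 117 4 (.step 6 118 5 (.step 0 102 123 (.step 0 124 50 (.step 0 102 123 (.step 0 126 51 (.step 0 101 123 (.step 0 128 46 (.step 0 103 123 (.step 0 130 49 (.step 1 119 0 (.step 1 121 1 (.step 1 125 1 (.step 1 127 1 (.step 3 127 0 (.step 0 25 136 (.step 0 137 29 (.step 0 25 136 (.step 0 32 136 (.step 3 131 0 (.step 1 133 76 (.step 1 134 38 (.step 1 135 38 (.step 1 135 64 (.step 1 138 35 (.step 1 139 35 (.step 3 140 1 (.step 1 141 35 (.step 0 149 48 (.step 3 142 6 (.step 3 145 0 (.step 0 151 152 (.step 7 146 1 (.step 1 147 68 (.step 1 148 69 (.step 8 150 2 (.step 0 129 157 (.step 0 158 154 (.step 0 132 157 (.step 0 160 155 (.step 4 153 2 (.step 9 156 1 (.step 1 159 65 (.step 0 164 66 (.step 1 162 69 (.step 1 164 46 (.step 9 165 10 (.step 0 77 168 (.step 0 169 167 (.step 6 166 2 (.step 0 163 171 (.step 0 172 143 (.step 0 163 171 (.step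 0 174 144 e8_68))))))))))))))))))))))))))))))))))))))))))))))))))))))))))))

def e8_70 : Cert :=
  (.step 2 55 9 (.step 1 56 113 (.step 1 57 82 (.step 0 9 58 (.step 1 57 116 (.step 8 57 9 (.step 0 58 61 (.step 0 59 61 (.step 1 60 113 (.step 1 61 83 (.step 0 57 65 (.step 1 62 73 (.step 1 62 129 (.step 1 64 82 (.step 0 43 69 (.step 0 43 69 (.step 0 71 62 (.step 1 64 116 (.step 1 64 106 (.step 8 64 9 (.step 0 70 75 (.step 1 65 116 (.step 1 67 106 (.step 1 68 82 (.step 1 70 77 (.step 1 75 129 (.step 0 81 80 (.step 2 76 7 (.step 0 83 74 (.step 0 73 83 (.step 2 79 9 (.step 1 80 72 (.step 1 81 76 (.step 0 88 70 (.step 6 82 7 (.step 1 83 107 (.step 0 91 64 (.step 5 84 4 (.step 5 85 4 (.step 0 75 94 (.step 0 95 87 (.step 2 89 7 (.step 0 86 97 (.step 1 91 76 (.step 0 99 72 (.step 9 92 4 (.step 0 62 101 (.step 0 63 101 (.step 0 100 101 (.step 1 93 73 (.step 0 67 105 (.step 1 96 73 (.step 5 98 4 (.step 4 104 5 (.step 7 105 4 (.step 0 78 110 (.step 0 78 110 (.step 0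 112 44 (.step 8 107 5 (.step 0 114 111 e8_69))))))))))))))))))))))))))))))))))))))))))))))))))))))))))))

def e8_71 : Cert :=
  (.step 1 109 77 (.step 3 109 7 (.step 0 111 103 (.step 1 110 72 (.step 1 110 116 (.step 4 112 4 (.step 0 113 115 (.step 0 116 14 (.step 1 115 73 (.step 0 110 118 (.step 6 118 4 (.step 0 94 120 (.step 0 114 120 (.step 9 119 5 (.step 0 121 123 (.step 0 122 123 (.step 3 125 3 (.step 0 99 126 (.step 0 127 117 (.step 0 126 117 (.step 1 128 69 (.step 4 128 1 (.step 1 129 69 (.step 8 130 1 (.step 0 133 124 (.step 1 131 35 (.step 0 135 10 (.step 1 132 38 (.step 0 134 137 (.step 1 133 35 (.step 8 136 0 (.step 0 18 140 (.step 5 138 2 (.step 0 141 142 (.step 1 139 0 (.step 0 144 143 (.contra 145)))))))))))))))))))))))))))))))))))))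

def e8_72 : Cert :=
  (.step 0 74 125 (.step 1 125 69 (.step 1 125 77 (.step 0 81 128 (.step 3 125 0 (.step 0 3 130 (.step 3 126 6 (.step 0 132 130 (.step 1 127 34 (.step 7 129 6 (.step 0 114 135 (.step 3 131 1 (.step 4 133 2 (.step 1 137 69 (.step 1 138 69 (.step 1 138 73 (.step 9 139 1 (.step 0 142 134 (.step 6 140 2 (.step 0 143 144 (.step 1 141 106 (.step 3 145 3 (.step 1 147 73 (.step 0 141 148 (.step 0 149 129 (.step 1 148 106 (.step 0 146 151 (.step 0 152 136 (.step 8 150 5 (.step 0 154 153 (.contra 155)))))))))))))))))))))))))))))))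

def e8_73 : Cert :=
  (.step 1 143 82 (.step 8 143 10 (.step 0 145 90 (.step 1 146 47 (.step 1 147 82 (.step 0 144 148 (.step 0 149 77 (.step 1 150 73 (.step 3 150 7 (.step 0 152 63 (.step 1 151 106 (.step 4 153 4 (.step 0 155 67 (.step 1 155 73 (.step 0 157 151 (.step 6 157 4 (.step 0 159 154 (.step 9 158 5 (.step 0 160 161 (.step 1 162 35 (.step 3 162 3 (.step 0 164 156 (.step 1 163 68 (.step 4 165 1 (.step 1 167 35 (.step 0 168 163 (.step 6 168 1 (.step 0 126 170 (.step 0 171 166 (.step 9 169 2 (.step 0 173 172 (.contra 174))))))))))))))))))))))))))))))))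

def e8_74 : Cert :=
  (.step 0 236 235 (.contra 237))

def e8_75 : Cert :=
  (.step 0 176 128 (.step 0 127 176 (.step 1 176 34 (.step 0 179 131 (.step 7 176 2 (.step 0 181 131 (.step 8 177 1 (.step 0 180 183 (.step 0 182 183 (.step 8 178 1 (.step 0 179 186 (.step 0 179 186 (.step 0 188 142 (.step 1 184 117 (.step 1 184 107 (.step 1 185 39 (.step 1 187 117 (.step 0 193 134 (.step 2 189 10 (.step 0 137 195 (.step 0 196 136 (.step 0 137 195 (.step 0 164 195 (.step 6 190 1 (.step 1 191 72 (.step 6 192 3 (.step 0 200 202 (.step 0 203 54 (.step 1 193 82 (.step 0 205 141 (.step 1 197 83 (.step 0 207 168 (.step 1 198 83 (.step 5 199 8 (.step 9 208 8 (.step 1 209 46 (.step 0 174 212 (.step 0 211 212 (.step 1 210 113 (.step 0 194 215 (.step 1 213 117 (.step 1 213 113 (.step 1 214 113 (.step 7 215 8 (.step 0 206 220 (.step 9 216 9 (.step 0 222 221 (.step 1 217 64 (.step 0 147 224 (.step 0 225 204 (.step 1 219 72 (.step 0 226 227 (.step 3 223 7 (.step 1 229 107 (.step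 0 218 230 (.step 0 231 191 (.step 1 230 72 (.step 0 228 233 (.step 0 234 201 (.step 8 232 4 e8_74))))))))))))))))))))))))))))))))))))))))))))))))))))))))))))

def e8_76 : Cert :=
  (.step 1 283 46 (.step 0 101 284 (.step 1 283 116 (.step 8 283 10 (.step 0 285 287 (.step 0 288 286 (.step 1 289 117 (.step 1 290 64 (.step 0 147 291 (.step 3 292 7 (.step 1 293 107 (.step 0 294 71 (.step 1 294 76 (.step 0 292 296 (.step 0 297 225 (.step 8 295 4 (.step 0 299 298 (.contra 300))))))))))))))))))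

def e8_77 : Cert :=
  (.step 0 304 213 (.step 3 304 5 (.step 1 305 107 (.step 1 306 77 (.step 0 308 307 (.step 1 307 72 (.step 1 308 72 (.step 0 298 311 (.step 1 308 106 (.step 1 308 128 (.step 9 308 5 (.step 0 313 315 (.step 8 309 4 (.step 0 310 317 (.step 0 237 317 (.step 0 319 314 (.step 1 311 65 (.step 4 312 1 (.step 0 322 290 (.step 1 315 107 (.step 1 316 113 (.step 2 318 7 (.step 1 321 116 (.step 0 273 327 (.step 0 328 290 (.step 4 323 0 (.step 1 324 128 (.step 0 320 331 (.step 1 326 113 (.step 0 161 333 (.step 0 334 325 (.step 0 222 333 (.step 0 336 325 (.step 1 330 1 (.step 2 332 7 (.step 7 335 8 (.step 9 337 9 (.step 6 338 0 (.step 0 329 342 (.step 0 343 175 (.step 1 339 113 (.step 1 344 35 (.step 1 345 128 (.step 0 347 341 (.step 8 345 7 (.step 0 340 349 (.step 0 350 348 (.step 1 346 82 (.step 0 352 351 (.contra 353))))))))))))))))))))))))))))))))))))))))))))))))))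

def e8_78 : Cert :=
  (.step 0 362 368 (.step 0 369 86 (.step 3 368 3 (.step 0 361 371 (.step 0 372 89 (.step 0 365 371 (.step 0 374 89 (.step 1 370 117 (.step 3 373 2 (.step 0 377 316 (.step 1 376 0 (.step 0 375 379 (.step 0 380 326 (.step 1 376 34 (.step 0 382 273 (.step 4 378 0 (.step 4 381 1 (.step 0 333 385 (.step 0 386 367 (.step 1 384 65 (.step 6 388 0 (.step 0 389 387 (.step 0 321 389 (.step 0 391 383 (.step 1 390 47 (.step 0 393 97 (.step 1 392 117 (.step 0 395 394 (.contra 396)))))))))))))))))))))))))))))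

def e8_79 : Cert :=
  (.step 1 378 0 (.step 0 379 280 (.step 1 378 34 (.step 0 381 272 (.step 1 378 68 (.step 1 380 65 (.step 3 383 2 (.step 0 385 371 (.step 0 385 316 (.step 1 384 116 (.step 0 273 388 (.step 0 389 356 (.step 1 386 35 (.step 4 387 0 (.step 1 390 35 (.step 0 296 393 (.step 1 391 0 (.step 1 392 65 (.step 8 394 0 (.step 0 395 397 (.step 0 398 106 (.step 6 396 0 (.step 0 321 400 (.step 0 401 382 (.step 1 399 65 (.step 1 402 117 (.step 0 404 403 (.contra 405))))))))))))))))))))))))))))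

def e8_80 : Cert :=
  (.step 1 412 68 (.step 0 405 413 (.step 0 414 411 (.step 0 405 413 (.step 0 416 408 (.step 1 415 73 (.step 1 417 73 (.step 1 418 112 (.step 0 253 420 (.step 1 419 76 (.step 0 251 422 (.step 0 423 401 (.step 1 421 107 (.step 1 424 83 (.step 9 425 4 (.step 0 399 427 (.step 0 428 234 (.step 1 426 0 (.step 0 430 429 (.contra 431))))))))))))))))))))

def e8_81 : Cert :=
  (.step 1 413 0 (.step 0 359 414 (.step 0 415 407 (.step 4 416 1 (.step 0 396 417 (.step 0 418 287 (.step 0 285 417 (.step 0 420 287 (.step 10 419 0 (.step 4 421 0 (.step 1 422 0 (.step 0 424 423 (.contra 425)))))))))))))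

def e8_82 : Cert :=
  (.step 1 412 0 (.step 0 359 414 (.step 0 415 407 (.step 4 416 1 (.step 0 396 417 (.step 0 418 287 (.step 0 285 417 (.step 0 420 287 (.step 10 419 0 (.step 4 421 0 (.step 1 422 0 (.step 0 424 423 (.contra 425)))))))))))))

def e8_83 : Cert :=
  (.split [117,112] [35,112] e8_81 e8_82)

def e8_84 : Cert :=
  (.step 1 379 82 (.step 0 247 380 (.step 0 381 346 (.step 0 247 380 (.step 0 383 347 (.step 1 379 116 (.step 0 226 385 (.step 0 386 363 (.step 1 387 47 (.step 0 388 296 (.step 1 387 35 (.step 0 295 390 (.step 1 387 39 (.step 0 58 392 (.step 1 388 34 (.step 0 175 394 (.step 0 395 105 (.step 7 389 10 (.step 0 278 397 (.step 0 398 382 (.step 0 377 397 (.step 0 400 265 (.step 0 377 397 (.step 0 402 384 (.step 1 390 68 (.step 0 193 404 (.step 8 391 0 (.step 0 406 106 (.step 6 393 3 (.step 1 403 77 (.step 1 409 72 (.step 0 408 410 (.split [35,112] [117,112] e8_80 e8_83)))))))))))))))))))))))))))))))))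

def e8_85 : Cert :=
  (.step 0 270 378 (.step 1 379 0 (.step 0 381 280 (.step 1 379 34 (.step 0 383 272 (.step 1 378 116 (.step 0 226 385 (.step 0 386 363 (.step 6 380 0 (.step 0 321 388 (.step 0 389 384 (.step 1 382 65 (.step 1 387 47 (.step 0 391 392 (.step 0 393 97 (.step 1 390 117 (.step 0 395 394 (.contra 396))))))))))))))))))

def e8_86 : Cert :=
  (.split [69,72] [1,72] e8_84 e8_85)

def e8_87 : Cert :=
  (.step 0 360 369 (.step 0 370 90 (.step 0 354 369 (.step 0 372 90 (.step 1 373 39 (.step 0 97 374 (.step 9 375 6 (.step 0 376 301 (.split [1,72] [69,72] e8_79 e8_86)))))))))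

def e8_88 : Cert :=
  (.step 0 360 368 (.step 0 370 90 (.step 0 364 368 (.step 0 372 90 (.step 0 362 369 (.step 0 374 86 (.step 3 369 3 (.step 0 361 376 (.step 0 377 89 (.step 0 365 376 (.step 0 379 331 (.step 1 375 117 (.step 3 378 2 (.step 0 382 371 (.step 0 382 316 (.step 3 380 2 (.step 0 385 373 (.step 1 381 34 (.step 0 387 273 (.step 1 383 35 (.step 4 384 0 (.step 1 386 35 (.step 0 349 391 (.step 1 389 0 (.step 1 390 65 (.step 8 392 0 (.step 0 393 395 (.step 0 396 106 (.step 6 394 0 (.step 0 321 398 (.step 0 399 388 (.step 1 397 65 (.step 1 400 117 (.step 0 402 401 (.contra 403)))))))))))))))))))))))))))))))))))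

def e8_89 : Cert :=
  (.split [38,83,128] [116,83,128] e8_87 e8_88)

def e8_90 : Cert :=
  (.step 0 116 336 (.step 1 336 76 (.step 1 336 112 (.step 8 336 7 (.step 0 338 340 (.step 7 337 8 (.step 0 327 342 (.step 0 343 340 (.step 0 334 342 (.step 0 345 340 (.step 0 334 342 (.step 0 342 340 (.step 1 339 47 (.step 1 341 83 (.step 1 344 83 (.step 1 346 83 (.step 1 348 83 (.step 1 350 38 (.step 1 351 116 (.step 0 355 90 (.step 1 352 0 (.step 0 303 357 (.step 0 358 83 (.step 1 352 38 (.step 1 352 68 (.step 1 352 116 (.step 0 362 90 (.step 1 353 38 (.step 1 353 68 (.step 1 353 116 (.step 0 366 90 (.split [116,83,128] [38,83,128] e8_78 e8_89))))))))))))))))))))))))))))))))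

def e8_91 : Cert :=
  (.split [] [113,106] e8_90 (.step 1 336 76 (.step 0 337 308 (.step 1 336 112 (.step 0 339 63 (.step 9 336 7 (.step 0 341 338 (.step 4 340 4 (.step 0 343 342 (.contra 344))))))))))

def e8_92 : Cert :=
  (.step 2 305 5 (.step 1 306 77 (.step 1 307 72 (.step 0 257 308 (.step 1 307 106 (.step 8 307 5 (.step 0 311 310 (.step 1 308 65 (.step 1 308 77 (.step 0 241 314 (.step 3 309 6 (.step 1 312 47 (.step 1 312 39 (.step 0 116 318 (.step 1 313 46 (.step 0 287 320 (.step 8 314 5 (.step 7 315 6 (.step 0 323 322 (.step 1 317 64 (.step 0 279 325 (.step 1 317 82 (.step 6 318 5 (.step 0 89 328 (.step 9 319 6 (.step 0 329 330 (.step 1 324 47 (.step 1 332 34 (.step 1 332 82 (.split [113,106] [] (.step 1 335 76 (.step 0 336 308 (.step 1 335 112 (.step 0 338 63 (.step 9 335 7 (.step 0 340 337 (.step 4 339 4 (.step 0 342 341 (.contra 343))))))))) e8_91))))))))))))))))))))))))))))))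

def e8_93 : Cert :=
  (.step 0 305 213 (.step 2 304 5 (.step 3 305 5 (.step 1 306 107 (.step 1 307 77 (.step 1 308 77 (.step 0 311 309 (.step 1 309 72 (.step 1 310 38 (.step 0 305 314 (.step 1 310 72 (.step 1 310 106 (.step 8 310 5 (.step 0 318 317 (.step 1 311 72 (.step 0 320 313 (.step 0 298 320 (.step 1 311 106 (.step 0 323 315 (.step 8 312 4 (.step 0 321 325 (.step 0 313 325 (.step 1 316 77 (.step 1 320 65 (.step 4 322 1 (.step 0 330 290 (.step 1 324 117 (.step 1 326 77 (.step 0 328 333 (.step 2 327 7 (.step 1 329 116 (.step 0 273 336 (.step 0 337 290 (.step 4 331 0 (.step 1 332 34 (.step 0 340 338 (.step 6 334 7 (.step 0 319 342 (.step 0 343 154 (.step 1 335 117 (.step 1 339 1 (.step 1 344 47 (.step 1 345 34 (.step 0 348 341 (.step 6 346 0 (.step 0 349 350 (.step 0 351 175 (.step 1 347 34 (.step 0 353 352 (.contra 354))))))))))))))))))))))))))))))))))))))))))))))))))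

def e8_94 : Cert :=
  (.split [38,73,76] [106,73,76] e8_92 e8_93)

def e8_95 : Cert :=
  (.step 1 284 34 (.step 1 284 116 (.step 9 284 10 (.step 0 286 287 (.step 0 288 282 (.step 0 286 287 (.step 0 287 282 (.step 1 289 117 (.step 1 291 117 (.step 0 97 293 (.step 0 294 244 (.step 0 97 293 (.step 1 292 68 (.step 0 297 235 (.step 1 293 0 (.step 0 104 299 (.step 0 300 279 (.step 1 293 68 (.step 0 302 235 (.split [106,73,76] [38,73,76] e8_77 e8_94))))))))))))))))))))

def e8_96 : Cert :=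
  (.step 1 284 46 (.step 0 101 285 (.step 1 284 116 (.step 8 284 10 (.step 0 286 288 (.step 0 289 287 (.step 1 290 117 (.step 1 291 64 (.step 0 147 292 (.step 3 293 7 (.step 1 294 107 (.step 0 295 71 (.step 1 295 76 (.step 0 293 297 (.step 0 298 225 (.step 8 296 4 (.step 0 300 299 (.contra 301))))))))))))))))))

def e8_97 : Cert :=
  (.split [65,76] [83,76] e8_95 e8_96)

def e8_98 : Cert :=
  (.step 0 245 258 (.step 0 259 192 (.step 0 258 192 (.step 1 242 34 (.step 0 262 227 (.step 1 242 82 (.step 0 247 264 (.step 2 256 1 (.step 0 196 266 (.step 2 263 1 (.step 2 267 0 (.step 1 268 65 (.step 1 269 47 (.step 8 270 1 (.step 0 246 272 (.step 1 271 0 (.step 0 166 274 (.step 8 271 0 (.step 0 275 276 (.step 0 192 276 (.step 0 260 276 (.step 0 261 276 (.step 1 277 65 (.step 1 281 46 (.split [83,76] [65,76] e8_76 e8_97)))))))))))))))))))))))))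

def e8_99 : Cert :=
  (.step 2 198 5 (.step 1 199 73 (.step 8 200 5 (.step 0 189 201 (.step 1 202 107 (.step 0 117 203 (.step 0 13 203 (.step 1 203 38 (.step 0 119 206 (.step 0 21 206 (.step 1 203 72 (.step 0 120 209 (.step 8 204 3 (.step 0 207 211 (.step 0 187 211 (.step 0 208 211 (.step 1 210 69 (.step 1 211 39 (.step 0 181 216 (.step 0 217 52 (.step 0 203 216 (.step 0 219 11 (.step 0 205 216 (.step 1 212 117 (.step 1 212 107 (.step 2 214 5 (.step 0 78 224 (.step 8 215 3 (.step 0 180 226 (.step 8 218 5 (.step 0 172 228 (.step 6 220 5 (.step 0 120 230 (.step 0 231 165 (.step 6 221 5 (.step 0 233 49 (.step 6 222 3 (.step 1 223 76 (.step 0 236 224 (.step 1 226 117 (.step 1 229 107 (.step 0 178 239 (.step 1 232 1 (.step 1 232 69 (.step 0 238 242 (.step 0 243 185 (.step 1 238 0 (.step 1 238 34 (.step 1 238 82 (.step 1 239 38 (.step 0 119 248 (.step 1 239 76 (.step 0 122 250 (.step 1 239 112 (.step 0 124 252 (.step 8 240 3 (.step 0 249 254 (.step 0 255 194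 (.step 1 241 76 (.step 1 242 0 e8_98))))))))))))))))))))))))))))))))))))))))))))))))))))))))))))

def e8_100 : Cert :=
  (.split [38,77,68] [106,77,68] e8_99 (.step 3 198 5 (.step 1 199 73 (.step 0 183 200 (.step 1 200 38 (.step 0 190 202 (.step 8 201 3 (.step 0 204 203 (.contra 205)))))))))

def e8_101 : Cert :=
  (.step 0 177 117 (.step 1 177 68 (.step 6 177 2 (.step 1 179 73 (.step 1 179 77 (.step 0 168 182 (.step 2 179 2 (.step 1 180 35 (.step 1 181 38 (.step 0 171 186 (.step 1 182 38 (.step 0 172 188 (.step 0 53 188 (.step 1 184 35 (.step 1 185 0 (.step 1 185 68 (.step 1 185 116 (.step 1 191 0 (.step 0 195 193 (.split [106,77,68] [38,77,68] (.step 3 197 5 (.step 1 198 73 (.step 0 183 199 (.step 1 199 38 (.step 0 190 201 (.step 8 200 3 (.step 0 203 202 (.contra 204)))))))) e8_100))))))))))))))))))))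

def e8_102 : Cert :=
  (.step 0 177 128 (.step 0 127 177 (.step 1 177 34 (.step 0 180 131 (.step 7 177 2 (.step 0 182 131 (.step 8 178 1 (.step 0 181 184 (.step 0 183 184 (.step 8 179 1 (.step 0 180 187 (.step 0 188 142 (.step 1 176 68 (.step 1 185 47 (.step 1 186 39 (.step 2 189 10 (.step 0 137 193 (.step 1 191 82 (.step 0 194 195 (.step 0 196 122 (.step 6 192 3 (.step 0 190 198 (.step 0 199 54 (.step 1 197 77 (.step 4 200 5 (.step 0 172 202 (.step 1 201 106 (.step 0 204 203 (.contra 205)))))))))))))))))))))))))))))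

def e8_103 : Cert :=
  (.split [69,0] [] e8_101 e8_102)

def e8_104 : Cert :=
  (.step 2 156 2 (.step 0 138 157 (.step 1 157 39 (.step 0 133 159 (.step 1 158 47 (.step 5 158 6 (.step 0 135 162 (.step 0 163 137 (.step 9 160 6 (.step 9 161 6 (.step 1 162 73 (.step 1 162 77 (.step 1 162 83 (.step 1 166 1 (.step 1 167 38 (.step 7 168 6 (.step 1 169 46 (.step 0 101 173 (.step 1 170 34 (.split [] [69,0] e8_75 e8_103))))))))))))))))))))

def e8_105 : Cert :=
  (.split [0,35,46] [68,35,46] e8_104 (.step 0 139 156 (.step 0 157 140 (.step 0 19 156 (.step 0 159 140 (.step 4 158 1 (.step 10 160 1 (.step 1 161 35 (.step 0 163 162 (.contra 164))))))))))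

def e8_106 : Cert :=
  (.step 1 144 46 (.step 1 144 64 (.step 0 146 87 (.step 9 144 10 (.step 0 102 148 (.step 0 149 145 (.step 3 150 8 (.step 1 151 77 (.step 9 152 8 (.step 0 153 84 (.split [68,35,46] [0,35,46] (.step 0 139 155 (.step 0 156 140 (.step 0 19 155 (.step 0 158 140 (.step 4 157 1 (.step 10 159 1 (.step 1 160 35 (.step 0 162 161 (.contra 163))))))))) e8_105)))))))))))

def e8_107 : Cert :=
  (.step 1 144 82 (.step 8 144 10 (.step 0 146 90 (.step 1 147 47 (.step 1 148 82 (.step 0 145 149 (.step 0 150 77 (.step 1 151 73 (.step 3 151 7 (.step 0 153 63 (.step 1 152 106 (.step 4 154 4 (.step 0 156 67 (.step 1 156 73 (.step 0 158 152 (.step 6 158 4 (.step 0 160 155 (.step 9 159 5 (.step 0 161 162 (.step 1 163 35 (.step 3 163 3 (.step 0 165 157 (.step 1 164 68 (.step 4 166 1 (.step 1 168 35 (.step 0 169 164 (.step 6 169 1 (.step 0 126 171 (.step 0 172 167 (.step 9 170 2 (.step 0 174 173 (.contra 175))))))))))))))))))))))))))))))))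

def e8_108 : Cert :=
  (.split [65,128] [83,128] e8_106 e8_107)

def e8_109 : Cert :=
  (.step 1 126 65 (.step 1 126 69 (.step 2 126 0 (.step 6 127 0 (.step 1 128 34 (.step 1 129 47 (.step 1 129 35 (.step 1 130 47 (.step 1 132 76 (.step 1 132 82 (.step 8 132 0 (.step 1 133 38 (.step 1 133 68 (.step 8 133 0 (.step 1 134 82 (.step 1 134 116 (.split [83,128] [65,128] e8_73 e8_108)))))))))))))))))

def e8_110 : Cert :=
  (.step 1 125 1 (.step 1 125 69 (.step 1 125 73 (.step 1 126 1 (.step 0 130 81 (.step 1 126 69 (.step 1 126 77 (.step 0 81 133 (.step 3 126 0 (.step 0 3 135 (.step 1 127 46 (.step 0 114 137 (.step 1 129 106 (.step 7 131 6 (.step 0 138 140 (.step 1 132 34 (.step 1 133 38 (.step 0 141 143 (.step 3 136 1 (.step 1 145 69 (.step 0 128 146 (.step 1 145 73 (.step 0 129 148 (.step 9 146 1 (.step 0 150 142 (.step 6 147 2 (.step 0 151 152 (.step 1 148 106 (.step 0 139 154 (.step 3 153 3 (.step 1 156 73 (.step 0 149 157 (.step 0 158 134 (.step 1 157 106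 (.step 0 155 160 (.step 0 161 144 (.step 8 159 5 (.step 0 163 162 (.contra 164)))))))))))))))))))))))))))))))))))))))

def e8_111 : Cert :=
  (.split [0] [64] e8_109 e8_110)

def e8_112 : Cert :=
  (.step 1 110 77 (.step 6 111 7 (.step 0 95 112 (.step 0 113 100 (.step 0 112 100 (.step 1 114 47 (.step 1 114 107 (.step 1 115 107 (.step 1 117 38 (.step 1 117 72 (.step 1 118 76 (.step 0 108 121 (.step 1 118 112 (.step 0 96 123 (.split [64] [0] e8_72 e8_111)))))))))))))))

def e8_113 : Cert :=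
  (.step 1 110 77 (.step 3 110 7 (.step 0 112 103 (.step 1 109 77 (.step 2 109 7 (.step 0 96 115 (.step 1 111 72 (.step 1 111 116 (.step 4 113 4 (.step 0 117 119 (.step 0 120 14 (.step 0 117 119 (.step 1 114 106 (.step 0 116 123 (.step 1 119 73 (.step 0 111 125 (.step 5 122 5 (.step 0 124 127 (.step 6 125 4 (.step 0 118 129 (.step 9 126 5 (.step 0 130 131 (.step 3 132 3 (.step 0 99 133 (.step 0 134 121 (.step 0 133 121 (.step 1 135 69 (.step 4 135 1 (.step 1 136 69 (.step 8 137 1 (.step 0 140 128 (.step 1 138 35 (.step 0 142 10 (.step 1 139 38 (.step 0 141 144 (.step 1 140 35 (.step 8 143 0 (.step 0 18 147 (.step 5 145 2 (.step 0 148 149 (.step 1 146 0 (.step 0 151 150 (.contra 152)))))))))))))))))))))))))))))))))))))))))))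

def e8_114 : Cert :=
  (.split [76,129,82] [82] e8_112 e8_113)

def e8_115 : Cert :=
  (.step 3 56 9 (.step 1 57 113 (.step 1 58 38 (.step 1 58 72 (.step 1 58 82 (.step 0 61 14 (.step 1 58 116 (.step 0 63 3 (.step 1 58 128 (.step 9 58 9 (.step 0 66 62 (.step 0 66 61 (.step 1 63 47 (.step 0 69 1 (.step 1 63 107 (.step 1 63 113 (.step 3 64 8 (.step 0 73 14 (.step 1 66 83 (.step 1 68 129 (.step 7 70 8 (.step 1 71 76 (.step 9 72 9 (.step 1 73 77 (.step 0 80 23 (.step 1 73 83 (.step 1 75 0 (.step 1 75 46 (.step 1 75 38 (.step 0 85 59 (.step 1 75 64 (.step 1 75 72 (.step 0 88 60 (.step 1 75 116 (.step 1 75 128 (.step 0 91 65 (.step 1 76 82 (.step 1 76 116 (.step 1 76 106 (.step 7 76 9 (.step 1 77 83 (.step 1 79 129 (.step 1 80 68 (.step 9 80 8 (.step 9 82 8 (.step 3 92 9 (.step 3 93 9 (.step 1 97 0 (.step 1 97 34 (.step 1 97 64 (.step 1 98 76 (.step 0 41 107 (.split [82] [76,129,82] e8_71 e8_114)))))))))))))))))))))))))))))))))))))))))))))))))))))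

def e8_116 : Cert :=
  (.step 8 107 5 (.step 0 117 114 (.step 0 117 116 (.step 1 108 39 (.step 0 120 98 (.step 1 110 39 (.step 2 118 3 (.step 6 120 5 (.step 0 124 109 (.step 9 121 6 (.step 0 125 126 (.step 6 122 5 (.step 0 103 128 (.step 0 129 51 (.step 1 123 69 (.step 1 127 69 (.step 3 130 0 (.step 0 119 133 (.step 0 134 29 (.step 0 119 133 (.step 0 136 112 (.step 8 131 3 (.step 1 132 116 (.step 0 138 139 (.step 1 135 35 (.step 1 137 35 (.step 8 141 2 (.step 0 127 143 (.step 1 142 64 (.step 0 145 144 (.step 1 143 69 (.step 5 146 1 (.step 0 148 140 (.step 1 147 116 (.step 0 150 149 (.contra 151))))))))))))))))))))))))))))))))))))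

def e8_117 : Cert :=
  (.step 2 56 9 (.step 3 55 9 (.step 1 57 113 (.step 1 58 113 (.step 1 59 82 (.step 1 59 116 (.step 1 59 128 (.step 0 63 55 (.step 8 59 9 (.step 0 61 65 (.step 1 60 82 (.step 0 64 67 (.step 1 60 116 (.step 0 69 3 (.step 1 62 107 (.step 1 66 65 (.step 1 66 73 (.step 1 66 77 (.step 1 68 77 (.step 3 70 8 (.step 0 76 66 (.step 1 71 76 (.step 1 72 34 (.step 1 73 106 (.step 1 75 112 (.step 1 76 73 (.step 0 82 73 (.step 1 76 77 (.step 0 84 74 (.step 2 77 7 (.step 0 62 86 (.step 1 82 106 (.step 0 88 80 (.step 9 84 8 (.step 0 81 90 (.step 6 85 7 (.step 0 92 91 (.step 1 86 107 (.step 0 71 94 (.step 5 87 4 (.step 0 77 96 (.step 1 93 39 (.step 1 94 76 (.step 0 78 99 (.step 0 100 77 (.step 9 95 4 (.step 0 66 102 (.step 0 101 102 (.step 1 96 65 (.step 1 96 73 (.step 0 83 106 (.step 4 97 5 (.step 1 98 76 (.step 4 104 5 (.step 1 105 34 (.step 0 79 111 (.step 7 106 4 (.step 0 89 113 (.step 0 89 113 (.step 0 115 25 e8_116))))))))))))))))))))))))))))))))))))))))))))))))))))))))))))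

def e8_118 : Cert :=
  (.split [128,117,112] [82,117,112] e8_115 e8_117)

def e8_119 : Cert :=
  (.step 3 46 6 (.step 1 47 47 (.step 9 48 6 (.step 0 49 2 (.step 0 49 24 (.step 1 50 77 (.step 1 52 38 (.step 1 52 72 (.split [82,117,112] [128,117,112] e8_70 e8_118)))))))))

def e8_120 : Cert :=
  (.step 2 46 6 (.step 1 47 47 (.step 1 48 76 (.step 0 46 49 (.step 0 50 37 (.step 0 46 49 (.step 0 52 39 (.step 0 49 39 (.step 8 48 6 (.step 0 55 54 (.step 2 56 0 (.step 1 57 35 (.step 0 48 58 (.step 1 58 64 (.step 0 53 60 (.step 9 59 2 (.step 0 62 51 (.step 0 62 61 (.step 10 63 1 (.step 4 64 1 (.step 1 65 116 (.step 0 67 66 (.contra 68)))))))))))))))))))))))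

def e8_121 : Cert :=
  (.split [76,39,116] [0,39,116] e8_119 e8_120)

def e8_122 : Cert :=
  (.step 1 34 113 (.step 3 34 8 (.step 0 36 15 (.step 0 36 5 (.step 0 36 16 (.step 1 35 46 (.step 7 35 8 (.step 1 38 77 (.step 3 40 8 (.step 1 42 46 (.split [0,39,116] [76,39,116] e8_67 e8_121)))))))))))

def e8_123 : Cert :=
  (.step 7 89 4 (.step 0 65 95 (.step 0 65 95 (.step 0 97 67 (.step 4 91 5 (.step 8 92 5 (.step 0 100 96 (.step 0 100 98 (.step 0 78 100 (.step 5 94 4 (.step 1 99 39 (.step 1 101 39 (.step 0 58 106 (.step 5 102 6 (.step 1 104 73 (.step 6 105 5 (.step 0 87 110 (.step 9 107 6 (.step 0 111 112 (.step 0 113 24 (.step 1 108 1 (.step 7 109 4 (.step 0 100 116 (.step 0 117 84 (.step 0 103 116 (.step 1 114 1 (.step 1 115 38 (.step 0 121 118 (.step 1 115 76 (.step 2 119 3 (.step 0 104 124 (.step 0 125 80 (.step 1 120 64 (.step 3 123 6 (.step 1 126 69 (.step 3 127 0 (.step 0 128 130 (.step 9 129 1 (.step 0 122 132 (.step 4 131 2 (.step 10 133 2 (.step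 1 134 69 (.step 0 136 135 (.contra 137))))))))))))))))))))))))))))))))))))))))))))

def e8_124 : Cert :=
  (.step 0 34 8 (.step 0 6 34 (.step 1 34 113 (.step 0 37 1 (.step 4 35 9 (.step 0 5 39 (.step 4 36 9 (.step 3 33 8 (.step 0 42 5 (.step 0 42 40 (.step 0 42 41 (.step 1 37 38 (.step 1 37 68 (.step 0 47 26 (.step 1 37 76 (.step 0 49 43 (.step 1 37 116 (.step 0 51 27 (.step 1 37 128 (.step 8 38 9 (.step 0 54 53 (.step 1 39 73 (.step 1 39 129 (.step 1 43 77 (.step 2 45 7 (.step 0 34 59 (.step 0 60 7 (.step 0 34 59 (.step 0 36 59 (.step 1 54 129 (.step 1 56 106 (.step 1 57 82 (.step 1 58 46 (.step 1 58 38 (.step 0 46 68 (.step 1 58 72 (.step 1 61 107 (.step 5 61 4 (.step 1 62 107 (.step 5 63 4 (.step 0 55 74 (.step 0 75 70 (.step 1 64 38 (.step 0 77 69 (.step 1 64 68 (.step 0 79 48 (.step 1 64 76 (.step 0 81 50 (.step 1 64 116 (.step 0 83 52 (.step 2 66 9 (.step 9 71 4 (.step 0 39 86 (.step 0 44 86 (.step 1 72 73 (.step 1 73 76 (.step 0 90 88 (.step 1 76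 73 (.step 2 82 7 (.step 0 85 93 e8_123))))))))))))))))))))))))))))))))))))))))))))))))))))))))))))

def e8_125 : Cert :=
  (.split [112,47,116] [116] e8_122 e8_124)

def e8_126 : Cert :=
  (.step 1 1 0 (.step 1 1 46 (.step 1 1 68 (.step 1 1 82 (.step 1 1 116 (.step 1 1 106 (.step 1 1 112 (.step 7 1 10 (.step 1 3 35 (.step 1 3 39 (.step 1 3 117 (.step 1 3 107 (.step 3 3 10 (.step 0 5 14 (.step 3 6 10 (.step 1 9 65 (.step 1 10 0 (.step 1 10 68 (.step 7 12 10 (.step 1 13 38 (.step 1 14 65 (.step 1 14 77 (.step 1 17 0 (.step 1 17 46 (.step 1 17 68 (.step 1 17 116 (.step 1 22 46 (.step 1 22 34 (.step 1 22 72 (.step 1 22 116 (.step 0 31 25 (.split [116] [112,47,116] e8_66 e8_125))))))))))))))))))))))))))))))))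

def e8_127 : Cert :=
  (.step 0 112 81 (.step 0 111 81 (.step 1 107 73 (.step 1 113 39 (.step 6 115 4 (.step 0 95 117 (.step 0 118 114 (.step 1 116 68 (.step 3 119 3 (.step 0 67 121 (.step 0 122 98 (.step 0 120 121 (.step 0 124 98 (.step 1 123 69 (.step 4 123 1 (.step 1 125 69 (.step 8 126 1 (.step 0 129 5 (.step 1 127 35 (.step 0 131 13 (.step 1 128 38 (.step 0 130 133 (.step 1 129 35 (.step 8 132 0 (.step 0 30 136 (.step 5 134 2 (.step 0 137 138 (.step 1 135 0 (.step 0 140 139 (.contra 141))))))))))))))))))))))))))))))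

def e8_128 : Cert :=
  (.step 3 52 8 (.step 1 53 83 (.step 1 54 112 (.step 0 43 55 (.step 9 54 8 (.step 0 56 57 (.step 0 58 46 (.step 0 56 57 (.step 0 60 47 (.step 0 57 46 (.step 1 59 113 (.step 0 63 12 (.step 5 61 9 (.step 1 62 113 (.step 1 63 68 (.step 1 63 116 (.step 0 2 68 (.step 1 63 106 (.step 7 63 8 (.step 0 9 71 (.step 0 72 27 (.step 9 64 9 (.step 0 29 74 (.step 0 75 7 (.step 0 29 74 (.step 0 77 71 (.step 1 65 73 (.step 1 65 129 (.step 1 66 38 (.step 1 74 129 (.step 3 78 7 (.step 0 70 83 (.step 0 84 2 (.step 0 83 69 (.step 1 79 106 (.step 0 87 41 (.step 1 80 82 (.step 1 82 76 (.step 0 73 90 (.step 0 91 44 (.step 1 82 116 (.step 0 28 93 (.step 0 94 45 (.step 4 85 4 (.step 4 86 4 (.step 0 97 76 (.step 3 89 9 (.step 0 51 99 (.step 0 100 45 (.step 3 92 7 (.step 0 102 101 (.step 1 96 73 (.step 1 98 73 (.step 0 66 105 (.step 4 103 4 (.step 6 104 4 (.step 0 2 108 (.step 0 109 88 (.step 9 106 5 (.step 0 110 111 e8_127))))))))))))))))))))))))))))))))))))))))))))))))))))))))))))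

def e8_129 : Cert :=
  (.step 0 39 292 (.step 0 293 269 (.zero [(256,168),(272,160),(257,280),(275,225),(283,110),(277,291),(243,286),(288,248),(62,294),(72,250),(2,5)])))

def e8_130 : Cert :=
  (.step 1 213 1 (.step 1 214 1 (.step 1 219 68 (.step 0 235 186 (.step 0 235 193 (.step 1 219 106 (.step 0 238 208 (.step 1 219 112 (.step 0 240 211 (.step 0 240 227 (.step 4 221 6 (.step 1 222 117 (.step 2 222 3 (.step 5 232 6 (.step 0 144 246 (.step 0 247 216 (.step 0 144 246 (.step 0 249 217 (.step 0 246 213 (.step 0 246 214 (.step 0 246 215 (.step 0 246 218 (.step 8 233 6 (.step 0 255 252 (.step 0 255 253 (.step 1 234 34 (.step 0 258 229 (.step 1 234 68 (.step 0 260 236 (.step 0 245 260 (.step 0 262 237 (.step 1 234 106 (.step 0 264 239 (.step 1 234 112 (.step 0 265 266 (.step 0 267 242 (.step 0 266 241 (.step 1 244 34 (.step 0 31 270 (.step 0 271 259 (.step 1 244 38 (.step 0 32 273 (.step 0 274 2 (.step 0 32 273 (.step 0 276 94 (.step 1 244 68 (.step 0 33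 278 (.step 0 279 261 (.step 1 244 72 (.step 0 34 281 (.step 0 282 263 (.step 1 244 76 (.step 0 35 284 (.step 0 285 251 (.step 0 35 284 (.step 0 287 254 (.step 1 244 106 (.step 0 38 289 (.step 0 290 268 (.step 1 244 112 e8_129))))))))))))))))))))))))))))))))))))))))))))))))))))))))))))

def e8_131 : Cert :=
  (.step 0 171 90 (.step 1 163 112 (.step 1 164 106 (.step 0 175 150 (.step 1 165 35 (.step 0 10 177 (.step 0 178 162 (.step 1 166 38 (.step 0 21 180 (.step 1 166 68 (.step 0 22 182 (.step 7 166 1 (.step 0 22 184 (.step 0 185 168 (.step 0 22 184 (.step 0 22 184 (.step 0 188 56 (.step 0 22 184 (.step 0 190 9 (.step 0 22 184 (.step 0 192 70 (.step 9 167 0 (.step 0 194 20 (.step 0 187 194 (.step 1 168 1 (.step 1 177 0 (.step 0 195 198 (.step 0 199 170 (.step 1 177 38 (.step 0 21 201 (.step 0 202 172 (.step 0 21 201 (.step 0 204 173 (.step 1 177 106 (.step 0 23 206 (.step 0 207 176 (.step 1 177 112 (.step 0 24 209 (.step 0 210 174 (.step 8 179 2 (.step 0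 212 186 (.step 0 212 187 (.step 0 212 183 (.step 0 212 189 (.step 0 212 191 (.step 0 212 193 (.step 1 194 1 (.step 3 196 2 (.step 0 220 181 (.step 0 220 203 (.step 0 220 205 (.step 0 5 220 (.step 0 224 181 (.step 0 211 220 (.step 0 226 181 (.step 7 197 0 (.step 0 228 2 (.step 3 200 6 (.step 0 223 230 (.step 0 231 148 e8_130))))))))))))))))))))))))))))))))))))))))))))))))))))))))))))

def e8_132 : Cert :=
  (.step 2 99 9 (.step 2 103 7 (.step 0 113 114 (.step 1 106 76 (.step 0 116 83 (.step 9 107 4 (.step 0 40 118 (.step 0 117 118 (.step 1 110 73 (.step 1 112 73 (.step 0 122 74 (.step 5 115 4 (.step 4 120 5 (.step 7 121 4 (.step 0 97 126 (.step 0 127 5 (.step 8 123 5 (.step 0 90 129 (.step 0 130 128 (.step 0 90 129 (.step 0 129 128 (.step 0 101 129 (.step 1 124 73 (.step 1 125 39 (.step 1 131 39 (.step 1 133 39 (.step 7 135 4 (.step 0 132 139 (.step 0 140 104 (.step 0 134 139 (.step 6 136 5 (.step 0 119 143 (.step 1 137 68 (.step 1 137 116 (.step 0 141 146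 (.step 1 138 46 (.step 1 138 112 (.step 0 105 149 (.step 2 141 3 (.step 0 112 151 (.step 0 152 75 (.step 0 112 151 (.step 0 154 145 (.step 0 112 151 (.step 2 142 3 (.step 0 124 157 (.step 1 153 69 (.step 5 153 1 (.step 0 2 160 (.step 1 155 69 (.step 1 156 69 (.step 1 158 69 (.step 9 159 1 (.step 1 160 35 (.step 0 10 166 (.step 5 161 0 (.step 1 163 0 (.step 0 169 89 (.step 1 163 38 (.step 0 171 147 e8_131))))))))))))))))))))))))))))))))))))))))))))))))))))))))))))

def e8_133 : Cert :=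
  (.step 2 52 8 (.step 1 53 83 (.step 1 54 76 (.step 0 55 48 (.step 1 54 112 (.step 0 57 49 (.step 0 57 50 (.step 8 54 8 (.step 0 42 60 (.step 0 61 58 (.step 0 42 60 (.step 0 63 59 (.step 0 42 60 (.step 1 62 113 (.step 0 66 14 (.step 4 64 9 (.step 0 37 68 (.step 0 69 26 (.step 0 36 68 (.step 0 71 26 (.step 0 36 68 (.step 1 65 113 (.step 1 66 68 (.step 1 66 116 (.step 0 76 5 (.step 1 66 106 (.step 0 78 38 (.step 6 66 8 (.step 0 80 7 (.step 0 80 36 (.step 0 80 73 (.step 8 67 9 (.step 0 37 84 (.step 0 82 84 (.step 1 70 73 (.step 1 70 129 (.step 1 74 0 (.step 1 74 38 (.step 1 85 129 (.step 0 91 74 (.step 2 86 7 (.step 0 93 78 (.step 0 93 79 (.step 0 77 93 (.step 1 87 106 (.step 1 88 82 (.step 0 98 7 (.step 1 91 38 (.step 0 100 90 (.step 1 91 76 (.step 0 102 81 (.step 1 91 116 (.step 6 92 7 (.step 1 93 107 (.step 0 106 67 (.step 5 95 4 (.step 0 40 108 (.step 0 109 25 (.step 5 96 4 (.step 0 85 111 e8_132))))))))))))))))))))))))))))))))))))))))))))))))))))))))))))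

def e8_134 : Cert :=
  (.step 1 1 46 (.step 1 1 64 (.step 6 1 10 (.step 1 0 46 (.step 1 0 64 (.step 0 4 6 (.step 7 0 10 (.step 0 3 8 (.step 1 2 35 (.step 1 2 117 (.step 1 2 113 (.step 1 5 35 (.step 1 5 117 (.step 1 7 73 (.step 1 7 83 (.step 1 7 129 (.step 1 9 83 (.step 1 9 129 (.step 1 10 0 (.step 1 10 38 (.step 1 10 68 (.step 1 10 106 (.step 1 10 112 (.step 1 11 72 (.step 1 11 128 (.step 1 12 76 (.step 1 12 116 (.step 1 12 128 (.step 1 13 0 (.step 1 14 34 (.step 1 14 38 (.step 1 14 68 (.step 1 14 72 (.step 1 14 76 (.step 1 14 82 (.step 0 9 36 (.step 1 14 106 (.step 1 14 112 (.step 1 14 128 (.step 1 15 106 (.step 1 16 46 (.step 1 16 112 (.step 1 17 76 (.step 1 17 116 (.step 1 18 46 (.step 0 46 2 (.step 1 18 76 (.step 1 18 112 (.step 0 49 39 (.step 1 19 112 (.split [112,77,64] [46,77,64] e8_128 e8_133)))))))))))))))))))))))))))))))))))))))))))))))))))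

def e8_135 : Cert :=
  (.split [47,116] [] e8_126 e8_134)

def e8_136 : Cert :=
  (.split [] [47,116] e8_62 e8_135)

/-- The word has a certificate. -/
theorem e8_check : check (boxes (Chain.nat (k := 3) [0, 1, 0, 1, 2, 1, 0, 2, 1, 2, 1])) e8_136 .lf 0 = true := by
  decide +kernel

end Pool.Agent.K7.H46.LO
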