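import Pool.Agent.K7.H46.LO.Main

set_option autoImplicit false

/-!
# The certificate for the word [0, 2, 1, 3, 0, 2, 1, 3, 0, 2, 1, 3]
-/

namespace Pool.Agent.K7.H46.LO

def f8_0 : Cert :=
  (.step 0 65 76 (.step 1 76 0 (.step 1 76 34 (.step 0 79 62 (.step 8 77 0 (.step 0 78 81 (.step 0 82 68 (.step 0 78 81 (.step 0 84 69 (.step 0 78 81 (.step 0 86 72 (.step 1 83 79 (.step 2 83 8 (.step 0 62 89 (.step 0 80 89 (.step 1 85 137 (.step 1 87 71 (.step 1 88 42 (.step 1 90 43 (.step 0 95 76 (.step 5 91 4 (.step 1 93 34 (.step 1 95 0 (.step 9 96 4 (.step 0 75 100 (.step 0 101 99 (.step 1 97 71 (.step 0 88 103 (.step 0 92 103 (.step 1 102 129 (.step 0 92 106 (.step 7 103 4 (.step 0 94 108 (.step 0 109 98 (.step 9 104 6 (.step 0 111 110 (.step 6 105 5 (.step 0 113 112 (.step 1 106 160 (.step 0 114 115 (.step 9 107 3 (.step 0 117 116 (.contra 118)))))))))))))))))))))))))))))))))))))))))))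

def f8_1 : Cert :=
  (.step 0 16 10 (.step 2 16 9 (.step 0 18 5 (.step 1 18 117 (.step 0 20 8 (.step 1 18 101 (.step 0 22 9 (.step 2 19 11 (.step 0 24 10 (.step 1 20 128 (.step 0 26 12 (.step 6 21 11 (.step 0 16 28 (.step 1 22 70 (.step 0 30 14 (.step 5 25 3 (.step 1 32 117 (.step 0 21 33 (.step 1 32 101 (.step 0 35 21 (.step 0 35 1 (.step 0 23 35 (.step 1 33 128 (.step 0 29 39 (.step 9 34 1 (.step 0 40 41 (.step 1 35 70 (.step 0 43 2 (.step 0 31 43 (.step 0 45 2 (.step 7 35 3 (.step 0 47 27 (.step 9 36 1 (.step 0 29 49 (.step 0 48 49 (.step 8 37 5 (.step 0 2 52 (.step 0 53 47 (.step 0 44 52 (.step 0 55 51 (.step 0 46 52 (.step 0 57 47 (.step 9 38 1 (.step 0 54 59 (.step 0 58 59 (.step 5 42 10 (.step 4 56 2 (.step 4 61 2 (.step 1 62 51 (.step 1 63 35 (.step 1 64 35 (.step 7 65 10 (.step 0 68 17 (.step 0 68 50 (.step 6 66 2 (.step 0 70 71 (.step 6 67 2 (.step 0 60 73 (.step 0 59 73 (.step 1 74 71 f8_0))))))))))))))))))))))))))))))))))))))))))))))))))))))))))))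

def f8_2 : Cert :=
  (.step 0 205 194 (.step 0 144 204 (.step 0 207 195 (.step 9 201 9 (.step 0 74 209 (.step 0 210 206 (.step 0 74 209 (.step 0 212 144 (.step 0 74 209 (.step 0 214 208 (.step 5 215 6 (.step 1 216 43 (.step 7 217 6 (.step 0 218 211 (.step 0 218 213 (.step 1 219 79 (.step 0 221 157 (.step 1 220 79 (.step 9 222 4 (.step 0 203 224 (.step 1 223 0 (.step 0 226 225 (.contra 227)))))))))))))))))))))))

def f8_3 : Cert :=
  (.step 0 145 119 (.step 8 130 0 (.step 0 147 146 (.step 7 132 10 (.step 8 134 0 (.step 0 120 150 (.step 0 151 149 (.step 1 136 87 (.step 0 153 127 (.step 1 137 87 (.step 0 155 126 (.step 1 138 71 (.step 4 140 2 (.step 0 141 158 (.step 1 152 79 (.step 0 160 125 (.step 8 154 2 (.step 0 141 162 (.step 1 155 100 (.step 0 163 164 (.step 7 156 1 (.step 0 163 166 (.step 1 160 42 (.step 0 168 165 (.step 0 168 159 (.step 0 168 167 (.step 9 161 6 (.step 0 172 169 (.step 0 172 170 (.step 0 172 171 (.step 1 173 109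 (.step 4 174 5 (.step 1 176 70 (.step 0 178 73 (.step 0 178 143 (.step 0 178 106 (.step 0 178 74 (.step 1 176 78 (.step 1 177 137 (.step 1 179 137 (.step 0 185 126 (.step 1 180 145 (.step 1 181 145 (.step 1 182 145 (.step 6 184 5 (.step 0 190 175 (.step 9 186 3 (.step 0 192 191 (.step 1 187 78 (.step 0 194 183 (.step 1 188 0 (.step 0 196 148 (.step 3 193 11 (.step 1 198 145 (.step 0 128 199 (.step 0 200 189 (.step 1 199 0 (.step 0 202 197 (.step 1 199 78 (.step 0 144 204 f8_2))))))))))))))))))))))))))))))))))))))))))))))))))))))))))))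

def f8_4 : Cert :=
  (.step 0 54 84 (.step 0 53 84 (.step 0 66 84 (.step 1 81 50 (.step 7 81 6 (.step 0 90 65 (.step 0 90 88 (.step 6 82 2 (.step 0 71 93 (.step 1 85 71 (.step 1 88 71 (.step 0 81 96 (.step 1 91 79 (.step 1 94 71 (.step 0 98 99 (.step 1 95 0 (.step 1 95 34 (.step 1 96 50 (.step 0 89 103 (.step 1 96 144 (.step 0 74 105 (.step 9 97 4 (.step 0 85 107 (.step 0 86 107 (.step 0 92 107 (.step 0 87 107 (.step 1 98 0 (.step 0 108 112 (.step 0 109 112 (.step 0 107 112 (.step 0 111 112 (.step 1 98 50 (.step 1 98 86 (.step 0 118 83 (.step 1 99 0 (.step 3 110 8 (.step 0 121 104 (.step 0 102 121 (.step 0 123 117 (.step 1 113 71 (.step 1 114 129 (.step 1 115 71 (.step 1 116 129 (.step 1 121 51 (.step 0 129 97 (.step 0 26 129 (.step 0 131 98 (.step 0 26 129 (.step 0 133 100 (.step 4 122 0 (.step 0 101 135 (.step 4 124 0 (.step 0 137 83 (.step 1 125 86 (.step 0 137 139 (.step 7 125 4 (.step 1 127 144 (.step 0 106 142 (.step 1 128 78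 (.step 1 129 86 f8_3))))))))))))))))))))))))))))))))))))))))))))))))))))))))))))

def f8_5 : Cert :=
  (.step 1 25 51 (.step 1 25 117 (.step 1 25 101 (.step 2 25 11 (.step 0 29 17 (.step 0 29 10 (.step 0 29 18 (.step 1 27 128 (.step 1 28 70 (.step 5 31 3 (.step 0 25 35 (.step 1 35 101 (.step 0 37 27 (.step 0 37 1 (.step 0 28 37 (.step 1 35 109 (.step 0 1 41 (.step 5 36 1 (.step 1 37 70 (.step 0 44 2 (.step 0 34 44 (.step 0 46 2 (.step 7 37 3 (.step 0 48 43 (.step 0 48 30 (.step 0 48 33 (.step 0 48 32 (.step 9 38 1 (.step 0 33 53 (.step 0 51 53 (.step 8 39 5 (.step 0 2 56 (.step 0 57 49 (.step 0 2 56 (.step 0 59 48 (.step 0 2 56 (.step 0 61 55 (.step 0 45 56 (.step 0 63 55 (.step 0 56 50 (.step 0 56 55 (.step 0 56 52 (.step 0 47 56 (.step 0 68 48 (.step 9 40 1 (.step 0 60 70 (.step 0 69 70 (.step 8 42 5 (.step 0 73 6 (.step 4 58 2 (.step 4 64 2 (.step 5 67 6 (.step 4 72 2 (.step 1 75 35 (.step 1 76 35 (.step 1 77 43 (.step 1 78 35 (.step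 6 79 2 (.step 6 80 2 (.step 0 62 84 f8_4))))))))))))))))))))))))))))))))))))))))))))))))))))))))))))

def f8_6 : Cert :=
  (.step 1 220 71 (.step 0 222 159 (.step 1 221 71 (.step 9 223 0 (.step 0 199 225 (.step 1 224 0 (.step 0 227 226 (.contra 228))))))))

def f8_7 : Cert :=
  (.step 1 154 71 (.step 0 162 127 (.step 8 156 10 (.step 0 143 164 (.step 1 157 116 (.step 0 165 166 (.step 7 158 9 (.step 0 165 168 (.step 1 162 34 (.step 0 170 167 (.step 0 170 161 (.step 0 170 169 (.step 9 163 2 (.step 0 174 171 (.step 0 174 172 (.step 0 174 173 (.step 1 175 101 (.step 4 176 1 (.step 1 178 86 (.step 0 180 61 (.step 0 180 145 (.step 0 180 108 (.step 0 180 62 (.step 1 178 70 (.step 1 179 129 (.step 1 181 129 (.step 0 187 128 (.step 1 182 137 (.step 1 183 137 (.step 1 184 137 (.step 6 186 1 (.step 0 192 177 (.step 9 188 11 (.step 0 194 193 (.step 1 189 70 (.step 0 196 185 (.step 1 190 0 (.step 0 198 150 (.step 3 195 7 (.step 1 200 137 (.step 0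 130 201 (.step 0 202 191 (.step 1 201 70 (.step 0 146 204 (.step 0 205 196 (.step 0 146 204 (.step 0 146 204 (.step 0 208 197 (.step 9 203 5 (.step 0 62 210 (.step 0 211 206 (.step 0 62 210 (.step 0 213 207 (.step 0 62 210 (.step 0 215 209 (.step 5 216 2 (.step 1 217 35 (.step 7 218 2 (.step 0 219 212 (.step 0 219 214 f8_6))))))))))))))))))))))))))))))))))))))))))))))))))))))))))))

def f8_8 : Cert :=
  (.step 0 100 101 (.step 1 97 0 (.step 1 97 50 (.step 1 98 42 (.step 0 91 105 (.step 1 98 136 (.step 0 62 107 (.step 9 99 0 (.step 0 87 109 (.step 0 88 109 (.step 0 94 109 (.step 0 90 109 (.step 1 100 0 (.step 0 110 114 (.step 0 111 114 (.step 0 109 114 (.step 0 113 114 (.step 1 100 42 (.step 1 100 78 (.step 0 120 85 (.step 1 101 0 (.step 3 112 4 (.step 0 123 106 (.step 0 104 123 (.step 0 125 119 (.step 1 115 87 (.step 1 116 145 (.step 1 117 87 (.step 1 118 145 (.step 1 123 43 (.step 0 131 99 (.step 0 7 131 (.step 0 133 100 (.step 0 7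 131 (.step 0 135 102 (.step 4 124 8 (.step 0 103 137 (.step 4 126 8 (.step 0 139 85 (.step 1 127 78 (.step 0 139 141 (.step 7 127 0 (.step 1 129 136 (.step 0 108 144 (.step 1 130 70 (.step 1 131 78 (.step 0 147 121 (.step 8 132 8 (.step 0 149 148 (.step 7 134 6 (.step 8 136 8 (.step 0 122 152 (.step 0 153 151 (.step 1 138 79 (.step 0 155 129 (.step 1 139 79 (.step 0 157 128 (.step 1 140 87 (.step 4 142 10 (.step 0 143 160 f8_7))))))))))))))))))))))))))))))))))))))))))))))))))))))))))))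

def f8_9 : Cert :=
  (.step 0 41 9 (.step 0 41 21 (.step 0 27 41 (.step 0 44 9 (.step 1 41 86 (.step 0 46 13 (.step 0 30 46 (.step 0 48 13 (.step 0 22 46 (.step 0 50 13 (.step 1 41 70 (.step 0 52 14 (.step 1 41 136 (.step 0 34 54 (.step 9 41 5 (.step 0 55 56 (.step 0 55 56 (.step 0 58 53 (.step 6 42 3 (.step 8 43 1 (.step 0 61 60 (.step 8 45 1 (.step 0 47 63 (.step 0 64 33 (.step 0 47 63 (.step 0 66 35 (.step 0 47 63 (.step 0 68 36 (.step 0 49 63 (.step 0 70 35 (.step 0 63 57 (.step 0 63 35 (.step 0 63 59 (.step 0 51 63 (.step 0 75 36 (.step 4 65 10 (.step 4 71 10 (.step 5 74 2 (.step 4 76 10 (.step 1 77 51 (.step 1 78 51 (.step 1 79 35 (.step 1 80 51 (.step 6 81 10 (.step 6 82 10 (.step 0 67 86 (.step 0 24 86 (.step 0 73 86 (.step 0 37 86 (.step 1 83 42 (.step 7 83 2 (.step 0 92 72 (.step 0 92 89 (.step 6 84 10 (.step 0 69 95 (.step 1 87 87 (.step 1 89 87 (.step 0 83 98 (.step 1 93 71 (.step 1 96 87 f8_8))))))))))))))))))))))))))))))))))))))))))))))))))))))))))))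

def f8_10 : Cert :=
  (.step 1 133 145 (.step 0 119 137 (.step 7 134 0 (.step 0 126 139 (.step 0 140 125 (.step 9 135 2 (.step 0 142 141 (.step 6 136 1 (.step 0 144 143 (.step 1 137 160 (.step 0 145 146 (.step 9 138 11 (.step 0 148 147 (.contra 149))))))))))))))

def f8_11 : Cert :=
  (.step 0 27 76 (.step 1 76 86 (.step 0 30 78 (.step 0 22 78 (.step 1 76 100 (.step 8 77 1 (.step 0 78 82 (.step 0 83 36 (.step 0 79 82 (.step 0 85 35 (.step 0 80 82 (.step 0 87 36 (.step 2 81 3 (.step 0 65 89 (.step 4 86 10 (.step 4 88 10 (.step 1 91 51 (.step 1 92 51 (.step 6 93 10 (.step 0 66 95 (.step 6 94 10 (.step 0 84 97 (.step 0 98 52 (.step 0 84 97 (.step 0 23 97 (.step 0 101 52 (.step 1 99 87 (.step 0 67 103 (.step 1 100 87 (.step 0 59 105 (.step 1 103 0 (.step 1 103 50 (.step 0 108 71 (.step 8 104 8 (.step 0 107 110 (.step 0 111 90 (.step 0 107 110 (.step 0 113 96 (.step 1 105 0 (.step 8 106 8 (.step 0 115 116 (.step 0 117 61 (.step 1 112 129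 (.step 1 114 87 (.step 1 118 71 (.step 2 118 4 (.step 0 71 122 (.step 0 109 122 (.step 1 120 50 (.step 1 121 34 (.step 1 123 35 (.step 0 127 103 (.step 5 124 0 (.step 1 127 0 (.step 9 128 0 (.step 0 102 131 (.step 0 132 130 (.step 1 129 87 (.step 0 121 134 (.step 0 119 134 f8_10))))))))))))))))))))))))))))))))))))))))))))))))))))))))))))

def f8_12 : Cert :=
  (.step 0 224 36 (.step 0 220 223 (.step 0 226 36 (.step 0 222 223 (.step 0 228 36 (.step 4 229 10 (.step 1 230 51 (.step 6 231 10 (.step 0 225 232 (.step 0 227 232 (.step 1 233 87 (.step 0 170 235 (.step 1 234 87 (.step 8 236 8 (.step 0 238 212 (.step 1 237 0 (.step 0 240 239 (.contra 241))))))))))))))))))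

def f8_13 : Cert :=
  (.step 1 149 128 (.step 0 165 100 (.step 1 150 86 (.step 1 151 71 (.step 0 148 168 (.step 1 152 79 (.step 1 160 87 (.step 0 147 171 (.step 1 161 108 (.step 0 164 173 (.step 9 162 6 (.step 0 175 163 (.step 0 174 175 (.step 0 177 163 (.step 1 168 108 (.step 0 179 176 (.step 6 169 5 (.step 0 181 176 (.step 1 171 50 (.step 0 180 183 (.step 0 178 183 (.step 0 182 183 (.step 8 172 10 (.step 0 184 187 (.step 0 185 187 (.step 0 186 187 (.step 1 188 117 (.step 5 189 9 (.step 1 191 86 (.step 1 191 78 (.step 0 23 194 (.step 0 166 194 (.step 0 100 194 (.step 0 36 194 (.step 1 192 145 (.step 1 195 145 (.step 0 148 200 (.step 1 196 129 (.step 1 197 129 (.step 1 198 129 (.step 7 199 9 (.step 0 190 205 (.step 8 201 7 (.step 0 206 207 (.step 1 202 86 (.step 0 193 209 (.step 1 203 0 (.step 0 157 211 (.step 2 208 3 (.step 1 213 129 (.step 0 204 214 (.step 0 215 150 (.step 1 214 86 (.step 0 209 217 (.step 0 218 167 (.step 0 217 167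 (.step 0 210 217 (.step 0 221 167 (.step 8 216 1 (.step 0 219 223 f8_12))))))))))))))))))))))))))))))))))))))))))))))))))))))))))))

def f8_14 : Cert :=
  (.step 1 104 86 (.step 0 30 105 (.step 8 104 1 (.step 0 105 107 (.step 0 108 90 (.step 0 106 107 (.step 0 110 90 (.step 4 111 10 (.step 1 112 51 (.step 0 87 113 (.step 0 69 113 (.step 1 113 34 (.step 0 94 116 (.step 6 113 10 (.step 0 109 118 (.step 0 98 118 (.step 8 114 8 (.step 0 121 96 (.step 0 121 97 (.step 0 121 120 (.step 0 121 103 (.step 1 119 87 (.step 2 124 0 (.step 0 127 80 (.step 0 117 127 (.step 1 126 0 (.step 0 130 122 (.step 0 130 123 (.step 0 130 121 (.step 0 130 125 (.step 1 126 34 (.step 0 135 128 (.step 1 126 70 (.step 0 61 137 (.step 1 127 35 (.step 0 126 139 (.step 0 140 85 (.step 0 114 139 (.step 0 115 139 (.step 0 143 85 (.step 5 129 4 (.step 0 145 92 (.step 1 131 79 (.step 1 132 137 (.step 1 133 79 (.step 1 134 137 (.step 5 136 4 (.step 0 61 151 (.step 1 139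 70 (.step 0 138 153 (.step 6 141 2 (.step 9 142 4 (.step 0 154 156 (.step 9 144 4 (.step 0 155 158 (.step 0 159 70 (.step 1 146 71 (.step 0 149 161 (.step 6 147 8 (.step 1 149 108 f8_13))))))))))))))))))))))))))))))))))))))))))))))))))))))))))))

def f8_15 : Cert :=
  (.step 1 105 86 (.step 9 105 1 (.step 0 82 107 (.step 0 108 106 (.step 0 29 107 (.step 0 110 106 (.step 0 102 107 (.step 0 112 106 (.step 4 109 2 (.step 0 114 71 (.step 1 114 35 (.step 0 67 116 (.step 6 116 2 (.step 0 111 118 (.step 0 113 118 (.step 9 117 4 (.step 0 118 121 (.step 0 122 70 (.step 0 119 121 (.step 0 124 70 (.step 0 120 121 (.step 0 126 70 (.step 1 123 87 (.step 3 123 0 (.step 0 129 114 (.step 0 129 115 (.step 1 125 145 (.step 1 127 79 (.step 1 128 50 (.step 1 130 51 (.step 0 67 135 (.step 4 131 8 (.step 1 133 42 (.step 1 135 0 (.step 8 136 8 (.step 0 139 140 (.step 0 141 65 (.step 1 137 79 (.step 0 143 128 (.step 0 143 132 (.step 1 142 137 (.step 0 146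 132 (.step 6 143 8 (.step 0 138 148 (.step 0 149 134 (.step 8 144 10 (.step 0 150 151 (.step 7 145 9 (.step 0 152 153 (.step 1 146 160 (.step 0 155 154 (.step 8 147 7 (.step 0 157 156 (.contra 158))))))))))))))))))))))))))))))))))))))))))))))))))))))

def f8_16 : Cert :=
  (.step 1 105 86 (.step 0 30 106 (.step 1 105 100 (.step 8 105 1 (.step 0 107 109 (.step 0 110 90 (.step 1 104 86 (.step 1 104 100 (.step 9 104 1 (.step 0 82 114 (.step 0 115 112 (.step 0 102 114 (.step 0 117 112 (.step 1 108 35 (.step 4 111 10 (.step 1 113 43 (.step 0 121 67 (.step 4 116 2 (.step 1 119 70 (.step 1 120 51 (.step 0 87 125 (.step 1 121 0 (.step 0 127 72 (.step 1 123 35 (.step 0 122 129 (.step 0 130 119 (.step 1 125 0 (.step 0 128 132 (.step 8 126 8 (.step 0 133 134 (.step 0 135 118 (.step 6 129 2 (.step 0 136 137 (.step 0 138 124 (.step 9 131 4 (.step 0 140 139 (.contra 141)))))))))))))))))))))))))))))))))))))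

def f8_17 : Cert :=
  (.split [101,116] [] f8_15 f8_16)

def f8_18 : Cert :=
  (.step 0 77 1 (.step 1 77 100 (.step 0 79 71 (.step 7 77 3 (.step 0 48 81 (.step 8 78 5 (.step 0 83 81 (.step 1 79 35 (.step 1 79 43 (.step 0 86 69 (.step 0 86 68 (.step 3 79 3 (.step 0 89 40 (.step 1 86 0 (.step 0 91 70 (.step 1 86 34 (.step 0 93 73 (.step 1 86 78 (.step 0 95 64 (.step 0 95 65 (.step 0 95 66 (.step 1 86 128 (.step 0 99 75 (.step 7 88 6 (.step 0 101 84 (.step 0 101 83 (.split [] [101,116] f8_14 f8_17)))))))))))))))))))))))))))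

def f8_19 : Cert :=
  (.step 0 27 77 (.step 1 77 86 (.step 0 30 79 (.step 0 22 79 (.step 8 78 1 (.step 0 79 82 (.step 0 83 35 (.step 0 79 82 (.step 0 85 36 (.step 0 80 82 (.step 0 87 35 (.step 0 81 82 (.step 0 89 36 (.step 1 76 100 (.step 0 91 71 (.step 4 88 10 (.step 4 90 10 (.step 1 91 43 (.step 0 95 69 (.step 1 93 51 (.step 0 96 97 (.step 1 94 51 (.step 1 95 78 (.step 0 100 66 (.step 6 97 10 (.step 0 84 102 (.step 0 101 102 (.step 8 98 8 (.step 0 105 104 (.step 6 99 10 (.step 0 86 107 (.step 1 103 87 (.step 2 106 0 (.step 0 110 92 (.step 1 108 87 (.step 0 59 112 (.step 1 109 34 (.step 0 114 111 (.step 1 112 0 (.step 8 113 8 (.step 0 116 117 (.step 0 118 61 (.step 5 115 4 (.step 0 120 119 (.contra 121)))))))))))))))))))))))))))))))))))))))))))))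

def f8_20 : Cert :=
  (.split [101,160] [] f8_18 f8_19)

def f8_21 : Cert :=
  (.step 1 42 100 (.step 1 42 136 (.step 0 44 39 (.step 8 42 5 (.step 0 46 45 (.step 0 46 15 (.step 1 43 51 (.step 1 43 109 (.step 5 47 6 (.step 1 49 86 (.step 1 50 78 (.step 0 39 53 (.step 8 50 5 (.step 0 55 39 (.step 0 55 40 (.step 0 55 54 (.step 1 51 43 (.step 5 58 6 (.step 7 59 6 (.step 1 60 43 (.step 7 62 6 (.step 0 63 56 (.step 0 63 55 (.step 0 63 57 (.step 1 64 79 (.step 0 67 1 (.step 1 66 79 (.step 1 67 0 (.step 1 67 42 (.step 1 69 0 (.step 1 69 34 (.step 1 69 128 (.step 0 74 36 (.split [] [101,160] f8_11 f8_20))))))))))))))))))))))))))))))))))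

def f8_22 : Cert :=
  (.step 1 94 71 (.step 1 97 87 (.step 0 89 104 (.step 9 102 0 (.step 0 100 106 (.step 1 103 0 (.step 0 107 108 (.step 1 104 0 (.step 0 109 110 (.step 8 105 8 (.step 0 112 111 (.contra 113))))))))))))

def f8_23 : Cert :=
  (.step 0 27 42 (.step 0 43 9 (.step 1 42 86 (.step 0 45 13 (.step 0 30 45 (.step 0 47 13 (.step 0 22 45 (.step 0 49 13 (.step 1 42 70 (.step 0 51 14 (.step 1 42 100 (.step 1 42 136 (.step 0 34 54 (.step 9 42 5 (.step 0 55 56 (.step 0 55 56 (.step 0 58 52 (.step 8 44 1 (.step 0 46 60 (.step 0 61 36 (.step 0 48 60 (.step 0 63 35 (.step 0 60 57 (.step 0 60 35 (.step 0 60 59 (.step 0 50 60 (.step 0 68 36 (.step 1 41 100 (.step 1 41 136 (.step 0 71 39 (.step 0 71 40 (.step 8 41 5 (.step 0 74 72 (.step 0 74 73 (.step 1 53 43 (.step 4 64 10 (.step 5 67 2 (.step 4 69 10 (.step 1 70 51 (.step 5 75 6 (.step 1 77 78 (.step 1 78 51 (.step 1 79 35 (.step 1 80 51 (.step 1 81 86 (.step 1 82 43 (.step 0 77 88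 (.step 6 84 10 (.step 0 76 90 (.step 0 66 90 (.step 7 85 2 (.step 0 93 65 (.step 6 86 10 (.step 0 62 95 (.step 0 96 87 (.step 7 88 6 (.step 0 83 98 (.step 0 99 91 (.step 1 92 87 (.step 0 85 101 f8_22))))))))))))))))))))))))))))))))))))))))))))))))))))))))))))

def f8_24 : Cert :=
  (.split [101,108] [] f8_21 f8_23)

def f8_25 : Cert :=
  (.step 1 26 117 (.step 0 27 1 (.step 3 26 11 (.step 1 27 86 (.step 1 27 78 (.step 7 27 11 (.step 0 32 17 (.step 0 32 10 (.step 0 32 24 (.step 0 32 23 (.step 9 28 9 (.step 0 6 37 (.step 0 38 31 (.step 0 6 37 (.split [] [101,108] f8_9 f8_24)))))))))))))))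

def f8_26 : Cert :=
  (.step 0 66 86 (.step 0 70 86 (.step 7 83 6 (.step 0 89 69 (.step 0 89 88 (.step 7 84 6 (.step 0 92 75 (.step 1 87 71 (.step 1 88 71 (.step 0 83 95 (.step 1 90 79 (.step 1 93 79 (.step 0 98 81 (.step 1 94 34 (.step 9 96 4 (.step 0 91 101 (.step 1 97 50 (.step 1 98 0 (.step 9 99 4 (.step 0 85 105 (.step 0 106 104 (.step 3 102 8 (.step 0 100 108 (.step 0 109 103 (.step 3 107 0 (.step 0 111 110 (.contra 112)))))))))))))))))))))))))))

def f8_27 : Cert :=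
  (.step 0 25 4 (.step 1 25 117 (.step 0 28 1 (.step 5 27 9 (.step 0 6 30 (.step 1 26 117 (.step 2 26 11 (.step 0 33 10 (.step 1 28 86 (.step 1 28 78 (.step 9 29 9 (.step 0 6 37 (.step 0 38 36 (.step 1 32 100 (.step 1 32 128 (.step 5 34 3 (.step 0 42 40 (.step 1 42 101 (.step 0 44 32 (.step 0 44 1 (.step 1 42 109 (.step 0 1 47 (.step 5 43 1 (.step 0 41 49 (.step 0 50 35 (.step 1 44 70 (.step 0 52 2 (.step 1 44 136 (.step 0 54 39 (.step 0 54 31 (.step 7 44 3 (.step 0 57 51 (.step 0 57 41 (.step 9 45 1 (.step 0 59 60 (.step 8 46 5 (.step 0 2 62 (.step 0 63 58 (.step 0 2 62 (.step 0 65 61 (.step 0 53 62 (.step 0 67 61 (.step 0 62 55 (.step 0 62 61 (.step 0 62 56 (.step 1 47 78 (.step 0 31 72 (.step 8 48 5 (.step 0 74 39 (.step 0 74 73 (.step 4 64 2 (.step 4 68 2 (.step 5 71 6 (.step 5 76 6 (.step 1 77 35 (.step 1 78 35 (.step 1 79 43 (.step 1 80 43 (.step 6 81 2 (.step 6 82 2 f8_26))))))))))))))))))))))))))))))))))))))))))))))))))))))))))))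

def f8_28 : Cert :=
  (.split [160] [116] f8_25 f8_27)

def f8_29 : Cert :=
  (.step 0 17 3 (.step 3 17 9 (.step 1 19 117 (.step 1 19 101 (.step 1 20 86 (.step 9 20 9 (.step 0 23 11 (.split [116] [160] f8_5 f8_28))))))))

def f8_30 : Cert :=
  (.step 7 74 10 (.step 0 78 55 (.step 6 75 2 (.step 0 63 80 (.step 0 79 80 (.step 7 76 6 (.step 0 83 62 (.step 6 77 2 (.step 0 68 85 (.step 1 81 71 (.step 0 76 87 (.step 1 84 79 (.step 1 86 71 (.step 0 74 90 (.step 9 88 4 (.step 0 82 92 (.step 1 89 0 (.step 0 93 94 (.step 1 90 0 (.step 0 95 96 (.step 8 91 0 (.step 0 98 97 (.contra 99)))))))))))))))))))))))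

def f8_31 : Cert :=
  (.step 0 16 3 (.step 2 17 9 (.step 0 19 5 (.step 1 19 117 (.step 0 21 8 (.step 1 19 101 (.step 0 23 9 (.step 2 20 11 (.step 0 25 16 (.step 0 25 10 (.step 0 25 18 (.step 1 21 128 (.step 0 29 12 (.step 6 22 11 (.step 0 17 31 (.step 1 23 70 (.step 0 33 14 (.step 5 27 3 (.step 1 35 117 (.step 0 22 36 (.step 1 35 101 (.step 0 38 22 (.step 0 38 1 (.step 0 24 38 (.step 1 36 128 (.step 0 32 42 (.step 9 37 1 (.step 0 43 44 (.step 1 38 70 (.step 0 46 2 (.step 0 34 46 (.step 0 48 2 (.step 7 38 3 (.step 0 50 26 (.step 0 50 30 (.step 0 50 28 (.step 9 39 1 (.step 0 32 54 (.step 0 52 54 (.step 8 40 5 (.step 0 2 57 (.step 0 58 50 (.step 0 47 57 (.step 0 60 56 (.step 0 57 51 (.step 0 57 56 (.step 0 57 53 (.step 0 49 57 (.step 0 65 50 (.step 9 41 1 (.step 0 59 67 (.step 0 66 67 (.step 5 45 10 (.step 4 61 2 (.step 5 64 6 (.step 4 69 2 (.step 1 70 51 (.step 1 71 35 (.step 1 72 43 (.step 1 73 35 f8_30))))))))))))))))))))))))))))))))))))))))))))))))))))))))))))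

def f8_32 : Cert :=
  (.split [144] [78] f8_29 f8_31)

def f8_33 : Cert :=
  (.step 1 0 161 (.step 1 1 70 (.step 1 1 78 (.step 1 1 116 (.step 1 1 108 (.step 6 1 7 (.step 1 5 43 (.step 1 5 117 (.step 1 5 101 (.step 2 5 7 (.step 1 8 78 (.step 1 8 128 (.step 1 9 86 (.step 1 9 70 (.step 1 9 136 (.split [78] [144] f8_1 f8_32))))))))))))))))

def f8_34 : Cert :=
  (.step 0 58 75 (.step 9 73 0 (.step 0 64 77 (.step 0 78 74 (.step 0 65 77 (.step 0 80 74 (.step 0 68 77 (.step 0 82 74 (.step 1 79 79 (.step 3 79 8 (.step 0 85 58 (.step 0 85 76 (.step 1 81 137 (.step 1 83 71 (.step 1 84 42 (.step 1 86 43 (.step 0 72 91 (.step 4 87 4 (.step 1 89 34 (.step 1 91 0 (.step 8 92 4 (.step 0 95 96 (.step 0 97 71 (.step 1 93 71 (.step 0 99 84 (.step 0 99 88 (.step 1 98 129 (.step 0 102 88 (.step 6 99 4 (.step 0 94 104 (.step 0 105 90 (.step 8 100 6 (.step 0 106 107 (.step 7 101 5 (.step 0 108 109 (.step 1 102 160 (.step 0 111 110 (.step 8 103 3 (.step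 0 113 112 (.contra 114))))))))))))))))))))))))))))))))))))))))

def f8_35 : Cert :=
  (.step 0 10 15 (.step 3 15 9 (.step 0 5 17 (.step 1 17 117 (.step 0 8 19 (.step 1 17 101 (.step 0 9 21 (.step 3 18 11 (.step 0 10 23 (.step 7 20 11 (.step 0 25 15 (.step 1 21 86 (.step 0 12 27 (.step 1 21 70 (.step 0 13 29 (.step 4 24 3 (.step 1 31 117 (.step 0 32 20 (.step 1 31 101 (.step 0 34 22 (.step 0 34 9 (.step 0 20 34 (.step 1 32 128 (.step 0 38 26 (.step 8 33 1 (.step 0 40 39 (.step 1 34 70 (.step 0 42 30 (.step 6 34 3 (.step 0 44 14 (.step 8 35 1 (.step 0 28 46 (.step 0 47 45 (.step 0 46 45 (.step 9 36 5 (.step 0 48 50 (.step 0 51 42 (.step 0 49 50 (.step 0 49 50 (.step 0 54 43 (.step 8 37 1 (.step 0 56 26 (.step 4 41 10 (.step 5 52 2 (.step 5 55 2 (.step 1 58 51 (.step 1 59 35 (.step 1 60 35 (.step 6 61 10 (.step 0 16 64 (.step 0 57 64 (.step 7 62 2 (.step 0 67 66 (.step 7 63 2 (.step 0 69 53 (.step 0 69 46 (.step 1 70 71 (.step 0 72 61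 (.step 1 72 0 (.step 1 72 34 f8_34))))))))))))))))))))))))))))))))))))))))))))))))))))))))))))

def f8_36 : Cert :=
  (.step 8 197 9 (.step 0 202 205 (.step 0 206 75 (.step 0 140 205 (.step 0 208 75 (.step 0 204 205 (.step 0 210 75 (.step 4 211 6 (.step 1 212 43 (.step 6 213 6 (.step 0 207 214 (.step 0 209 214 (.step 1 215 79 (.step 0 152 217 (.step 1 216 79 (.step 8 218 4 (.step 0 220 199 (.step 1 219 0 (.step 0 222 221 (.contra 223))))))))))))))))))))

def f8_37 : Cert :=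
  (.step 0 142 144 (.step 9 132 0 (.step 0 143 146 (.step 0 147 111 (.step 1 133 87 (.step 0 123 149 (.step 0 124 149 (.step 1 134 71 (.step 5 136 2 (.step 0 153 137 (.step 1 148 79 (.step 0 123 155 (.step 1 149 100 (.step 9 150 2 (.step 0 157 158 (.step 0 159 137 (.step 0 158 137 (.step 6 151 1 (.step 0 162 161 (.step 1 155 42 (.step 0 160 164 (.step 0 154 164 (.step 0 163 164 (.step 8 156 6 (.step 0 165 168 (.step 0 166 168 (.step 0 167 168 (.step 1 169 109 (.step 5 170 5 (.step 1 172 70 (.step 0 74 174 (.step 0 139 174 (.step 0 105 174 (.step 0 75 174 (.step 1 172 78 (.step 1 173 137 (.step 1 175 137 (.step 0 124 181 (.step 1 176 145 (.step 1 177 145 (.step 1 178 145 (.step 7 180 5 (.step 0 171 186 (.step 8 182 3 (.step 0 187 188 (.step 1 183 78 (.step 0 179 190 (.step 1 184 0 (.step 0 145 192 (.step 2 189 11 (.step 1 194 145 (.step 0 185 195 (.step 0 196 126 (.step 1 195 0 (.step 0 193 198 (.step 1 195 78 (.step 0 190 200 (.step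 0 201 140 (.step 0 191 200 (.step 0 203 140 f8_36))))))))))))))))))))))))))))))))))))))))))))))))))))))))))))

def f8_38 : Cert :=
  (.step 7 81 2 (.step 0 85 62 (.step 0 85 53 (.step 0 85 68 (.step 0 85 71 (.step 7 82 2 (.step 0 90 65 (.step 0 90 73 (.step 6 83 6 (.step 0 70 93 (.step 0 89 93 (.step 1 86 71 (.step 1 89 71 (.step 0 97 83 (.step 1 91 71 (.step 1 92 71 (.step 0 100 83 (.step 1 94 79 (.step 1 96 34 (.step 1 97 144 (.step 0 104 75 (.step 8 98 4 (.step 0 106 86 (.step 0 106 87 (.step 0 106 95 (.step 0 106 88 (.step 1 99 0 (.step 1 102 0 (.step 0 112 107 (.step 0 112 108 (.step 0 112 106 (.step 0 112 110 (.step 1 102 50 (.step 1 102 86 (.step 0 84 118 (.step 2 109 8 (.step 0 117 120 (.step 0 121 103 (.step 1 113 71 (.step 1 114 129 (.step 1 115 71 (.step 1 116 129 (.step 1 120 51 (.step 0 102 127 (.step 0 128 25 (.step 0 98 127 (.step 0 101 127 (.step 0 131 25 (.step 5 122 0 (.step 0 84 133 (.step 1 123 86 (.step 0 135 133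 (.step 6 123 4 (.step 1 125 144 (.step 0 138 105 (.step 1 126 78 (.step 1 127 86 (.step 0 119 141 (.step 6 129 10 (.step 9 130 0 f8_37))))))))))))))))))))))))))))))))))))))))))))))))))))))))))))

def f8_39 : Cert :=
  (.step 1 24 51 (.step 1 24 117 (.step 1 24 101 (.step 3 24 11 (.step 0 16 28 (.step 0 10 28 (.step 0 17 28 (.step 1 27 86 (.step 1 27 70 (.step 4 30 3 (.step 0 34 24 (.step 1 34 101 (.step 0 36 27 (.step 0 36 9 (.step 0 26 36 (.step 0 2 36 (.step 1 34 109 (.step 0 41 2 (.step 4 35 1 (.step 1 36 70 (.step 0 44 33 (.step 6 36 3 (.step 0 43 46 (.step 0 47 14 (.step 0 29 46 (.step 0 46 14 (.step 0 31 46 (.step 8 37 1 (.step 0 32 52 (.step 0 32 52 (.step 0 54 46 (.step 0 32 52 (.step 0 56 50 (.step 0 52 46 (.step 0 52 50 (.step 9 38 5 (.step 0 48 60 (.step 0 57 60 (.step 0 57 60 (.step 0 63 44 (.step 0 59 60 (.step 0 59 60 (.step 0 66 45 (.step 8 39 1 (.step 9 40 5 (.step 0 49 69 (.step 0 55 69 (.step 0 51 69 (.step 0 58 69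 (.step 9 42 5 (.step 0 6 74 (.step 5 61 2 (.step 5 64 2 (.step 5 67 2 (.step 4 72 6 (.step 1 76 35 (.step 1 77 35 (.step 1 78 35 (.step 1 79 43 (.step 7 80 2 f8_38))))))))))))))))))))))))))))))))))))))))))))))))))))))))))))

def f8_40 : Cert :=
  (.step 0 160 159 (.step 1 153 34 (.step 0 158 162 (.step 0 152 162 (.step 0 161 162 (.step 8 154 2 (.step 0 163 166 (.step 0 164 166 (.step 0 165 166 (.step 1 167 101 (.step 5 168 1 (.step 1 170 86 (.step 0 74 172 (.step 0 137 172 (.step 0 103 172 (.step 0 75 172 (.step 1 170 70 (.step 1 171 129 (.step 1 173 129 (.step 0 122 179 (.step 1 174 137 (.step 1 175 137 (.step 1 176 137 (.step 7 178 1 (.step 0 169 184 (.step 8 180 11 (.step 0 185 186 (.step 1 181 70 (.step 0 177 188 (.step 1 182 0 (.step 0 143 190 (.step 2 187 7 (.step 1 192 137 (.step 0 183 193 (.step 0 194 124 (.step 1 193 70 (.step 0 188 196 (.step 0 197 138 (.step 0 196 138 (.step 0 189 196 (.step 0 200 138 (.step 8 195 5 (.step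 0 198 202 (.step 0 203 75 (.step 0 199 202 (.step 0 205 75 (.step 0 201 202 (.step 0 207 75 (.step 4 208 2 (.step 1 209 35 (.step 6 210 2 (.step 0 204 211 (.step 0 206 211 (.step 1 212 71 (.step 0 150 214 (.step 1 213 71 (.step 8 215 0 (.step 0 217 191 (.step 1 216 0 (.step 0 219 218 (.contra 220)))))))))))))))))))))))))))))))))))))))))))))))))))))))))))))

def f8_41 : Cert :=
  (.step 1 95 50 (.step 1 96 136 (.step 0 102 75 (.step 8 97 0 (.step 0 104 86 (.step 0 104 87 (.step 0 104 92 (.step 0 104 89 (.step 1 98 0 (.step 0 109 105 (.step 0 109 106 (.step 0 109 104 (.step 0 109 108 (.step 1 98 42 (.step 1 98 78 (.step 0 84 115 (.step 1 99 0 (.step 2 107 4 (.step 0 114 118 (.step 0 119 101 (.step 1 110 87 (.step 1 111 145 (.step 1 112 87 (.step 1 113 145 (.step 1 118 43 (.step 0 98 125 (.step 0 126 7 (.step 0 97 125 (.step 0 100 125 (.step 0 129 7 (.step 5 120 8 (.step 0 84 131 (.step 1 121 78 (.step 0 133 131 (.step 6 121 0 (.step 1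 123 136 (.step 0 136 103 (.step 1 124 70 (.step 1 125 78 (.step 0 116 139 (.step 6 127 6 (.step 9 128 8 (.step 0 140 142 (.step 9 130 8 (.step 0 141 144 (.step 0 145 117 (.step 1 131 79 (.step 0 121 147 (.step 0 122 147 (.step 1 132 87 (.step 5 134 10 (.step 0 151 135 (.step 1 146 71 (.step 0 121 153 (.step 1 147 116 (.step 9 148 10 (.step 0 155 156 (.step 0 157 135 (.step 0 156 135 (.step 6 149 9 f8_40))))))))))))))))))))))))))))))))))))))))))))))))))))))))))))

def f8_42 : Cert :=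
  (.step 0 9 40 (.step 0 9 40 (.step 0 42 26 (.step 0 20 40 (.step 1 40 86 (.step 0 12 45 (.step 0 12 45 (.step 0 47 29 (.step 0 12 45 (.step 0 49 21 (.step 1 40 70 (.step 0 13 51 (.step 1 40 136 (.step 0 53 33 (.step 8 40 5 (.step 0 55 54 (.step 0 52 55 (.step 0 57 54 (.step 7 41 3 (.step 9 43 1 (.step 0 56 60 (.step 0 32 60 (.step 0 62 46 (.step 0 34 60 (.step 0 64 46 (.step 0 34 60 (.step 0 66 48 (.step 0 34 60 (.step 0 58 60 (.step 0 35 60 (.step 0 70 46 (.step 0 35 60 (.step 0 72 50 (.step 9 44 1 (.step 0 59 74 (.step 5 63 10 (.step 5 67 10 (.step 4 69 2 (.step 5 73 10 (.step 1 76 51 (.step 1 77 51 (.step 1 78 35 (.step 1 79 51 (.step 7 80 10 (.step 7 81 10 (.step 0 85 65 (.step 0 85 23 (.step 0 85 68 (.step 0 85 36 (.step 6 82 2 (.step 0 61 90 (.step 0 88 90 (.step 7 83 10 (.step 0 93 71 (.step 1 86 87 (.step 1 88 87 (.step 0 96 82 (.step 1 91 71 (.step 1 94 87 (.step 0 99 98 f8_41))))))))))))))))))))))))))))))))))))))))))))))))))))))))))))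

def f8_43 : Cert :=
  (.step 1 132 145 (.step 0 136 118 (.step 6 133 0 (.step 0 124 138 (.step 0 139 125 (.step 8 134 2 (.step 0 140 141 (.step 7 135 1 (.step 0 142 143 (.step 1 136 160 (.step 0 145 144 (.step 8 137 11 (.step 0 147 146 (.contra 148))))))))))))))

def f8_44 : Cert :=
  (.step 0 75 26 (.step 1 75 86 (.step 0 77 29 (.step 0 77 21 (.step 1 75 100 (.step 9 76 1 (.step 0 34 81 (.step 0 82 78 (.step 0 35 81 (.step 0 84 77 (.step 0 35 81 (.step 0 86 79 (.step 3 80 3 (.step 0 88 64 (.step 5 83 10 (.step 5 87 10 (.step 1 90 51 (.step 1 91 51 (.step 7 92 10 (.step 0 94 65 (.step 7 93 10 (.step 0 51 96 (.step 0 97 85 (.step 0 51 96 (.step 0 99 22 (.step 0 96 85 (.step 1 98 87 (.step 0 102 66 (.step 1 101 87 (.step 0 104 58 (.step 1 102 0 (.step 1 102 50 (.step 0 70 107 (.step 9 103 8 (.step 0 89 109 (.step 0 110 106 (.step 0 95 109 (.step 0 112 106 (.step 1 104 0 (.step 9 105 8 (.step 0 60 115 (.step 0 116 114 (.step 1 111 129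 (.step 1 113 87 (.step 1 117 71 (.step 3 117 4 (.step 0 121 70 (.step 0 121 108 (.step 1 119 50 (.step 1 120 34 (.step 1 122 35 (.step 0 102 126 (.step 4 123 0 (.step 1 126 0 (.step 8 127 0 (.step 0 129 130 (.step 0 131 100 (.step 1 128 87 (.step 0 133 120 (.step 0 133 118 f8_43))))))))))))))))))))))))))))))))))))))))))))))))))))))))))))

def f8_45 : Cert :=
  (.step 1 103 86 (.step 8 103 1 (.step 0 104 105 (.step 0 106 81 (.step 0 104 105 (.step 0 108 28 (.step 0 104 105 (.step 0 110 101 (.step 5 107 2 (.step 0 70 112 (.step 1 112 35 (.step 0 114 66 (.step 7 114 2 (.step 0 116 109 (.step 0 116 111 (.step 8 115 4 (.step 0 69 119 (.step 0 120 116 (.step 0 69 119 (.step 0 122 117 (.step 0 69 119 (.step 0 124 118 (.step 1 121 87 (.step 2 121 0 (.step 0 112 127 (.step 0 113 127 (.step 1 123 145 (.step 1 125 79 (.step 1 126 50 (.step 1 128 51 (.step 0 133 66 (.step 5 129 8 (.step 1 131 42 (.step 1 133 0 (.step 9 134 8 (.step 0 64 138 (.step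 0 139 137 (.step 1 135 79 (.step 0 126 141 (.step 0 130 141 (.step 1 140 137 (.step 0 130 144 (.step 7 141 8 (.step 0 132 146 (.step 0 147 136 (.step 9 142 10 (.step 0 149 148 (.step 6 143 9 (.step 0 151 150 (.step 1 144 160 (.step 0 152 153 (.step 9 145 7 (.step 0 155 154 (.contra 156))))))))))))))))))))))))))))))))))))))))))))))))))))))

def f8_46 : Cert :=
  (.step 0 224 219 (.step 0 35 223 (.step 0 226 220 (.step 0 35 223 (.step 0 228 222 (.step 5 229 10 (.step 1 230 51 (.step 7 231 10 (.step 0 232 225 (.step 0 232 227 (.step 1 233 87 (.step 0 235 170 (.step 1 234 87 (.step 9 236 8 (.step 0 212 238 (.step 1 237 0 (.step 0 240 239 (.contra 241))))))))))))))))))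

def f8_47 : Cert :=
  (.step 1 149 128 (.step 0 99 165 (.step 1 150 86 (.step 1 151 71 (.step 0 168 148 (.step 1 152 79 (.step 1 160 87 (.step 0 171 147 (.step 1 161 108 (.step 0 173 164 (.step 8 162 6 (.step 0 163 175 (.step 0 163 175 (.step 0 177 174 (.step 1 168 108 (.step 0 176 179 (.step 7 169 5 (.step 0 176 181 (.step 1 171 50 (.step 0 183 180 (.step 0 183 178 (.step 0 183 182 (.step 9 172 10 (.step 0 187 184 (.step 0 187 185 (.step 0 187 186 (.step 1 188 117 (.step 4 189 9 (.step 1 191 86 (.step 1 191 78 (.step 0 194 22 (.step 0 194 166 (.step 0 194 99 (.step 0 194 35 (.step 1 192 145 (.step 1 195 145 (.step 0 200 148 (.step 1 196 129 (.step 1 197 129 (.step 1 198 129 (.step 6 199 9 (.step 0 205 190 (.step 9 201 7 (.step 0 207 206 (.step 1 202 86 (.step 0 209 193 (.step 1 203 0 (.step 0 211 156 (.step 3 208 3 (.step 1 213 129 (.step 0 150 214 (.step 0 215 204 (.step 1 214 86 (.step 0 167 217 (.step 0 218 209 (.step 0 167 217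 (.step 0 167 217 (.step 0 221 210 (.step 9 216 1 (.step 0 35 223 f8_46))))))))))))))))))))))))))))))))))))))))))))))))))))))))))))

def f8_48 : Cert :=
  (.step 1 104 86 (.step 0 105 29 (.step 9 104 1 (.step 0 89 107 (.step 0 108 105 (.step 0 89 107 (.step 0 110 106 (.step 5 111 10 (.step 1 112 51 (.step 0 113 86 (.step 0 113 68 (.step 1 113 34 (.step 0 116 93 (.step 7 113 10 (.step 0 118 109 (.step 0 118 97 (.step 9 114 8 (.step 0 95 121 (.step 0 96 121 (.step 0 120 121 (.step 0 102 121 (.step 1 119 87 (.step 3 124 0 (.step 0 127 117 (.step 0 79 127 (.step 1 126 0 (.step 0 122 130 (.step 0 123 130 (.step 0 121 130 (.step 0 125 130 (.step 1 126 34 (.step 0 129 135 (.step 1 126 70 (.step 0 137 60 (.step 1 127 35 (.step 0 139 114 (.step 0 84 139 (.step 0 141 126 (.step 0 84 139 (.step 0 143 115 (.step 4 128 4 (.step 0 91 145 (.step 1 131 79 (.step 1 132 137 (.step 1 133 79 (.step 1 134 137 (.step 4 136 4 (.step 0 151 60 (.step 1 139 70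 (.step 0 153 138 (.step 8 140 4 (.step 0 155 154 (.step 7 142 2 (.step 8 144 4 (.step 0 69 158 (.step 0 159 157 (.step 1 146 71 (.step 0 161 149 (.step 7 147 8 (.step 1 149 108 f8_47))))))))))))))))))))))))))))))))))))))))))))))))))))))))))))

def f8_49 : Cert :=
  (.step 1 104 86 (.step 1 104 100 (.step 8 104 1 (.step 0 105 107 (.step 0 108 81 (.step 0 105 107 (.step 0 110 101 (.step 1 103 86 (.step 0 112 29 (.step 1 103 100 (.step 9 103 1 (.step 0 89 115 (.step 0 116 113 (.step 1 106 43 (.step 0 66 118 (.step 5 109 2 (.step 1 114 35 (.step 5 117 10 (.step 1 118 0 (.step 0 71 123 (.step 1 120 35 (.step 0 121 125 (.step 0 126 119 (.step 1 121 70 (.step 1 122 51 (.step 0 129 86 (.step 7 125 2 (.step 0 128 131 (.step 0 132 111 (.step 8 127 4 (.step 0 124 134 (.step 0 135 133 (.step 1 129 0 (.step 0 137 136 (.step 9 130 8 (.step 0 139 138 (.contra 140)))))))))))))))))))))))))))))))))))))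

def f8_50 : Cert :=
  (.split [101,116] [] f8_48 f8_49)

def f8_51 : Cert :=
  (.step 0 2 76 (.step 1 76 100 (.step 0 70 78 (.step 6 76 3 (.step 0 80 47 (.step 9 77 5 (.step 0 80 82 (.step 1 78 35 (.step 1 78 43 (.step 0 68 85 (.step 0 67 85 (.step 2 78 3 (.step 0 39 88 (.step 1 85 0 (.step 0 69 90 (.step 1 85 34 (.step 0 72 92 (.step 1 85 78 (.step 0 63 94 (.step 0 64 94 (.step 0 65 94 (.step 1 85 128 (.step 0 74 98 (.step 6 87 6 (.step 0 83 100 (.step 0 82 100 (.split [] [101,116] f8_45 f8_50)))))))))))))))))))))))))))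

def f8_52 : Cert :=
  (.step 0 76 26 (.step 1 75 100 (.step 0 70 78 (.step 1 76 86 (.step 0 80 29 (.step 0 80 21 (.step 9 77 1 (.step 0 34 83 (.step 0 84 80 (.step 0 34 83 (.step 0 86 81 (.step 0 35 83 (.step 0 88 80 (.step 0 35 83 (.step 0 90 82 (.step 1 78 43 (.step 0 68 92 (.step 5 87 10 (.step 5 91 10 (.step 1 92 78 (.step 0 65 96 (.step 1 94 51 (.step 0 98 93 (.step 1 95 51 (.step 7 98 10 (.step 0 101 85 (.step 0 101 97 (.step 9 99 8 (.step 0 103 104 (.step 7 100 10 (.step 0 106 89 (.step 1 102 87 (.step 3 105 0 (.step 0 79 109 (.step 1 107 87 (.step 0 111 58 (.step 1 108 34 (.step 0 110 113 (.step 1 111 0 (.step 9 112 8 (.step 0 60 116 (.step 0 117 115 (.step 4 114 4 (.step 0 119 118 (.contra 120)))))))))))))))))))))))))))))))))))))))))))))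

def f8_53 : Cert :=
  (.split [] [101,160] f8_51 f8_52)

def f8_54 : Cert :=
  (.step 1 41 100 (.step 1 41 136 (.step 0 38 43 (.step 9 41 5 (.step 0 44 45 (.step 0 14 45 (.step 1 42 51 (.step 1 42 109 (.step 4 46 6 (.step 1 48 86 (.step 1 49 78 (.step 0 52 38 (.step 9 49 5 (.step 0 38 54 (.step 0 39 54 (.step 0 53 54 (.step 1 50 43 (.step 4 57 6 (.step 6 58 6 (.step 1 59 43 (.step 6 61 6 (.step 0 55 62 (.step 0 54 62 (.step 0 56 62 (.step 1 63 79 (.step 0 2 66 (.step 1 65 79 (.step 1 66 0 (.step 1 66 42 (.step 1 68 0 (.step 1 68 34 (.step 1 68 128 (.step 0 35 73 (.split [101,160] [] f8_44 f8_53))))))))))))))))))))))))))))))))))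

def f8_55 : Cert :=
  (.step 1 96 71 (.step 1 99 87 (.step 0 103 84 (.step 8 101 0 (.step 0 105 94 (.step 1 102 0 (.step 0 107 106 (.step 1 103 0 (.step 0 109 108 (.step 9 104 8 (.step 0 111 110 (.contra 112))))))))))))

def f8_56 : Cert :=
  (.step 0 9 41 (.step 0 42 26 (.step 1 40 100 (.step 1 40 136 (.step 0 38 45 (.step 0 39 45 (.step 9 40 5 (.step 0 46 48 (.step 0 47 48 (.step 1 41 86 (.step 0 12 51 (.step 0 12 51 (.step 0 53 29 (.step 0 12 51 (.step 0 55 21 (.step 1 41 70 (.step 0 13 57 (.step 1 41 100 (.step 1 41 136 (.step 0 60 33 (.step 8 41 5 (.step 0 62 61 (.step 0 58 62 (.step 0 64 61 (.step 9 43 1 (.step 0 63 66 (.step 0 34 66 (.step 0 68 54 (.step 0 34 66 (.step 0 65 66 (.step 0 35 66 (.step 0 72 52 (.step 0 35 66 (.step 0 74 56 (.step 1 44 51 (.step 4 49 6 (.step 1 59 43 (.step 5 69 10 (.step 4 71 2 (.step 5 75 10 (.step 1 76 86 (.step 1 77 43 (.step 0 83 78 (.step 1 78 78 (.step 1 79 51 (.step 1 80 35 (.step 1 81 51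 (.step 6 83 6 (.step 0 50 89 (.step 0 90 85 (.step 7 86 10 (.step 0 92 70 (.step 0 92 91 (.step 6 87 2 (.step 0 67 95 (.step 7 88 10 (.step 0 82 97 (.step 0 98 73 (.step 1 93 87 (.step 0 100 87 f8_55))))))))))))))))))))))))))))))))))))))))))))))))))))))))))))

def f8_57 : Cert :=
  (.split [] [101,108] f8_54 f8_56)

def f8_58 : Cert :=
  (.step 1 25 117 (.step 0 2 26 (.step 2 25 11 (.step 1 26 86 (.step 1 26 78 (.step 6 26 11 (.step 0 16 31 (.step 0 10 31 (.step 0 23 31 (.step 0 22 31 (.step 8 27 9 (.step 0 30 36 (.step 0 37 6 (.step 0 36 6 (.split [101,108] [] f8_42 f8_57)))))))))))))))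

def f8_59 : Cert :=
  (.step 0 84 68 (.step 6 81 6 (.step 0 67 87 (.step 0 86 87 (.step 6 82 6 (.step 0 73 90 (.step 1 85 71 (.step 1 86 71 (.step 0 93 81 (.step 1 88 79 (.step 1 91 79 (.step 0 79 96 (.step 1 92 34 (.step 8 94 4 (.step 0 99 89 (.step 1 95 50 (.step 1 96 0 (.step 8 97 4 (.step 0 102 103 (.step 0 104 83 (.step 2 100 8 (.step 0 101 106 (.step 0 107 98 (.step 2 105 0 (.step 0 109 108 (.contra 110))))))))))))))))))))))))))

def f8_60 : Cert :=
  (.step 0 4 24 (.step 1 25 101 (.step 3 25 11 (.step 0 10 28 (.step 1 24 117 (.step 0 2 30 (.step 4 26 9 (.step 0 32 6 (.step 1 27 86 (.step 4 29 3 (.step 0 35 25 (.step 1 30 78 (.step 8 31 9 (.step 0 37 38 (.step 0 39 6 (.step 1 35 101 (.step 0 41 27 (.step 0 41 9 (.step 0 2 41 (.step 1 35 109 (.step 0 45 2 (.step 4 36 1 (.step 1 41 70 (.step 1 41 136 (.step 0 40 49 (.step 0 33 49 (.step 6 41 3 (.step 0 47 52 (.step 0 53 14 (.step 0 52 14 (.step 8 42 1 (.step 0 34 56 (.step 0 57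 52 (.step 0 34 56 (.step 0 59 55 (.step 9 43 5 (.step 0 54 61 (.step 0 60 61 (.step 0 60 61 (.step 0 64 48 (.step 9 44 5 (.step 0 50 66 (.step 0 58 66 (.step 0 51 66 (.step 1 45 78 (.step 0 70 33 (.step 9 46 5 (.step 0 40 72 (.step 0 71 72 (.step 5 62 2 (.step 5 65 2 (.step 4 69 6 (.step 4 74 6 (.step 1 75 35 (.step 1 76 35 (.step 1 77 43 (.step 1 78 43 (.step 7 79 2 (.step 7 80 2 (.step 0 84 63 f8_59))))))))))))))))))))))))))))))))))))))))))))))))))))))))))))

def f8_61 : Cert :=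
  (.split [116] [160] f8_58 f8_60)

def f8_62 : Cert :=
  (.step 0 3 16 (.step 2 16 9 (.step 1 18 117 (.step 1 18 101 (.step 1 19 86 (.step 8 19 9 (.step 0 11 22 (.split [160] [116] f8_39 f8_61))))))))

def f8_63 : Cert :=
  (.step 6 73 10 (.step 0 64 77 (.step 7 74 2 (.step 0 79 66 (.step 0 79 78 (.step 7 75 2 (.step 0 82 60 (.step 0 82 68 (.step 1 76 0 (.step 1 80 71 (.step 0 86 76 (.step 1 83 71 (.step 0 88 73 (.step 1 84 71 (.step 8 87 4 (.step 0 85 91 (.step 0 92 81 (.step 9 89 0 (.step 0 93 94 (.step 1 90 0 (.step 0 96 95 (.contra 97))))))))))))))))))))))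

def f8_64 : Cert :=
  (.step 0 3 15 (.step 3 16 9 (.step 0 5 18 (.step 1 18 117 (.step 0 8 20 (.step 1 18 101 (.step 0 9 22 (.step 3 19 11 (.step 0 10 24 (.step 0 17 24 (.step 7 21 11 (.step 0 27 16 (.step 1 22 86 (.step 0 12 29 (.step 1 22 70 (.step 0 13 31 (.step 4 25 3 (.step 1 33 117 (.step 0 34 21 (.step 1 33 101 (.step 0 36 23 (.step 0 36 9 (.step 0 21 36 (.step 0 2 36 (.step 1 34 128 (.step 0 41 28 (.step 8 35 1 (.step 0 43 42 (.step 1 36 70 (.step 0 45 32 (.step 6 36 3 (.step 0 47 14 (.step 0 26 47 (.step 8 37 1 (.step 0 30 50 (.step 0 51 47 (.step 0 30 50 (.step 0 53 48 (.step 0 50 47 (.step 0 50 48 (.step 9 38 5 (.step 0 54 57 (.step 0 58 45 (.step 0 56 57 (.step 0 56 57 (.step 0 61 46 (.step 8 39 1 (.step 0 63 28 (.step 9 40 5 (.step 0 52 65 (.step 0 49 65 (.step 0 55 65 (.step 4 44 10 (.step 5 59 2 (.step 5 62 2 (.step 4 67 6 (.step 1 69 51 (.step 1 70 35 (.step 1 71 35 (.step 1 72 43 f8_63))))))))))))))))))))))))))))))))))))))))))))))))))))))))))))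

def f8_65 : Cert :=
  (.split [78] [144] f8_62 f8_64)

def f8_66 : Cert :=
  (.step 1 1 161 (.step 1 2 78 (.step 1 2 116 (.step 1 2 108 (.step 7 2 7 (.step 1 5 43 (.step 1 5 117 (.step 1 5 101 (.step 3 5 7 (.step 1 8 78 (.step 1 9 86 (.step 1 9 70 (.step 1 9 136 (.split [144] [78] f8_35 f8_65))))))))))))))

def f8_67 : Cert :=
  (.step 0 71 97 (.step 0 88 97 (.step 6 94 10 (.step 7 95 2 (.step 0 101 81 (.step 0 101 99 (.step 7 96 2 (.step 0 104 84 (.step 1 98 87 (.step 1 99 87 (.step 0 95 107 (.step 1 102 71 (.step 1 105 71 (.step 0 110 94 (.step 1 106 50 (.step 9 108 0 (.step 0 103 113 (.step 1 109 42 (.step 1 110 0 (.step 9 111 0 (.step 0 100 117 (.step 0 118 116 (.step 3 114 4 (.step 0 112 120 (.step 0 121 115 (.step 3 119 8 (.step 0 123 122 (.contra 124))))))))))))))))))))))))))))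

def f8_68 : Cert :=
  (.step 0 36 37 (.step 0 38 25 (.step 3 37 9 (.step 0 35 40 (.step 0 41 26 (.step 1 42 117 (.step 0 43 2 (.step 1 42 101 (.step 3 42 11 (.step 0 19 46 (.step 1 43 100 (.step 7 43 11 (.step 0 49 39 (.step 0 49 12 (.step 9 44 9 (.step 0 51 52 (.step 1 45 86 (.step 1 45 70 (.step 4 47 3 (.step 0 48 56 (.step 1 56 117 (.step 0 58 43 (.step 1 56 101 (.step 0 60 45 (.step 0 60 23 (.step 0 43 60 (.step 4 57 1 (.step 0 64 53 (.step 1 58 128 (.step 0 66 50 (.step 0 66 53 (.step 8 59 1 (.step 0 69 67 (.step 0 69 68 (.step 1 60 70 (.step 0 72 55 (.step 6 60 3 (.step 0 74 31 (.step 8 61 1 (.step 0 54 76 (.step 0 77 75 (.step 0 76 75 (.step 9 62 5 (.step 0 78 80 (.step 0 78 80 (.step 0 82 72 (.step 0 79 80 (.step 0 79 80 (.step 0 85 73 (.step 8 63 1 (.step 0 87 53 (.step 4 65 10 (.step 4 70 10 (.step 5 83 2 (.step 5 86 2 (.step 1 89 51 (.step 1 90 51 (.step 1 91 35 (.step 1 92 35 (.step 6 93 10 f8_67))))))))))))))))))))))))))))))))))))))))))))))))))))))))))))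

def f8_69 : Cert :=
  (.step 0 134 154 (.step 0 158 6 (.step 0 135 154 (.step 0 154 149 (.step 1 148 43 (.step 2 151 6 (.step 0 147 163 (.step 0 147 163 (.step 0 165 98 (.step 5 153 8 (.step 0 14 167 (.step 1 155 43 (.step 5 157 4 (.step 0 121 170 (.step 0 122 170 (.step 0 123 170 (.step 3 159 6 (.step 0 7 174 (.step 0 175 168 (.step 1 161 51 (.step 1 162 0 (.step 0 171 178 (.step 0 172 178 (.step 0 173 178 (.step 1 162 108 (.step 0 142 182 (.step 2 164 4 (.step 0 155 184 (.step 0 185 144 (.step 0 160 184 (.step 0 154 184 (.step 0 188 144 (.step 1 169 0 (.step 0 179 190 (.step 0 191 164 (.step 0 180 190 (.step 0 193 147 (.step 0 181 190 (.step 0 181 190 (.step 0 196 166 (.step 1 169 108 (.step 0 183 198 (.step 0 199 9 (.step 0 183 198 (.step 0 201 187 (.step 1 177 86 (.step 0 203 195 (.step 0 203 197 (.zero [(140,204),(205,76),(107,202),(200,57),(164,176),(73,192),(151,160),(9,15),(147,167),(39,194),(189,108),(42,186)])))))))))))))))))))))))))))))))))))))))))))))))))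

def f8_70 : Cert :=
  (.step 0 97 89 (.step 0 88 96 (.step 0 99 89 (.step 9 66 1 (.step 0 98 101 (.step 0 100 101 (.step 8 68 5 (.step 0 104 92 (.step 5 70 10 (.step 4 82 2 (.step 5 83 10 (.step 4 95 2 (.step 4 103 2 (.step 1 106 51 (.step 1 108 51 (.step 1 109 35 (.step 1 110 35 (.step 7 111 10 (.step 0 115 84 (.step 0 115 94 (.step 7 112 10 (.step 6 113 2 (.step 0 91 119 (.step 0 92 119 (.step 0 93 119 (.step 0 117 119 (.step 0 105 119 (.step 6 114 2 (.step 0 102 125 (.step 1 116 87 (.step 1 117 87 (.step 0 128 113 (.step 1 120 71 (.step 1 124 71 (.step 1 126 71 (.step 0 112 132 (.step 1 127 50 (.step 0 9 134 (.step 8 129 0 (.step 0 136 116 (.step 0 136 123 (.step 1 130 0 (.step 0 139 137 (.step 1 130 42 (.step 1 131 108 (.step 1 132 0 (.step 1 132 34 (.step 8 133 0 (.step 0 143 145 (.step 0 146 118 (.step 2 138 4 (.step 0 141 148 (.step 0 141 148 (.step 0 150 15 (.step 0 141 148 (.step 0 152 134 (.step 2 147 8 (.step 0 134 154 (.step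 0 134 154 (.step 0 156 141 f8_69))))))))))))))))))))))))))))))))))))))))))))))))))))))))))))

def f8_71 : Cert :=
  (.step 0 32 37 (.step 0 38 29 (.step 2 37 9 (.step 0 33 40 (.step 0 41 28 (.step 1 42 117 (.step 0 43 22 (.step 1 42 101 (.step 2 42 11 (.step 0 46 17 (.step 1 43 100 (.step 6 43 11 (.step 0 39 49 (.step 0 19 49 (.step 0 20 49 (.step 8 44 9 (.step 0 30 53 (.step 0 54 49 (.step 1 45 70 (.step 5 47 3 (.step 0 57 48 (.step 0 57 8 (.step 0 42 57 (.step 1 57 117 (.step 0 43 61 (.step 1 57 101 (.step 0 63 43 (.step 0 63 2 (.step 0 45 63 (.step 1 57 109 (.step 0 2 67 (.step 5 58 1 (.step 0 55 69 (.step 4 59 5 (.step 0 7 71 (.step 0 72 16 (.step 0 7 71 (.step 0 74 52 (.step 5 60 1 (.step 1 61 128 (.step 0 75 77 (.step 0 50 77 (.step 0 55 77 (.step 9 62 1 (.step 0 78 81 (.step 0 79 81 (.step 0 80 81 (.step 1 63 70 (.step 0 85 75 (.step 0 56 85 (.step 0 87 7 (.step 7 63 3 (.step 9 64 1 (.step 0 75 90 (.step 0 51 90 (.step 0 49 90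 (.step 0 55 90 (.step 0 86 90 (.step 8 65 5 (.step 0 7 96 f8_70))))))))))))))))))))))))))))))))))))))))))))))))))))))))))))

def f8_72 : Cert :=
  (.step 1 1 161 (.step 2 1 7 (.step 1 0 161 (.step 3 0 7 (.step 1 2 42 (.step 1 2 70 (.step 1 2 100 (.step 1 2 108 (.step 1 2 136 (.step 0 10 5 (.step 1 2 144 (.step 0 12 3 (.step 1 4 78 (.step 1 4 108 (.step 1 4 136 (.step 0 13 16 (.step 1 4 144 (.step 0 11 18 (.step 0 5 18 (.step 1 9 161 (.step 1 15 117 (.step 1 15 101 (.step 1 15 161 (.step 1 21 78 (.step 1 21 116 (.step 1 21 108 (.step 0 27 9 (.step 1 21 144 (.step 1 22 78 (.step 1 23 136 (.step 1 24 78 (.step 1 24 116 (.step 1 24 108 (.step 0 15 34 (.step 1 24 144 (.split [144,161,108] [78,161,108] f8_68 f8_71))))))))))))))))))))))))))))))))))))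

def f8_73 : Cert :=
  (.split [160,109,160] [160] f8_66 f8_72)

def f8_74 : Cert :=
  (.split [160] [160,109,160] f8_33 f8_73)

/-- The word has a certificate. -/
theorem f8_check : check (boxes (Chain.nat (k := 4) [0, 2, 1, 3, 0, 2, 1, 3, 0, 2, 1, 3])) f8_74 .lf 0 = true := by
  decide +kernel

end Pool.Agent.K7.H46.LO
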