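import Pool.Agent.K7.H39.TB.Group

set_option autoImplicit false

/-!
# A checker for derivations in region systems

A region system on a linear order `X` consists of automorphisms `g r` of `X`, one for each region
`r : ℕ` of a diagram, and of a list of tangles, each with four adjacent regions `W`, `E`, `S`, `N`.
The rules of `Sys` are the properties of bounded tangles. A certificate (`Cert`) is a derivation with
case distinctions; if `check` accepts it, then all points of `X` satisfy `g W = g E` for all tangles.

A point is coded by a word: the list of letters `2 r` (for `g r`) and `2 r + 1` (for its inverse)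
that are applied to the base point; the head of the list is applied last.
-/

namespace Pool.Agent.K7.H46.LO

open Pool.Agent.Y479.LS Pool.Agent.K7.H39.TB Aut

/-- The four regions at a tangle. -/
structure Box where
  W : ℕ
  E : ℕ
  S : ℕ
  N : ℕ
  deriving DecidableEq, Repr

/-- A region system. -/
structure Sys {X : Type*} [LinearOrder X] (g : ℕ → Aut X) (T : List Box) : Prop where
  ta : ∀ t ∈ T, ∀ p : X, (g t.W p ≤ g t.E p ↔ g t.N p ≤ g t.S p) ∧
    (g t.E p ≤ g t.W p ↔ g t.S p ≤ g t.N p)
  ew : ∀ t ∈ T, ∀ x : X, ((g t.E)⁻¹ x ≤ (g t.W)⁻¹ x → g t.S ((g t.E)⁻¹ x) ≤ g t.N ((g t.W)⁻¹ x)) ∧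
    ((g t.W)⁻¹ x ≤ (g t.E)⁻¹ x → g t.N ((g t.W)⁻¹ x) ≤ g t.S ((g t.E)⁻¹ x))
  sn : ∀ t ∈ T, ∀ x : X, ((g t.S)⁻¹ x ≤ (g t.N)⁻¹ x → g t.W ((g t.N)⁻¹ x) ≤ g t.E ((g t.S)⁻¹ x)) ∧
    ((g t.N)⁻¹ x ≤ (g t.S)⁻¹ x → g t.E ((g t.S)⁻¹ x) ≤ g t.W ((g t.N)⁻¹ x))

/-! ### words -/

/-- the letter for the inverse map -/
def inv (l : ℕ) : ℕ := if l % 2 = 0 then l + 1 else l - 1

/-- put a letter in front of a word, with reduction -/
def push (l : ℕ) : List ℕ → List ℕ
  | [] => [l]
  | k :: w => if Nat.beq k (inv l) then w else l :: k :: w

/-- equality of words -/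
def beqW : List ℕ → List ℕ → Bool
  | [], [] => true
  | a :: u, b :: v => Nat.beq a b && beqW u v
  | _, _ => false

theorem beqW_eq : ∀ {u v : List ℕ}, beqW u v = true → u = v
  | [], [], _ => rfl
  | [], _ :: _, h => by simp [beqW] at h
  | _ :: _, [], h => by simp [beqW] at h
  | a :: u, b :: v, h => by
    simp only [beqW, Bool.and_eq_true] at h
    rw [Nat.eq_of_beq_eq_true h.1, beqW_eq h.2]

section
variable {X : Type*} [LinearOrder X] (g : ℕ → Aut X)

/-- the map of a letter -/
def act (l : ℕ) : Aut X := if l % 2 = 0 then g (l / 2) else (g (l / 2))⁻¹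

/-- the point of a word -/
def ev (s : X) : List ℕ → X
  | [] => s
  | l :: w => act g l (ev s w)

theorem act_even (r : ℕ) : act g (2 * r) = g r := by
  unfold act; rw [if_pos (by omega)]; congr 1; omega

theorem act_odd (r : ℕ) : act g (2 * r + 1) = (g r)⁻¹ := by
  unfold act; rw [if_neg (by omega)]; congr 2; omega

theorem act_inv (l : ℕ) (x : X) : act g l (act g (inv l) x) = x := by
  unfold inv
  split_ifs with h
  · obtain ⟨r, rfl⟩ : ∃ r, l = 2 * r := ⟨l / 2, by omega⟩
    rw [act_even, act_odd, self_inv]
  · obtain ⟨r, rfl⟩ : ∃ r, l = 2 * r + 1 := ⟨l / 2, by omega⟩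
    have : 2 * r + 1 - 1 = 2 * r := by omega
    rw [this, act_even, act_odd, inv_self]

theorem ev_push (s : X) (l : ℕ) (w : List ℕ) : ev g s (push l w) = act g l (ev g s w) := by
  cases w with
  | nil => rfl
  | cons k w =>
    simp only [push]
    split_ifs with h
    · rw [Nat.eq_of_beq_eq_true h]
      simp only [ev]
      rw [act_inv]
    · rfl

theorem ev_push_even (s : X) (r : ℕ) (w : List ℕ) :
    ev g s (push (2 * r) w) = g r (ev g s w) := by rw [ev_push, act_even]

theorem ev_push_odd (s : X) (r : ℕ) (w : List ℕ) :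
    ev g s (push (2 * r + 1) w) = (g r)⁻¹ (ev g s w) := by rw [ev_push, act_odd]

end

/-! ### facts -/

/-- An inequality between two points, strict or not. -/
structure Fact where
  u : List ℕ
  v : List ℕ
  st : Bool

/-- the meaning of an inequality -/
def Fact.Holds {X : Type*} [LinearOrder X] (g : ℕ → Aut X) (s : X) (f : Fact) : Prop :=
  match f.st with
  | true => ev g s f.u < ev g s f.v
  | false => ev g s f.u ≤ ev g s f.v

/-- transitivity -/
def trans (f h : Fact) : Option Fact :=
  match beqW f.v h.u with
  | true => some ⟨f.u, h.v, f.st || h.st⟩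
  | false => none

/-- apply a letter -/
def ap (f : Fact) (l : ℕ) : Fact := ⟨push l f.u, push l f.v, f.st⟩

/-- A rule of the first type: from `a p ≤ b p` to `c p ≤ d p`. -/
def rta (f : Fact) (a b c d : ℕ) : Option Fact :=
  let p := push (2 * a + 1) f.u
  match beqW (push (2 * b) p) f.v with
  | true => some ⟨push (2 * c) p, push (2 * d) p, f.st⟩
  | false => none

/-- A rule of the second type: from `a⁻¹ x ≤ b⁻¹ x` to `c (a⁻¹ x) ≤ d (b⁻¹ x)` (`flip = false`) or to
`d (b⁻¹ x) ≤ c (a⁻¹ x)` (`flip = true`). -/
def rfp (f : Fact) (a b c d : ℕ) (flip : Bool) : Option Fact :=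
  let x := push (2 * a) f.u
  match beqW (push (2 * b + 1) x) f.v with
  | true =>
    match flip with
    | false => some ⟨push (2 * c) f.u, push (2 * d) f.v, false⟩
    | true => some ⟨push (2 * d) f.v, push (2 * c) f.u, false⟩
  | false => none

/-- The contraposition of a rule of the second type: from `c (a⁻¹ x) < d (b⁻¹ x)` to
`a⁻¹ x < b⁻¹ x` (`flip = false`) or to `b⁻¹ x < a⁻¹ x` (`flip = true`). -/
def rfc (f : Fact) (a b c d : ℕ) (flip : Bool) : Option Fact :=
  match f.st with
  | false => none
  | true =>
    let u := push (2 * c + 1) f.u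
    let v := push (2 * d + 1) f.v
    match beqW (push (2 * a) u) (push (2 * b) v) with
    | true =>
      match flip with
      | false => some ⟨u, v, true⟩
      | true => some ⟨v, u, true⟩
    | false => none

/-- binary trees of facts -/
inductive Tr
  | lf
  | nd (f : Fact) (l r : Tr)

/-- insert a fact with number `n` -/
def Tr.ins : ℕ → Tr → ℕ → Fact → Tr
  | 0, t, _, _ => t
  | _ + 1, .lf, _, f => .nd f .lf .lf
  | k + 1, .nd e l r, n, f =>
    match n % 2 with
    | 0 => .nd e l (Tr.ins k r ((n - 2) / 2) f)
    | _ => .nd e (Tr.ins k l ((n - 1) / 2) f) r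

/-- the fact with number `n` -/
def Tr.get : ℕ → Tr → ℕ → Option Fact
  | 0, _, _ => none
  | _ + 1, .lf, _ => none
  | k + 1, .nd e l r, n =>
    match n with
    | 0 => some e
    | _ => match n % 2 with
      | 0 => Tr.get k r ((n - 2) / 2)
      | _ => Tr.get k l ((n - 1) / 2)

/-- all facts of a tree -/
def Tr.All (P : Fact → Prop) : Tr → Prop
  | .lf => True
  | .nd f l r => P f ∧ l.All P ∧ r.All P

theorem Tr.all_ins {P : Fact → Prop} {f : Fact} (hf : P f) :
    ∀ (k : ℕ) (t : Tr) (n : ℕ), t.All P → (Tr.ins k t n f).All P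
  | 0, _, _, h => h
  | _ + 1, .lf, _, _ => ⟨hf, trivial, trivial⟩
  | k + 1, .nd e l r, n, h => by
    simp only [Tr.ins]
    split
    · exact ⟨h.1, h.2.1, Tr.all_ins hf k r _ h.2.2⟩
    · exact ⟨h.1, Tr.all_ins hf k l _ h.2.1, h.2.2⟩

theorem Tr.all_get {P : Fact → Prop} :
    ∀ (k : ℕ) (t : Tr) (n : ℕ) (f : Fact), t.All P → Tr.get k t n = some f → P f
  | 0, _, _, _, _, h => by simp [Tr.get] at h
  | _ + 1, .lf, _, _, _, h => by simp [Tr.get] at h
  | k + 1, .nd e l r, n, f, ha, h => by
    simp only [Tr.get] at h
    split at h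
    · cases h; exact ha.1
    · split at h
      · exact Tr.all_get k r _ f ha.2.2 h
      · exact Tr.all_get k l _ f ha.2.1 h

/-- the tangle with number `n` -/
def nth : List Box → ℕ → Option Box
  | [], _ => none
  | t :: _, 0 => some t
  | _ :: l, n + 1 => nth l n

theorem nth_mem : ∀ {T : List Box} {n : ℕ} {t : Box}, nth T n = some t → t ∈ T
  | [], _, _, h => by simp [nth] at h
  | a :: l, 0, t, h => by
    simp only [nth, Option.some.injEq] at h
    rw [h]; exact List.mem_cons_self
  | a :: l, n + 1, t, h => List.mem_cons_of_mem _ (nth_mem (by simpa only [nth] using h))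

/-- One step of a derivation. -/
def rule (T : List Box) (env : Tr) (op a b : ℕ) : Option Fact :=
  match env.get 14 a with
  | none => none
  | some f =>
    match op with
    | 0 => match env.get 14 b with
      | none => none
      | some h => trans f h
    | 1 => some (ap f b)
    | op + 2 => match nth T b with
      | none => none
      | some t => match op with
        | 0 => rta f t.W t.E t.N t.S
        | 1 => rta f t.E t.W t.S t.N
        | 2 => rta f t.N t.S t.W t.E
        | 3 => rta f t.S t.N t.E t.W
        | 4 => rfp f t.E t.W t.S t.N false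
        | 5 => rfp f t.W t.E t.N t.S false
        | 6 => rfp f t.S t.N t.E t.W true
        | 7 => rfp f t.N t.S t.W t.E true
        | 8 => rfc f t.W t.E t.N t.S false
        | 9 => rfc f t.E t.W t.S t.N false
        | 10 => rfc f t.S t.N t.E t.W true
        | 11 => rfc f t.N t.S t.W t.E true
        | _ => none

/-- Certificates. -/
inductive Cert
  /-- derive a fact -/
  | step (op a b : ℕ) (rest : Cert)
  /-- two cases: `u < v` and `v ≤ u` -/
  | split (u v : List ℕ) (c₁ c₂ : Cert)
  /-- the fact with number `i` is a contradiction -/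
  | contra (i : ℕ)
  /-- all tangles are trivial at the base point -/
  | zero (l : List (ℕ × ℕ))

/-- check a leaf of the second type -/
def zeros (env : Tr) : List Box → List (ℕ × ℕ) → Bool
  | [], _ => true
  | t :: T, (i, j) :: l =>
    match env.get 14 i, env.get 14 j with
    | some f, some h => beqW f.u [2 * t.W] && (beqW f.v [2 * t.E] &&
        (beqW h.u [2 * t.E] && (beqW h.v [2 * t.W] && zeros env T l)))
    | _, _ => false
  | _ :: _, [] => false

/-- The checker. -/
def check (T : List Box) : Cert → Tr → ℕ → Bool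
  | .step op a b c, env, n =>
    match rule T env op a b with
    | none => false
    | some f => check T c (Tr.ins 14 env n f) (n + 1)
  | .split u v c₁ c₂, env, n =>
    check T c₁ (Tr.ins 14 env n ⟨u, v, true⟩) (n + 1) &&
      check T c₂ (Tr.ins 14 env n ⟨v, u, false⟩) (n + 1)
  | .contra i, env, _ =>
    match env.get 14 i with
    | none => false
    | some f => f.st && beqW f.u f.v
  | .zero l, env, _ => zeros env T l

section sound

variable {X : Type*} [LinearOrder X] {g : ℕ → Aut X} {T : List Box} {s : X}

theorem Fact.Holds.le {f : Fact} (h : f.Holds g s) : ev g s f.u ≤ ev g s f.v := by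
  unfold Fact.Holds at h
  split at h
  · exact h.le
  · exact h

theorem trans_sound {f h e : Fact} (hf : f.Holds g s) (hh : h.Holds g s) (he : trans f h = some e) :
    e.Holds g s := by
  unfold trans at he
  split at he
  · rename_i h1
    have h2 := beqW_eq h1
    simp only [Option.some.injEq] at he
    subst he
    obtain ⟨fu, fv, fs⟩ := f
    obtain ⟨hu, hv, hs⟩ := h
    simp only at h2
    subst h2
    cases fs <;> cases hs <;> simp only [Fact.Holds, Bool.or_true, Bool.or_false,
      Bool.or_self] at hf hh ⊢
    · exact hf.trans hh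
    · exact hf.trans_lt hh
    · exact hf.trans_le hh
    · exact hf.trans hh
  · simp at he

theorem ap_sound {f : Fact} (l : ℕ) (hf : f.Holds g s) : (ap f l).Holds g s := by
  obtain ⟨fu, fv, fs⟩ := f
  cases fs <;> simp only [Fact.Holds, ap, ev_push] at hf ⊢
  · exact (le_iff _).mpr hf
  · exact (lt_iff _).mpr hf

theorem rta_sound {f e : Fact} {a b c d : ℕ}
    (h0 : ∀ p : X, (g a p ≤ g b p → g c p ≤ g d p) ∧ (g a p < g b p → g c p < g d p))
    (hf : f.Holds g s) (he : rta f a b c d = some e) : e.Holds g s := by
  unfold rta at he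
  simp only at he
  split at he
  · rename_i h1
    have h2 := beqW_eq h1
    simp only [Option.some.injEq] at he
    subst he
    obtain ⟨fu, fv, fs⟩ := f
    simp only at h2 hf ⊢
    have h3 : ev g s fu = g a (ev g s (push (2 * a + 1) fu)) := by
      rw [ev_push_odd, self_inv]
    have h4 : ev g s fv = g b (ev g s (push (2 * a + 1) fu)) := by
      rw [← h2, ev_push_even]
    cases fs <;> simp only [Fact.Holds] at hf ⊢
    · rw [h3, h4] at hf
      rw [ev_push_even, ev_push_even]
      exact (h0 _).1 hf
    · rw [h3, h4] at hf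
      rw [ev_push_even, ev_push_even]
      exact (h0 _).2 hf
  · simp at he

theorem rfp_sound {f e : Fact} {a b c d : ℕ} {flip : Bool}
    (h0 : ∀ x : X, (g a)⁻¹ x ≤ (g b)⁻¹ x → match flip with
      | false => g c ((g a)⁻¹ x) ≤ g d ((g b)⁻¹ x)
      | true => g d ((g b)⁻¹ x) ≤ g c ((g a)⁻¹ x))
    (hf : f.Holds g s) (he : rfp f a b c d flip = some e) : e.Holds g s := by
  unfold rfp at he
  simp only at he
  split at he
  · rename_i h1
    have h2 := beqW_eq h1
    obtain ⟨fu, fv, fs⟩ := f
    have hf' := hf.le
    simp only at h2 hf' he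
    have h3 : ev g s fu = (g a)⁻¹ (ev g s (push (2 * a) fu)) := by
      rw [ev_push_even, inv_self]
    have h4 : ev g s fv = (g b)⁻¹ (ev g s (push (2 * a) fu)) := by
      rw [← h2, ev_push_odd]
    have h5 := h0 (ev g s (push (2 * a) fu)) (by rw [← h3, ← h4]; exact hf')
    rw [← h3, ← h4] at h5
    cases flip <;> simp only [Option.some.injEq] at he h5 <;> subst he <;>
      simp only [Fact.Holds, ev_push_even] <;> exact h5
  · simp at he

theorem rfc_sound {f e : Fact} {a b c d : ℕ} {flip : Bool}
    (h0 : ∀ x : X, g c ((g a)⁻¹ x) < g d ((g b)⁻¹ x) → match flip with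
      | false => (g a)⁻¹ x < (g b)⁻¹ x
      | true => (g b)⁻¹ x < (g a)⁻¹ x)
    (hf : f.Holds g s) (he : rfc f a b c d flip = some e) : e.Holds g s := by
  unfold rfc at he
  split at he
  · simp at he
  · rename_i hst
    simp only at he
    split at he
    · rename_i h1
      have h2 := beqW_eq h1
      obtain ⟨fu, fv, fs⟩ := f
      simp only at hst h2 he
      subst hst
      simp only [Fact.Holds] at hf
      have e1 : ev g s (push (2 * c + 1) fu) =
          (g a)⁻¹ (ev g s (push (2 * a) (push (2 * c + 1) fu))) := by
        rw [ev_push_even, inv_self]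
      have e2 : ev g s (push (2 * d + 1) fv) =
          (g b)⁻¹ (ev g s (push (2 * a) (push (2 * c + 1) fu))) := by
        rw [h2, ev_push_even, inv_self]
      have e3 : ev g s fu = g c (ev g s (push (2 * c + 1) fu)) := by rw [ev_push_odd, self_inv]
      have e4 : ev g s fv = g d (ev g s (push (2 * d + 1) fv)) := by rw [ev_push_odd, self_inv]
      rw [e3, e4, e1, e2] at hf
      have h5 := h0 _ hf
      rw [← e1, ← e2] at h5
      cases flip <;> simp only [Option.some.injEq] at he h5 <;> subst he <;>
        simp only [Fact.Holds] <;> exact h5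
    · simp at he

theorem rule_sound (H : Sys g T) {env : Tr} (henv : env.All (Fact.Holds g s)) {op a b : ℕ} {e : Fact}
    (he : rule T env op a b = some e) : e.Holds g s := by
  unfold rule at he
  split at he
  · simp at he
  · rename_i f hf
    have hf := Tr.all_get _ _ _ _ henv hf
    split at he
    · split at he
      · simp at he
      · rename_i h hh
        exact trans_sound hf (Tr.all_get _ _ _ _ henv hh) he
    · simp only [Option.some.injEq] at he
      subst he
      exact ap_sound _ hf
    · split at he
      · simp at he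
      · rename_i t ht
        have ht := nth_mem ht
        have hta := H.ta t ht
        have hew := H.ew t ht
        have hsn := H.sn t ht
        split at he
        · exact rta_sound (fun p => ⟨(hta p).1.mp, fun h => lt_of_not_ge fun h1 =>
            absurd ((hta p).2.mpr h1) (not_le.mpr h)⟩) hf he
        · exact rta_sound (fun p => ⟨(hta p).2.mp, fun h => lt_of_not_ge fun h1 =>
            absurd ((hta p).1.mpr h1) (not_le.mpr h)⟩) hf he
        · exact rta_sound (fun p => ⟨(hta p).1.mpr, fun h => lt_of_not_ge fun h1 =>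
            absurd ((hta p).2.mp h1) (not_le.mpr h)⟩) hf he
        · exact rta_sound (fun p => ⟨(hta p).2.mpr, fun h => lt_of_not_ge fun h1 =>
            absurd ((hta p).1.mp h1) (not_le.mpr h)⟩) hf he
        · exact rfp_sound (fun x => (hew x).1) hf he
        · exact rfp_sound (fun x => (hew x).2) hf he
        · exact rfp_sound (fun x => (hsn x).1) hf he
        · exact rfp_sound (fun x => (hsn x).2) hf he
        · exact rfc_sound (fun x h => lt_of_not_ge fun h1 => absurd ((hew x).1 h1) (not_le.mpr h))
            hf he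
        · exact rfc_sound (fun x h => lt_of_not_ge fun h1 => absurd ((hew x).2 h1) (not_le.mpr h))
            hf he
        · exact rfc_sound (fun x h => lt_of_not_ge fun h1 => absurd ((hsn x).1 h1) (not_le.mpr h))
            hf he
        · exact rfc_sound (fun x h => lt_of_not_ge fun h1 => absurd ((hsn x).2 h1) (not_le.mpr h))
            hf he
        · simp at he

theorem zeros_sound {env : Tr} (henv : env.All (Fact.Holds g s)) :
    ∀ {T : List Box} {l : List (ℕ × ℕ)}, zeros env T l = true → ∀ t ∈ T, g t.W s = g t.E s
  | [], _, _ => by simp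
  | t :: T, [], h => by simp [zeros] at h
  | t :: T, (i, j) :: l, h => by
    simp only [zeros] at h
    split at h
    · rename_i f e hf he
      have hf := (Tr.all_get _ _ _ _ henv hf).le
      have he := (Tr.all_get _ _ _ _ henv he).le
      simp only [Bool.and_eq_true] at h
      obtain ⟨h1, h2, h3, h4, h5⟩ := h
      rw [beqW_eq h1, beqW_eq h2] at hf
      rw [beqW_eq h3, beqW_eq h4] at he
      simp only [ev, act_even] at hf he
      intro t' ht'
      rcases List.mem_cons.mp ht' with rfl | ht'
      · exact le_antisymm hf he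
      · exact zeros_sound henv h5 t' ht'
    · simp at h

/-- The checker is correct. -/
theorem check_sound (H : Sys g T) : ∀ (c : Cert) (env : Tr) (n : ℕ), env.All (Fact.Holds g s) →
    check T c env n = true → ∀ t ∈ T, g t.W s = g t.E s
  | .step op a b c, env, n, henv, h => by
    simp only [check] at h
    split at h
    · simp at h
    · rename_i f hf
      exact check_sound H c _ _ (Tr.all_ins (rule_sound H henv hf) _ _ _ henv) h
  | .split u v c₁ c₂, env, n, henv, h => by
    simp only [check, Bool.and_eq_true] at h
    rcases lt_or_ge (ev g s u) (ev g s v) with h1 | h1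
    · exact check_sound H c₁ _ _ (Tr.all_ins (f := ⟨u, v, true⟩) h1 _ _ _ henv) h.1
    · exact check_sound H c₂ _ _ (Tr.all_ins (f := ⟨v, u, false⟩) h1 _ _ _ henv) h.2
  | .contra i, env, n, henv, h => by
    simp only [check] at h
    split at h
    · simp at h
    · rename_i f hf
      have hf := Tr.all_get _ _ _ _ henv hf
      simp only [Bool.and_eq_true] at h
      obtain ⟨fu, fv, fs⟩ := f
      simp only at h
      obtain ⟨rfl, h2⟩ := h
      rw [beqW_eq h2] at hf
      exact absurd hf (lt_irrefl _)
  | .zero l, env, n, henv, h => zeros_sound henv (by simpa only [check] using h)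

end sound

end Pool.Agent.K7.H46.LO
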