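import Pool.Agent.K7.H39.TB.Pub

set_option autoImplicit false

/-!
# Closed chains of tangles on any number of strands: the definitions used in the statement

A word is a list `w` of letters `c : Fin k`, read cyclically. The letter `c` stands for a tangle
between the strands `c` and `c + 1` of a closed braid on the `k + 1` strands `0, ..., k`.
-/

namespace Pool.Agent.K7.H46.LO

open Pool.Agent.Y479.LS Pool.Agent.K7.H39.TB

variable {k : ℕ}

/-- the column of regions to the left of the strand `c` -/
def left (c : Fin k) : Fin (k + 2) := c.castSucc.castSucc

/-- the column of regions between the strands `c` and `c + 1` -/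
def mid (c : Fin k) : Fin (k + 2) := c.succ.castSucc

/-- the column of regions to the right of the strand `c + 1` -/
def right (c : Fin k) : Fin (k + 2) := c.succ.succ

namespace Chain

variable (w : List (Fin k)) (M : Fin w.length → Piece)

/-- Generators: the region of the column `i` before the letter with number `j`, for all `i`, `j`, and
the elements of the pieces. -/
abbrev Gen : Type := (Fin (k + 2) × Fin w.length) ⊕ (Σ j, (M j).P)

def gR (i : Fin (k + 2)) (j : Fin w.length) : FreeGroup (Gen w M) := FreeGroup.of (Sum.inl (i, j))
def gP (j : Fin w.length) (x : (M j).P) : FreeGroup (Gen w M) := FreeGroup.of (Sum.inr ⟨j, x⟩)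

/-- The relations: the multiplication tables of the pieces; the regions of the other columns do not
change at the letter `j`; at the letter `c` with number `j`, the elements `A` and `a` of the piece are
`west⁻¹ east` and `north⁻¹ south`, where `west` and `east` are the regions of the columns to the left
and to the right of the tangle, and `south` and `north` are the regions of the middle column before
and after the letter. The region of the column `0` (the outer region), and the first region of the
column `1` are equal to `1`. -/
def relators : Set (FreeGroup (Gen w M)) :=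
  {r | (∃ (j : Fin w.length) (x y : (M j).P), r = gP w M j x * gP w M j y * (gP w M j (x * y))⁻¹) ∨
    (∃ (j : Fin w.length) (i : Fin (k + 2)), i ≠ mid (w.get j) ∧
      r = gR w M i (nx j) * (gR w M i j)⁻¹) ∨
    (∃ j : Fin w.length,
      r = (gR w M (left (w.get j)) j)⁻¹ * gR w M (right (w.get j)) j * (gP w M j (M j).A)⁻¹ ∨
      r = (gR w M (mid (w.get j)) (nx j))⁻¹ * gR w M (mid (w.get j)) j * (gP w M j (M j).a)⁻¹) ∨
    (∃ j : Fin w.length, j.1 = 0 ∧ (r = gR w M 0 j ∨ r = gR w M 1 j))}

/-- The group of the closed chain of the pieces `M j`. -/
abbrev Grp : Type := PresentedGroup (relators w M)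

end Chain

/-- The fundamental group of the double branched cover of the closed chain with the cyclic word `w`
and the tangles `T j`. -/
abbrev TangleChain (w : List (Fin k)) (T : Fin w.length → Tang) : Type :=
  Chain.Grp w (fun j => (T j).piece)

/-- The words: three words on four strands, with 9, 10 and 11 letters, and `(0 2 1 3) ^ 3` on five
strands. -/
def words : List (Σ k, List (Fin k)) :=
  [⟨3, [0, 1, 0, 2, 1, 0, 2, 1, 2]⟩,
   ⟨3, [0, 1, 0, 1, 2, 1, 0, 2, 1, 2]⟩,
   ⟨3, [0, 1, 0, 1, 2, 1, 0, 2, 1, 2, 1]⟩,
   ⟨4, [0, 2, 1, 3, 0, 2, 1, 3, 0, 2, 1, 3]⟩]

end Pool.Agent.K7.H46.LO
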