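import Pool.Agent.K7.H46.LO.Words
import Pool.Agent.K7.H46.LO.Pub
import Pool.Agent.K7.H39.TB.Glued

set_option autoImplicit false

/-!
# The group of a closed chain and its region system
-/

namespace Pool.Agent.K7.H46.LO

open Pool.Agent.Y479.LS Pool.Agent.K7.H39.TB Aut

section aut

variable {X : Type*} [LinearOrder X]

/-- The four regions at a bounded proper tangle. -/
theorem rules (W E S N : Aut X)
    (hpos : ∀ p, p < (W⁻¹ * E) p → p < (N⁻¹ * S) p) (hneg : ∀ p, (W⁻¹ * E) p < p → (N⁻¹ * S) p < p)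
    (hfix : ∀ p, (W⁻¹ * E) p = p → (N⁻¹ * S) p = p)
    (hle : ∀ p, p < (W⁻¹ * E) p → (N⁻¹ * S) p ≤ (W⁻¹ * E) p)
    (hge : ∀ p, (W⁻¹ * E) p < p → (W⁻¹ * E) p ≤ (N⁻¹ * S) p) :
    (∀ p : X, (W p ≤ E p ↔ N p ≤ S p) ∧ (E p ≤ W p ↔ S p ≤ N p)) ∧
    (∀ x : X, (E⁻¹ x ≤ W⁻¹ x → S (E⁻¹ x) ≤ N (W⁻¹ x)) ∧
      (W⁻¹ x ≤ E⁻¹ x → N (W⁻¹ x) ≤ S (E⁻¹ x))) ∧
    (∀ x : X, (S⁻¹ x ≤ N⁻¹ x → W (N⁻¹ x) ≤ E (S⁻¹ x)) ∧
      (N⁻¹ x ≤ S⁻¹ x → E (S⁻¹ x) ≤ W (N⁻¹ x))) := by
  have e1 : ∀ p, p ≤ (W⁻¹ * E) p ↔ W p ≤ E p := fun p => by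
    rw [← W.le_iff, mul_apply, self_inv]
  have e2 : ∀ p, (W⁻¹ * E) p ≤ p ↔ E p ≤ W p := fun p => by
    rw [← W.le_iff, mul_apply, self_inv]
  have e3 : ∀ p, p ≤ (N⁻¹ * S) p ↔ N p ≤ S p := fun p => by
    rw [← N.le_iff, mul_apply, self_inv]
  have e4 : ∀ p, (N⁻¹ * S) p ≤ p ↔ S p ≤ N p := fun p => by
    rw [← N.le_iff, mul_apply, self_inv]
  have f1 : ∀ p, p ≤ (W⁻¹ * E) p ↔ p ≤ (N⁻¹ * S) p := by
    intro p
    constructor
    · intro h
      rcases h.lt_or_eq with h | h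
      · exact (hpos p h).le
      · exact (hfix p h.symm).ge
    · intro h
      by_contra h1
      exact absurd h (not_le.mpr (hneg p (not_le.mp h1)))
  have f2 : ∀ p, (W⁻¹ * E) p ≤ p ↔ (N⁻¹ * S) p ≤ p := by
    intro p
    constructor
    · intro h
      rcases h.lt_or_eq with h | h
      · exact (hneg p h).le
      · exact (hfix p h).le
    · intro h
      by_contra h1
      exact absurd h (not_le.mpr (hpos p (not_le.mp h1)))
  have g1 : ∀ p, p ≤ (W⁻¹ * E) p → (N⁻¹ * S) p ≤ (W⁻¹ * E) p := by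
    intro p h
    rcases h.lt_or_eq with h | h
    · exact hle p h
    · rw [hfix p h.symm]; exact h.le
  have g2 : ∀ p, (W⁻¹ * E) p ≤ p → (W⁻¹ * E) p ≤ (N⁻¹ * S) p := by
    intro p h
    rcases h.lt_or_eq with h | h
    · exact hge p h
    · rw [hfix p h]; exact h.le
  refine ⟨fun p => ⟨?_, ?_⟩, fun x => ⟨fun h => ?_, fun h => ?_⟩, fun x => ⟨fun h => ?_, fun h => ?_⟩⟩
  · rw [← e1, ← e3]; exact f1 p
  · rw [← e2, ← e4]; exact f2 p
  · have h1 : (W⁻¹ * E) (E⁻¹ x) = W⁻¹ x := by rw [mul_apply, self_inv]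
    have h2 := g1 (E⁻¹ x) (by rw [h1]; exact h)
    rw [h1, ← N.le_iff, mul_apply, self_inv] at h2
    exact h2
  · have h1 : (W⁻¹ * E) (E⁻¹ x) = W⁻¹ x := by rw [mul_apply, self_inv]
    have h2 := g2 (E⁻¹ x) (by rw [h1]; exact h)
    rw [h1, ← N.le_iff, mul_apply, self_inv] at h2
    exact h2
  · have h1 : (N⁻¹ * S) (S⁻¹ x) = N⁻¹ x := by rw [mul_apply, self_inv]
    have h2 := g1 (S⁻¹ x) ((f1 _).mpr (by rw [h1]; exact h))
    rw [h1, ← W.le_iff, mul_apply, self_inv] at h2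
    exact h2
  · have h1 : (N⁻¹ * S) (S⁻¹ x) = N⁻¹ x := by rw [mul_apply, self_inv]
    have h2 := g2 (S⁻¹ x) ((f2 _).mpr (by rw [h1]; exact h))
    rw [h1, ← W.le_iff, mul_apply, self_inv] at h2
    exact h2

end aut

namespace Chain

variable {k : ℕ} {w : List (Fin k)} {M : Fin w.length → Piece}

def R (i : Fin (k + 2)) (j : Fin w.length) : Grp w M := PresentedGroup.mk _ (gR w M i j)

theorem mk_one {r : FreeGroup (Gen w M)} (h : r ∈ relators w M) :
    (PresentedGroup.mk (relators w M) r : Grp w M) = 1 := PresentedGroup.one_of_mem h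

/-- the homomorphism from a piece -/
def inc (j : Fin w.length) : (M j).P →* Grp w M :=
  MonoidHom.mk' (fun x => PresentedGroup.mk _ (gP w M j x)) (by
    intro x y
    have h1 := mk_one (w := w) (M := M) (Or.inl ⟨j, x, y, rfl⟩)
    rw [map_mul, map_inv, mul_inv_eq_one, map_mul] at h1
    exact h1.symm)

theorem relC (j : Fin w.length) (i : Fin (k + 2)) (h : i ≠ mid (w.get j)) :
    (R i (nx j) : Grp w M) = R i j := by
  have h1 := mk_one (w := w) (M := M) (Or.inr (Or.inl ⟨j, i, h, rfl⟩))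
  rw [map_mul, map_inv, mul_inv_eq_one] at h1
  exact h1

theorem relA (j : Fin w.length) :
    (R (left (w.get j)) j : Grp w M)⁻¹ * R (right (w.get j)) j = inc j (M j).A := by
  have h1 := mk_one (w := w) (M := M) (Or.inr (Or.inr (Or.inl ⟨j, Or.inl rfl⟩)))
  rw [map_mul, map_inv, mul_inv_eq_one, map_mul, map_inv] at h1
  exact h1

theorem rela (j : Fin w.length) :
    (R (mid (w.get j)) (nx j) : Grp w M)⁻¹ * R (mid (w.get j)) j = inc j (M j).a := by
  have h1 := mk_one (w := w) (M := M) (Or.inr (Or.inr (Or.inl ⟨j, Or.inr rfl⟩)))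
  rw [map_mul, map_inv, mul_inv_eq_one, map_mul, map_inv] at h1
  exact h1

theorem rel0 (j : Fin w.length) (h : j.1 = 0) :
    (R 0 j : Grp w M) = 1 ∧ (R 1 j : Grp w M) = 1 :=
  ⟨mk_one (w := w) (M := M) (Or.inr (Or.inr (Or.inr ⟨j, h, Or.inl rfl⟩))),
    mk_one (w := w) (M := M) (Or.inr (Or.inr (Or.inr ⟨j, h, Or.inr rfl⟩)))⟩

/-- the regions, with natural numbers as indices -/
def Rn (w : List (Fin k)) (M : Fin w.length → Piece) (i j : ℕ) : Grp w M :=
  if h : i < k + 2 ∧ j < w.length then R ⟨i, h.1⟩ ⟨j, h.2⟩ else 1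

theorem Rn_eq (i : Fin (k + 2)) (j : Fin w.length) : Rn w M i.1 j.1 = R i j := by
  unfold Rn; rw [dif_pos ⟨i.2, j.2⟩]

/-- the word with natural numbers as letters -/
def nat (w : List (Fin k)) : List ℕ := w.map Fin.val

theorem nat_length : (nat w).length = w.length := by simp [nat]

theorem lett_nat {j : ℕ} (h : j < w.length) : lett (nat w) j = (w.get ⟨j, h⟩).1 := by
  unfold lett nat
  rw [List.getD_eq_getElem _ _ (by simpa using h)]
  simp

theorem pre_lt {j : ℕ} (h : j < w.length) : pre (nat w) j < w.length := by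
  unfold pre; rw [nat_length]; exact Nat.mod_lt _ (by omega)

theorem nx_pre {j : ℕ} (h : j < w.length) : nx ⟨pre (nat w) j, pre_lt h⟩ = (⟨j, h⟩ : Fin w.length) := by
  apply Fin.ext
  simp only [nx, pre, nat_length]
  rw [Nat.mod_add_mod]
  have : j + w.length - 1 + 1 = j + w.length := by omega
  rw [this, Nat.add_mod_right, Nat.mod_eq_of_lt h]

theorem mid_val (c : Fin k) : (mid c).1 = c.1 + 1 := by simp [mid]
theorem left_val (c : Fin k) : (left c).1 = c.1 := by simp [left]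
theorem right_val (c : Fin k) : (right c).1 = c.1 + 2 := by simp [right]

theorem rt_spec {i : ℕ} (hi : i < k + 2) : ∀ (f j : ℕ), j < w.length →
    rt (nat w) i f j < w.length ∧ Rn w M i (rt (nat w) i f j) = Rn w M i j
  | 0, j, hj => ⟨hj, rfl⟩
  | f + 1, j, hj => by
    simp only [rt]
    split_ifs with h
    · exact ⟨hj, rfl⟩
    · obtain ⟨h1, h2⟩ := rt_spec hi f _ (pre_lt hj)
      refine ⟨h1, h2.trans ?_⟩
      have h3 : (⟨i, hi⟩ : Fin (k + 2)) ≠ mid (w.get ⟨pre (nat w) j, pre_lt hj⟩) := by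
        intro h4
        apply h
        rw [lett_nat (pre_lt hj), ← mid_val, ← h4]
        simp
      have h4 := relC (M := M) _ _ h3
      rw [nx_pre hj] at h4
      rw [← Rn_eq, ← Rn_eq] at h4
      exact h4.symm

theorem const_spec {i : ℕ} (hi : i < k + 2)
    (h : (nat w).any (fun c => Nat.beq (c + 1) i) = false) :
    ∀ j, j < w.length → Rn w M i j = Rn w M i 0
  | 0, _ => rfl
  | j + 1, hj => by
    rw [← const_spec hi h j (by omega)]
    have h3 : (⟨i, hi⟩ : Fin (k + 2)) ≠ mid (w.get ⟨j, by omega⟩) := by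
      intro h4
      have h5 : (w.get ⟨j, by omega⟩).1 ∈ nat w := by
        unfold nat; exact List.mem_map_of_mem (List.get_mem _ _)
      rw [List.any_eq_false] at h
      apply h _ h5
      rw [← mid_val, ← h4]
      simp
    have h4 := relC (M := M) ⟨j, by omega⟩ _ h3
    have h5 : nx (⟨j, by omega⟩ : Fin w.length) = ⟨j + 1, hj⟩ := by
      apply Fin.ext; simp only [nx]; exact Nat.mod_eq_of_lt hj
    rw [h5, ← Rn_eq, ← Rn_eq] at h4
    exact h4

variable {X : Type*} [LinearOrder X] (φ : Grp w M →* Aut X)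

/-- the automorphism for the region with number `n` -/
def gg (n : ℕ) : Aut X := φ (Rn w M (n / 16) (n % 16))

theorem gg_code (hN : w.length ≤ 16) {i j : ℕ} (hi : i < k + 2) (hj : j < w.length) :
    gg φ (code (nat w) i j) = φ (Rn w M i j) := by
  unfold code
  split_ifs with h
  · obtain ⟨h1, h2⟩ := rt_spec (M := M) hi (nat w).length j hj
    unfold gg
    have e1 : (16 * i + rt (nat w) i (nat w).length j) / 16 = i := by omega
    have e2 : (16 * i + rt (nat w) i (nat w).length j) % 16 = rt (nat w) i (nat w).length j := by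
      omega
    rw [e1, e2, h2]
  · have h1 := const_spec (M := M) hi (by simpa using h) j hj
    unfold gg
    have e1 : (16 * i) / 16 = i := by omega
    have e2 : (16 * i) % 16 = 0 := by omega
    rw [e1, e2, h1]

end Chain

end Pool.Agent.K7.H46.LO
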