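import Pool.Agent.K7.H46.LO.Grp

set_option autoImplicit false

/-!
# Chains of tangles whose word has a certificate
-/

namespace Pool.Agent.K7.H46.LO

open Pool.Agent.Y479.LS Pool.Agent.K7.H39.TB Aut

namespace Chain

variable {k : ℕ} {w : List (Fin k)} {M : Fin w.length → Piece}

variable {X : Type} [LinearOrder X] (φ : Grp w M →* Aut X)

theorem sys (hN : w.length ≤ 16) (h1 : ∀ j, (M j).Ok) (h2 : ∀ j, (M j).Bounded)
    (h3 : ∀ j, (M j).Proper) : Sys (gg φ) (boxes (nat w)) := by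
  have key : ∀ j (hj : j < w.length), gg φ (box (nat w) j).W = φ (R (left (w.get ⟨j, hj⟩)) ⟨j, hj⟩) ∧
      gg φ (box (nat w) j).E = φ (R (right (w.get ⟨j, hj⟩)) ⟨j, hj⟩) ∧
      gg φ (box (nat w) j).S = φ (R (mid (w.get ⟨j, hj⟩)) ⟨j, hj⟩) ∧
      gg φ (box (nat w) j).N = φ (R (mid (w.get ⟨j, hj⟩)) (nx ⟨j, hj⟩)) := by
    intro j hj
    have hc : (w.get ⟨j, hj⟩).1 < k := (w.get ⟨j, hj⟩).2
    refine ⟨?_, ?_, ?_, ?_⟩
    · simp only [box]
      rw [lett_nat hj, gg_code φ hN (by omega) hj, ← Rn_eq, left_val]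
    · simp only [box]
      rw [lett_nat hj, gg_code φ hN (by omega) hj, ← Rn_eq, right_val]
    · simp only [box]
      rw [lett_nat hj, gg_code φ hN (by omega) hj, ← Rn_eq, mid_val]
    · simp only [box]
      rw [lett_nat hj, nat_length, gg_code φ hN (by omega) (Nat.mod_lt _ (by omega)), ← Rn_eq,
        mid_val]
      simp only [nx]
  have key2 : ∀ t ∈ boxes (nat w), (∀ p : X, (gg φ t.W p ≤ gg φ t.E p ↔ gg φ t.N p ≤ gg φ t.S p) ∧
      (gg φ t.E p ≤ gg φ t.W p ↔ gg φ t.S p ≤ gg φ t.N p)) ∧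
      (∀ x : X, ((gg φ t.E)⁻¹ x ≤ (gg φ t.W)⁻¹ x →
        gg φ t.S ((gg φ t.E)⁻¹ x) ≤ gg φ t.N ((gg φ t.W)⁻¹ x)) ∧
      ((gg φ t.W)⁻¹ x ≤ (gg φ t.E)⁻¹ x →
        gg φ t.N ((gg φ t.W)⁻¹ x) ≤ gg φ t.S ((gg φ t.E)⁻¹ x))) ∧
      (∀ x : X, ((gg φ t.S)⁻¹ x ≤ (gg φ t.N)⁻¹ x →
        gg φ t.W ((gg φ t.N)⁻¹ x) ≤ gg φ t.E ((gg φ t.S)⁻¹ x)) ∧
      ((gg φ t.N)⁻¹ x ≤ (gg φ t.S)⁻¹ x →
        gg φ t.E ((gg φ t.S)⁻¹ x) ≤ gg φ t.W ((gg φ t.N)⁻¹ x))) := by
    intro t ht
    simp only [boxes, List.mem_map, List.mem_range, nat_length] at ht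
    obtain ⟨j, hj, rfl⟩ := ht
    obtain ⟨e1, e2, e3, e4⟩ := key j hj
    rw [e1, e2, e3, e4]
    have eA : (φ (R (left (w.get ⟨j, hj⟩)) ⟨j, hj⟩))⁻¹ * φ (R (right (w.get ⟨j, hj⟩)) ⟨j, hj⟩) =
        (φ.comp (inc ⟨j, hj⟩)) (M ⟨j, hj⟩).A := by
      rw [MonoidHom.comp_apply, ← relA, map_mul, map_inv]
    have ea : (φ (R (mid (w.get ⟨j, hj⟩)) (nx ⟨j, hj⟩)))⁻¹ * φ (R (mid (w.get ⟨j, hj⟩)) ⟨j, hj⟩) =
        (φ.comp (inc ⟨j, hj⟩)) (M ⟨j, hj⟩).a := by
      rw [MonoidHom.comp_apply, ← rela, map_mul, map_inv]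
    refine rules _ _ _ _ ?_ ?_ ?_ ?_ ?_
    · intro p; rw [eA, ea]; exact (h3 _).pos X _ p
    · intro p; rw [eA, ea]; exact (h3 _).neg X _ p
    · intro p; rw [eA, ea]; exact fun h => (h1 _).fix X _ p h _
    · intro p; rw [eA, ea]; exact (h2 _).pos X _ p
    · intro p; rw [eA, ea]; exact (h2 _).neg X _ p
  exact ⟨fun t ht => (key2 t ht).1, fun t ht => (key2 t ht).2.1, fun t ht => (key2 t ht).2.2⟩

/-- If the word has a certificate then all actions on linear orders are trivial. -/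
theorem trivial_action (hN : w.length ≤ 16) (hN0 : 0 < w.length) (hw : ∀ c : Fin k, c ∈ w)
    {cert : Cert} (hcert : check (boxes (nat w)) cert .lf 0 = true)
    (h1 : ∀ j, (M j).Ok) (h2 : ∀ j, (M j).Bounded) (h3 : ∀ j, (M j).Proper) (x : X)
    (γ : Grp w M) : φ γ x = x := by
  have h4 := check_sound (sys φ hN h1 h2 h3) (s := x) cert .lf 0 trivial hcert
  -- the regions to the left and to the right of a tangle agree
  have h5 : ∀ j : Fin w.length, φ (R (left (w.get j)) j) x = φ (R (right (w.get j)) j) x := by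
    intro j
    have h6 := h4 (box (nat w) j.1) (by
      simp only [boxes, List.mem_map, List.mem_range, nat_length]; exact ⟨j.1, j.2, rfl⟩)
    have hc : (w.get j).1 < k := (w.get j).2
    simp only [box] at h6
    rw [lett_nat j.2, gg_code φ hN (by omega) j.2, gg_code φ hN (by omega) j.2] at h6
    rw [← Rn_eq, ← Rn_eq, left_val, right_val]
    exact h6
  -- the pieces act trivially
  have h6 : ∀ (j : Fin w.length) (g : (M j).P), φ (inc j g) x = x := by
    intro j g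
    have h7 : (φ.comp (inc j)) (M j).A x = x := by
      rw [MonoidHom.comp_apply, ← relA, map_mul, map_inv, mul_apply, ← h5, inv_self]
    exact (h1 j).fix X (φ.comp (inc j)) x h7 g
  -- the regions do not change with the time
  have h7 : ∀ (i : Fin (k + 2)) (j : Fin w.length), φ (R i (nx j)) x = φ (R i j) x := by
    intro i j
    by_cases hi : i = mid (w.get j)
    · have h8 := h6 j (M j).a
      rw [← rela, map_mul, map_inv, mul_apply, ← (φ (R (mid (w.get j)) (nx j))).inj, self_inv] at h8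
      rw [hi, h8]
    · rw [relC j i hi]
  have h8 : ∀ (i : Fin (k + 2)) (j : ℕ) (hj : j < w.length),
      φ (R i ⟨j, hj⟩) x = φ (R i ⟨0, hN0⟩) x := by
    intro i j
    induction j with
    | zero => intro _; rfl
    | succ j ih =>
      intro hj
      rw [← ih (by omega), ← h7 i ⟨j, by omega⟩]
      congr 3
      apply Fin.ext; simp only [nx]; exact (Nat.mod_eq_of_lt hj).symm
  -- all regions fix the point
  have h9 : ∀ (i : ℕ) (hi : i < k + 2), φ (R ⟨i, hi⟩ ⟨0, hN0⟩) x = x := by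
    intro i
    induction i using Nat.strong_induction_on with
    | _ i ih =>
      intro hi
      rcases Nat.lt_or_ge i 2 with h | h
      · obtain ⟨ha, hb⟩ := rel0 (M := M) ⟨0, hN0⟩ rfl
        rcases Nat.lt_or_ge i 1 with h' | h'
        · have : (⟨i, hi⟩ : Fin (k + 2)) = 0 := Fin.ext (by simp; omega)
          rw [this, ha, map_one, one_apply]
        · have : (⟨i, hi⟩ : Fin (k + 2)) = 1 := Fin.ext (by simp; omega)
          rw [this, hb, map_one, one_apply]
      · obtain ⟨c, rfl⟩ : ∃ c, i = c + 2 := ⟨i - 2, by omega⟩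
        obtain ⟨j, hj, hj2⟩ := List.getElem_of_mem (hw ⟨c, by omega⟩)
        have ha := h5 ⟨j, hj⟩
        have hb : w.get ⟨j, hj⟩ = ⟨c, by omega⟩ := hj2
        rw [hb] at ha
        have hc := ih c (by omega) (by omega)
        exact (h8 _ j hj).symm.trans (ha.symm.trans ((h8 _ j hj).trans hc))
  have hmem : γ ∈ Subgroup.closure (Set.range (PresentedGroup.of (rels := relators w M))) := by
    rw [PresentedGroup.closure_range_of]; trivial
  induction hmem using Subgroup.closure_induction with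
  | mem y hy =>
    obtain ⟨⟨i, j⟩ | ⟨i, g⟩, rfl⟩ := hy
    · exact (h8 i j.1 j.2).trans (h9 i.1 i.2)
    · exact h6 i g
  | one => rw [map_one, one_apply]
  | mul y z _ _ h5 h6 => rw [map_mul, mul_apply, h6, h5]
  | inv y _ h5 => rw [map_inv, ← inj (φ y), self_inv, h5]

end Chain

/-- Chains of tangles for a word with a certificate. -/
theorem chain_noLO {k : ℕ} {w : List (Fin k)} (hN : w.length ≤ 16) (hN0 : 0 < w.length)
    (hw : ∀ c : Fin k, c ∈ w) {cert : Cert}
    (hcert : check (boxes (Chain.nat w)) cert .lf 0 = true) (T : Fin w.length → Tang)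
    (hb : ∀ j, (T j).Bounded) (hp : ∀ j, (T j).Proper) : NoLO (TangleChain w T) := by
  intro H _ hH f γ
  refine hom_trivial (1 : TangleChain w T) ?_ ?_ H hH f γ
  · intro X _ φ x _ γ
    exact Chain.trivial_action φ hN hN0 hw hcert (fun j => (T j).ok)
      (fun j => (T j).bounded (hb j)) (fun j => (T j).proper (hp j)) x γ
  · intro X _ _ φ h
    obtain ⟨x⟩ := ‹Nonempty X›
    have := h x
    rw [map_one, one_apply] at this
    exact lt_irrefl _ this

end Pool.Agent.K7.H46.LO
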