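import Pool.Agent.K7.H46.LO.Check

set_option autoImplicit false

/-!
# Region systems of closed chains

A word `w` is a list of letters; the letter `c` stands for a tangle between the strands `c` and
`c + 1` of a closed braid. The column `i` of regions lies between the strands `i - 1` and `i`.
-/

namespace Pool.Agent.K7.H46.LO

/-- the letter with number `j` -/
def lett (w : List ℕ) (j : ℕ) : ℕ := w.getD j 99

/-- the cyclic predecessor -/
def pre (w : List ℕ) (j : ℕ) : ℕ := (j + w.length - 1) % w.length

/-- the first time at which the region of the column `i` at the time `j` exists -/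
def rt (w : List ℕ) (i : ℕ) : ℕ → ℕ → ℕ
  | 0, j => j
  | f + 1, j => if Nat.beq (lett w (pre w j) + 1) i then j else rt w i f (pre w j)

/-- the number of the region of the column `i` at the time `j` -/
def code (w : List ℕ) (i j : ℕ) : ℕ :=
  if w.any (fun c => Nat.beq (c + 1) i) then 16 * i + rt w i w.length j else 16 * i

/-- the tangle with number `j` -/
def box (w : List ℕ) (j : ℕ) : Box where
  W := code w (lett w j) j
  E := code w (lett w j + 2) j
  S := code w (lett w j + 1) j
  N := code w (lett w j + 1) ((j + 1) % w.length)

/-- all tangles -/
def boxes (w : List ℕ) : List Box := (List.range w.length).map (box w)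

end Pool.Agent.K7.H46.LO
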